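import Mathlib
import Pool.Agent.Lib.MP_b573ec_lc_LT.Model

/-!
# Multihead stack programs: nonuniform machines with a stack and several two-way input heads

A multihead stack program on `n` Boolean variables with `k` heads, `T` head moves and width `w` has
a read-only input of `n` bits (the cells), `k` input heads, `w` internal states (space `log2 w`) and
a stack with `w` symbols; the height of the stack and the number of moves of the stack are not
bounded.  A head move brings one head to a neighbour cell, to the left or to the right; the program
stops after `T` head moves.
-/

namespace Pool.Agent.HM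

open Pool.Agent.LT (Inp)

/-! ## Moves and configurations -/

/-- The moves of a program with `k` heads, `w` states and `w` stack symbols: go to the state `q` and
push the symbol `a`; go to the state `q` and remove the top symbol (if the stack is empty it stays
empty); go to the state `q` and move the head `r` to the right neighbour cell (`d = true`) or to the
left one (`d = false`). -/
inductive Move (k w : ℕ)
  | push (q a : Fin w)
  | pop (q : Fin w)
  | head (q : Fin w) (r : Fin k) (d : Bool)

/-- the neighbour of the cell `c` to the right (`d = true`) or to the left (`d = false`); at the end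
of the input the cell `c` itself -/
def nbr {n : ℕ} (c : Fin n) (d : Bool) : Fin n :=
  if d then (if h : (c : ℕ) + 1 < n then ⟨c + 1, h⟩ else c)
  else ⟨c - 1, lt_of_le_of_lt (Nat.sub_le _ _) c.2⟩

/-- A configuration of a program with `k` heads on `n` variables: the number of head moves made so
far, the cells of the heads, the state, and the stack (top symbol first). -/
structure Conf (n k w : ℕ) where
  time : ℕ
  heads : Fin k → Fin n
  state : Fin w
  stack : List (Fin w)

/-- the configuration after a move -/
def Conf.after {n k w : ℕ} (c : Conf n k w) : Move k w → Conf n k w
  | .push q a => ⟨c.time, c.heads, q, a :: c.stack⟩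
  | .pop q => ⟨c.time, c.heads, q, c.stack.tail⟩
  | .head q r d => ⟨c.time + 1, Function.update c.heads r (nbr (c.heads r) d), q, c.stack⟩

/-! ## Deterministic programs -/

/-- A deterministic multihead stack program on `n` Boolean variables, with `k` heads and width `w`.
The move depends on the number of head moves made so far, on the cells of the heads, on the state,
on the top symbol of the stack (`none` if the stack is empty) and on the values of the `k` variables
on which the heads stand.  At the start the stack is empty and the heads are on the cells `heads`.
The program stops after `T` head moves, and its output is the value of `acc` at its state. -/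
structure HeadProg (n k w : ℕ) where
  heads : Fin k → Fin n
  start : Fin w
  move : ℕ → (Fin k → Fin n) → Fin w → Option (Fin w) → (Fin k → Bool) → Move k w
  acc : Fin w → Bool

/-- one step of a program on the input `x`; nothing changes after `T` head moves -/
def HeadProg.step {n k w : ℕ} (P : HeadProg n k w) (T : ℕ) (x : Inp n) (c : Conf n k w) :
    Conf n k w :=
  if c.time < T then
    c.after (P.move c.time c.heads c.state c.stack.head? (fun r => x (c.heads r)))
  else c

/-- the configuration after `j` steps on the input `x` -/
def HeadProg.conf {n k w : ℕ} (P : HeadProg n k w) (T : ℕ) (x : Inp n) (j : ℕ) : Conf n k w :=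
  (P.step T x)^[j] ⟨0, P.heads, P.start, []⟩

/-- `P` makes `T` head moves on the input `x`, and then has the output `b` -/
def HeadProg.Outputs {n k w : ℕ} (P : HeadProg n k w) (T : ℕ) (x : Inp n) (b : Bool) : Prop :=
  ∃ j, (P.conf T x j).time = T ∧ P.acc (P.conf T x j).state = b

/-- `f` is computed by a deterministic multihead stack program with `k` heads, `T` head moves and
width `w` -/
def HeadDet {n : ℕ} (f : Inp n → Bool) (k T w : ℕ) : Prop :=
  ∃ P : HeadProg n k w, ∀ x, P.Outputs T x (f x)

/-- `f` is computed by multihead stack programs with one-sided error: the program may depend on `ρ`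
uniform random bits `c`; if `f x = 1` it has output `1` with probability at least `1/2`, if
`f x = 0` it always has output `0`. -/
def HeadOneSided {n : ℕ} (f : Inp n → Bool) (k T w : ℕ) : Prop :=
  ∃ (ρ : ℕ) (P : (Fin ρ → Bool) → HeadProg n k w),
    (∀ x, f x = true → 2 ^ ρ ≤ 2 * Nat.card {c : Fin ρ → Bool // (P c).Outputs T x true}) ∧
    ∀ x, f x = false → ∀ c, (P c).Outputs T x false

/-- `f` is computed by multihead stack programs with two-sided error `1/3` -/
def HeadTwoSided {n : ℕ} (f : Inp n → Bool) (k T w : ℕ) : Prop :=
  ∃ (ρ : ℕ) (P : (Fin ρ → Bool) → HeadProg n k w),
    ∀ x, 2 * 2 ^ ρ ≤ 3 * Nat.card {c : Fin ρ → Bool // (P c).Outputs T x (f x)}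

/-! ## Nondeterministic programs -/

/-- A nondeterministic multihead stack program: `start` tells which cells of the heads and states
are allowed at the start, `move` tells which moves are allowed. -/
structure NHeadProg (n k w : ℕ) where
  start : (Fin k → Fin n) → Fin w → Prop
  move : ℕ → (Fin k → Fin n) → Fin w → Option (Fin w) → (Fin k → Bool) → Move k w → Prop
  acc : Fin w → Prop

/-- the steps of a nondeterministic program on the input `x` -/
def NHeadProg.Step {n k w : ℕ} (P : NHeadProg n k w) (T : ℕ) (x : Inp n) (c c' : Conf n k w) :
    Prop :=
  c.time < T ∧ ∃ mv : Move k w,
    P.move c.time c.heads c.state c.stack.head? (fun r => x (c.heads r)) mv ∧ c' = c.after mv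

/-- `P` has a computation on the input `x` with `T` head moves which ends in an accepting state -/
def NHeadProg.Accepts {n k w : ℕ} (P : NHeadProg n k w) (T : ℕ) (x : Inp n) : Prop :=
  ∃ h q c, P.start h q ∧ Relation.ReflTransGen (P.Step T x) ⟨0, h, q, []⟩ c ∧ c.time = T ∧
    P.acc c.state

/-- `f` is computed by a nondeterministic multihead stack program with `k` heads, `T` head moves
and width `w` -/
def HeadNondet {n : ℕ} (f : Inp n → Bool) (k T w : ℕ) : Prop :=
  ∃ P : NHeadProg n k w, ∀ x, f x = true ↔ P.Accepts T x

end Pool.Agent.HM
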