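import Mathlib
import Pool.Agent.Lib.MP_b573ec_lc_ST.Core
import Pool.Agent.Lib.MP_b573ec_lc_HM.Model

/-!
# Multihead stack programs as transition relations with a time

The definitions shared by the modules of this folder.  The derivations (`Pop`), skeletons (`Sk`,
`Dv`) and labels (`Lab`) are those of `MP_b573ec_lc_ST.Core`; the time is the number of head moves.
-/

namespace Pool.Agent.HM

open Pool.Agent.LT (Inp)
open Pool.Agent.ST (Rel Pop Nd Cs Sk Dv Lab InBlk)

/-- number of states of the transition relation -/
abbrev W (n k w : ℕ) : ℕ := n ^ k * w + w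

/-- codes of the pairs (cells of the heads, state) and of the stack symbols -/
noncomputable def cod (n k w : ℕ) : ((Fin k → Fin n) × Fin w) ⊕ Fin w ≃ Fin (W n k w) :=
  Fintype.equivFinOfCardEq (by simp [W])

/-- code of a state -/
noncomputable def cst {n k w : ℕ} (h : Fin k → Fin n) (q : Fin w) : Fin (W n k w) :=
  cod n k w (.inl (h, q))

/-- code of a stack symbol -/
noncomputable def csy {n k w : ℕ} (a : Fin w) : Fin (W n k w) := cod n k w (.inr a)

/-- code of a move from a configuration with the heads on the cells `h` -/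
noncomputable def cmv {n k w : ℕ} (h : Fin k → Fin n) : Move k w → ST.Move (W n k w)
  | .push q a => .push (cst h q) (csy a)
  | .pop q => .pop (cst h q)
  | .head q r d => .next (cst (Function.update h r (nbr (h r) d)) q)

/-- The transition relation of a program; at the time `t` the heads have to satisfy `R t`.  The
letter `b` tells which of two inputs `X false`, `X true` is read. -/
def NHeadProg.rel {n k w : ℕ} (P : NHeadProg n k w) (T : ℕ) (R : ℕ → (Fin k → Fin n) → Prop)
    (X : Bool → Inp n) : Rel (W n k w) := fun t s g b mv =>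
  t < T ∧ ∃ (h : Fin k → Fin n) (q : Fin w) (g' : Option (Fin w)) (mv' : Move k w), R t h ∧
    s = cst h q ∧ g = g'.map csy ∧ P.move t h q g' (fun r => X b (h r)) mv' ∧ mv = cmv h mv'

/-- acceptance with a condition on the heads -/
def NHeadProg.AcceptsR {n k w : ℕ} (P : NHeadProg n k w) (T : ℕ)
    (R : ℕ → (Fin k → Fin n) → Prop) (x : Inp n) : Prop :=
  ∃ h q c, P.start h q ∧
    Relation.ReflTransGen (fun c c' => P.Step T x c c' ∧ R c.time c.heads) ⟨0, h, q, []⟩ c ∧
      c.time = T ∧ P.acc c.state

/-- the deterministic nondeterministic programs -/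
def NHeadProg.Det {n k w : ℕ} (P : NHeadProg n k w) : Prop :=
  (∀ t h q g y mv mv', P.move t h q g y mv → P.move t h q g y mv' → mv = mv') ∧
    ∀ h h' q q', P.start h q → P.start h' q' → h = h' ∧ q = q'

/-- a deterministic program as a nondeterministic one which accepts when the output is `b` -/
def HeadProg.toN {n k w : ℕ} (P : HeadProg n k w) (b : Bool) : NHeadProg n k w where
  start h q := h = P.heads ∧ q = P.start
  move t h q g y mv := mv = P.move t h q g y
  acc q := P.acc q = b

/-! ## Blocks with margins -/

/-- cell `e` belongs to block `i` without its margins of length `c` (blocks of `b` cells after the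
first `L` cells) -/
def InI (L b c i e : ℕ) : Prop := L + i * b + c ≤ e ∧ e + c < L + (i + 1) * b

instance (L b c i e : ℕ) : Decidable (InI L b c i e) := by unfold InI; infer_instance

/-- the inputs `x` and `y` agree outside the blocks `i` and `j` without their margins -/
def AgreeI {n : ℕ} (L b c i j : ℕ) (x y : Inp n) : Prop :=
  ∀ e : Fin n, ¬ InI L b c i e → ¬ InI L b c j e → x e = y e

/-! ## Labels of the cells of the heads -/

/-- `l` is the label of `h` for the sets of cells `A` and `B`: `a` if a head is in `A` and no head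
is in `B`, `b` if a head is in `B` and no head is in `A`, `c` if no head is in `A` or `B` -/
def LabOf {n k : ℕ} (A B : ℕ → Prop) (h : Fin k → Fin n) : Lab → Prop
  | .a => (∃ r, A (h r)) ∧ ∀ r, ¬ B (h r)
  | .b => (∃ r, B (h r)) ∧ ∀ r, ¬ A (h r)
  | .c => (∀ r, ¬ A (h r)) ∧ ∀ r, ¬ B (h r)

/-- condition on the heads given by a history of labels -/
def RL {n : ℕ} (k : ℕ) (A B : ℕ → Prop) (ℓ : ℕ → Lab) : ℕ → (Fin k → Fin n) → Prop := fun t h =>
  LabOf A B h (ℓ t)

/-! ## Histories -/

/-- the number of changes of a history before the time `t` -/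
noncomputable def chg {α : Type*} (ℓ : ℕ → α) (t : ℕ) : ℕ := by
  classical
  exact ((Finset.range t).filter fun s => ℓ (s + 1) ≠ ℓ s).card

/-- the histories with at most `κ` changes which have the label `c` from the time `T` on -/
def Hist (T κ : ℕ) (ℓ : ℕ → Lab) : Prop := (∀ t, T ≤ t → ℓ t = .c) ∧ chg ℓ T ≤ κ

/-- the label of the phase `s` of a history -/
noncomputable def lbh (ℓ : ℕ → Lab) (s : ℕ) : Lab := by
  classical
  exact if h : ∃ t, chg ℓ t = s then ℓ (Classical.choose h) else .c

/-- the transcript relation -/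
def Trc {n k w : ℕ} (P : NHeadProg n k w) (T : ℕ) (A B : ℕ → Prop) (x : Inp n) (ℓ : ℕ → Lab)
    (s0 s1 : (Fin k → Fin n) × Fin w) (s : Sk (W n k w)) : Prop :=
  P.start s0.1 s0.2 ∧ P.acc s1.2 ∧
    Dv (P.rel T (RL k A B ℓ) fun _ => x) T (chg ℓ) (fun _ => false)
      ⟨0, cst s0.1 s0.2, none, T, cst s1.1 s1.2⟩ s ∧ s.Ok (lbh ℓ) (chg ℓ)

end Pool.Agent.HM
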