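import Mathlib
import Pool.Agent.Lib.MP_b573ec_lc_HM.Core

/-!
# Histories of labels
-/

namespace Pool.Agent.HM

open Pool.Agent.ST (Lab)

theorem chg_mono {α : Type*} (ℓ : ℕ → α) : Monotone (chg ℓ) := by
  intro a b hab
  classical
  unfold chg
  exact Finset.card_le_card (Finset.filter_subset_filter _ (Finset.range_mono hab))

theorem chg_succ {α : Type*} [DecidableEq α] (ℓ : ℕ → α) (t : ℕ) :
    chg ℓ (t + 1) = chg ℓ t + if ℓ (t + 1) = ℓ t then 0 else 1 := by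
  unfold chg
  rw [Finset.range_add_one, Finset.filter_insert]
  by_cases h : ℓ (t + 1) = ℓ t
  · rw [if_neg (not_not.2 h), if_pos h, Nat.add_zero]
  · rw [if_pos h, if_neg h, Finset.card_insert_of_notMem]
    simp

theorem chg_le {T κ : ℕ} {ℓ : ℕ → Lab} (h : Hist T κ ℓ) (t : ℕ) : chg ℓ t ≤ κ := by
  classical
  rcases le_total t T with ht | ht
  · exact (chg_mono ℓ ht).trans h.2
  · have key : ∀ d, chg ℓ (T + d) = chg ℓ T := by
      intro d
      induction d with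
      | zero => rfl
      | succ d ih =>
        rw [← Nat.add_assoc, chg_succ, ih, if_pos, Nat.add_zero]
        rw [h.1 _ (by omega), h.1 _ (by omega)]
    obtain ⟨d, rfl⟩ := Nat.exists_eq_add_of_le ht
    rw [key]
    exact h.2

private lemma chg_eq_aux {α : Type*} {ℓ : ℕ → α} (t d : ℕ) (h : chg ℓ t = chg ℓ (t + d)) :
    ℓ t = ℓ (t + d) := by
  classical
  induction d with
  | zero => rfl
  | succ d ih =>
    have h1 := chg_mono ℓ (Nat.le_add_right t d)
    have h2 := chg_succ ℓ (t + d)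
    rw [← Nat.add_assoc] at h ⊢
    by_cases hc : ℓ (t + d + 1) = ℓ (t + d)
    · rw [if_pos hc] at h2
      rw [hc]
      exact ih (by omega)
    · rw [if_neg hc] at h2
      omega

/-- times without a change in between have the same label -/
theorem chg_eq {α : Type*} {ℓ : ℕ → α} {t t' : ℕ} (h : chg ℓ t = chg ℓ t') : ℓ t = ℓ t' := by
  rcases le_total t t' with h' | h'
  · obtain ⟨d, rfl⟩ := Nat.exists_eq_add_of_le h'
    exact chg_eq_aux t d h
  · obtain ⟨d, rfl⟩ := Nat.exists_eq_add_of_le h'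
    exact (chg_eq_aux t' d h.symm).symm

theorem lbh_chg (ℓ : ℕ → Lab) (t : ℕ) : lbh ℓ (chg ℓ t) = ℓ t := by
  have h : ∃ t', chg ℓ t' = chg ℓ t := ⟨t, rfl⟩
  unfold lbh
  rw [dif_pos h]
  exact chg_eq (Classical.choose_spec h)

/-- the code of a label -/
private def labNum : Lab → Fin 3
  | .a => 0
  | .b => 1
  | .c => 2

private lemma labNum_inj : Function.Injective labNum := by
  intro x y h
  cases x <;> cases y <;> first | rfl | exact absurd h (by decide)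

private lemma fst_ex (T : ℕ) (ℓ : ℕ → Lab) (r : ℕ) : ∃ t, t = T ∨ r ≤ chg ℓ t := ⟨T, Or.inl rfl⟩

/-- the first time with at least `r` changes, or `T` -/
private noncomputable def fstT (T : ℕ) (ℓ : ℕ → Lab) (r : ℕ) : ℕ := by
  classical
  exact Nat.find (fst_ex T ℓ r)

private lemma fstT_le (T : ℕ) (ℓ : ℕ → Lab) (r : ℕ) : fstT T ℓ r ≤ T := by
  classical
  exact Nat.find_min' (fst_ex T ℓ r) (Or.inl rfl)

private lemma fstT_le_iff {T : ℕ} {ℓ : ℕ → Lab} {r t : ℕ} (ht : t < T) :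
    fstT T ℓ r ≤ t ↔ r ≤ chg ℓ t := by
  classical
  constructor
  · intro h
    rcases Nat.find_spec (fst_ex T ℓ r) with h1 | h1
    · exfalso
      have h2 : fstT T ℓ r = T := h1
      omega
    · exact h1.trans (chg_mono ℓ h)
  · intro h
    exact Nat.find_min' (fst_ex T ℓ r) (Or.inr h)

private lemma label_fstT {T : ℕ} {ℓ : ℕ → Lab} {t : ℕ} (ht : t < T) :
    ℓ t = ℓ (fstT T ℓ (chg ℓ t)) := by
  classical
  have h1 : fstT T ℓ (chg ℓ t) ≤ t := (fstT_le_iff ht).2 le_rfl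
  have h2 : chg ℓ t ≤ chg ℓ (fstT T ℓ (chg ℓ t)) := (fstT_le_iff (lt_of_le_of_lt h1 ht)).1 le_rfl
  exact chg_eq (le_antisymm h2 (chg_mono ℓ h1))

/-- the first times and the labels -/
private noncomputable def keyH (T κ : ℕ) (ℓ : ℕ → Lab) : Fin (κ + 1) → Fin (T + 1) × Fin 3 :=
  fun r => (⟨fstT T ℓ r, Nat.lt_succ_of_le (fstT_le T ℓ r)⟩, labNum (ℓ (fstT T ℓ r)))

private lemma keyH_inj {T κ : ℕ} {ℓ ℓ' : ℕ → Lab} (h : Hist T κ ℓ) (h' : Hist T κ ℓ')
    (e : keyH T κ ℓ = keyH T κ ℓ') : ℓ = ℓ' := by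
  have e1 : ∀ r, r ≤ κ → fstT T ℓ r = fstT T ℓ' r := by
    intro r hr
    have h1 := congrFun e ⟨r, Nat.lt_succ_of_le hr⟩
    exact congrArg Fin.val (congrArg Prod.fst h1)
  have e2 : ∀ r, r ≤ κ → ℓ (fstT T ℓ r) = ℓ' (fstT T ℓ' r) := by
    intro r hr
    have h1 := congrFun e ⟨r, Nat.lt_succ_of_le hr⟩
    exact labNum_inj (congrArg Prod.snd h1)
  funext t
  rcases Nat.lt_or_ge t T with ht | ht
  · have hc : chg ℓ t = chg ℓ' t := by
      apply le_antisymm
      · have h1 := (fstT_le_iff (ℓ := ℓ) (r := chg ℓ t) ht).2 le_rfl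
        rw [e1 _ (chg_le h t)] at h1
        exact (fstT_le_iff ht).1 h1
      · have h1 := (fstT_le_iff (ℓ := ℓ') (r := chg ℓ' t) ht).2 le_rfl
        rw [← e1 _ (chg_le h' t)] at h1
        exact (fstT_le_iff ht).1 h1
    rw [label_fstT (ℓ := ℓ) ht, label_fstT (ℓ := ℓ') ht, ← hc]
    exact e2 _ (chg_le h t)
  · rw [h.1 t ht, h'.1 t ht]

theorem hist_codes (T κ : ℕ) : ∃ code : (ℕ → Lab) → ℕ,
    (∀ ℓ, Hist T κ ℓ → code ℓ < (3 * (T + 1)) ^ (κ + 1)) ∧
      ∀ ℓ ℓ', Hist T κ ℓ → Hist T κ ℓ' → code ℓ = code ℓ' → ℓ = ℓ' := by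
  classical
  have hcard : Fintype.card (Fin (κ + 1) → Fin (T + 1) × Fin 3) = (3 * (T + 1)) ^ (κ + 1) := by
    simp [mul_comm]
  let e := Fintype.equivFinOfCardEq hcard
  refine ⟨fun ℓ => (e (keyH T κ ℓ)).val, fun ℓ _ => (e (keyH T κ ℓ)).isLt, ?_⟩
  intro ℓ ℓ' h h' he
  exact keyH_inj h h' (e.injective (Fin.val_injective he))

end Pool.Agent.HM
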