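import Mathlib
import Pool.Agent.Lib.MP_b573ec_lc_HM.Core

/-!
# The trajectory of the heads
-/

namespace Pool.Agent.HM

open Pool.Agent.LT (Inp)

/-- `π t` are the cells of the heads after `t` head moves: every head move brings one head to a
neighbour cell -/
def Walk {n k : ℕ} (T : ℕ) (π : ℕ → Fin k → Fin n) : Prop :=
  ∀ t < T, ∃ r d, π (t + 1) = Function.update (π t) r (nbr (π t r) d)

/-- the trajectory along a computation, by induction on the computation -/
private theorem Traj_aux {n k w : ℕ} (P : NHeadProg n k w) (T : ℕ) (x : Inp n)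
    (c0 c : Conf n k w) (h0 : c0.time = 0) (hr : Relation.ReflTransGen (P.Step T x) c0 c) :
    ∃ π : ℕ → Fin k → Fin n,
      (∀ t < c.time, ∃ r d, π (t + 1) = Function.update (π t) r (nbr (π t r) d)) ∧
      π c.time = c.heads ∧
      Relation.ReflTransGen
        (fun a b => P.Step T x a b ∧ a.heads = π a.time ∧ a.time ≤ c.time) c0 c := by
  induction hr with
  | refl =>
    refine ⟨fun _ => c0.heads, ?_, rfl, Relation.ReflTransGen.refl⟩
    intro t ht
    rw [h0] at ht
    exact absurd ht (Nat.not_lt_zero t)
  | @tail b c hab hbc ih =>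
    obtain ⟨π, h1, h2, h3⟩ := ih
    obtain ⟨hlt, mv, hmv, hc⟩ := id hbc
    cases mv with
    | push q a =>
      have e1 : c.time = b.time := by rw [hc]; rfl
      have e2 : c.heads = b.heads := by rw [hc]; rfl
      refine ⟨π, by rw [e1]; exact h1, by rw [e1, e2]; exact h2, ?_⟩
      rw [e1]
      exact h3.tail ⟨hbc, h2.symm, le_rfl⟩
    | pop q =>
      have e1 : c.time = b.time := by rw [hc]; rfl
      have e2 : c.heads = b.heads := by rw [hc]; rfl
      refine ⟨π, by rw [e1]; exact h1, by rw [e1, e2]; exact h2, ?_⟩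
      rw [e1]
      exact h3.tail ⟨hbc, h2.symm, le_rfl⟩
    | head q r d =>
      have e1 : c.time = b.time + 1 := by rw [hc]; rfl
      have e2 : c.heads = Function.update b.heads r (nbr (b.heads r) d) := by rw [hc]; rfl
      have agree : ∀ s, s ≤ b.time → Function.update π (b.time + 1) c.heads s = π s := by
        intro s hs
        exact Function.update_of_ne (by omega) _ _
      refine ⟨Function.update π (b.time + 1) c.heads, ?_, ?_, ?_⟩
      · intro t ht
        rw [e1] at ht
        rcases Nat.lt_or_ge t b.time with hlt' | hge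
        · rw [agree t (by omega), agree (t + 1) (by omega)]
          exact h1 t hlt'
        · have : t = b.time := by omega
          subst this
          refine ⟨r, d, ?_⟩
          rw [agree b.time le_rfl, Function.update_self, h2, e2]
      · rw [e1, Function.update_self]
      · refine Relation.ReflTransGen.tail (b := b) (Relation.ReflTransGen.mono ?_ _ _ h3) ?_
        · intro a a' hh
          obtain ⟨g1, g2, g3⟩ := hh
          exact ⟨g1, by rw [agree a.time g3]; exact g2, by omega⟩
        · exact ⟨hbc, by rw [agree b.time le_rfl]; exact h2.symm, by omega⟩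

theorem exists_traj {n k w : ℕ} (P : NHeadProg n k w) (T : ℕ) (x : Inp n) (hx : P.Accepts T x) :
    ∃ π : ℕ → Fin k → Fin n, Walk T π ∧ P.AcceptsR T (fun t h => h = π t) x := by
  obtain ⟨h, q, c, hs, hr, ht, ha⟩ := hx
  obtain ⟨π, h1, _, h3⟩ := Traj_aux P T x _ c rfl hr
  refine ⟨π, ?_, h, q, c, hs, Relation.ReflTransGen.mono ?_ _ _ h3, ht, ha⟩
  · intro t htT
    exact h1 t (by omega)
  · intro a b hh
    obtain ⟨g1, g2, _⟩ := hh
    exact ⟨g1, g2⟩

end Pool.Agent.HM
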