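import Mathlib
import Pool.Agent.Lib.MP_b573ec_lc_HM.Traj

/-!
# The number of crossings of the boundaries of the blocks
-/

namespace Pool.Agent.HM

/-- the number of head moves which cross a boundary of block `i` with the margins `c` -/
noncomputable def crs {n k : ℕ} (T L b : ℕ) (π : ℕ → Fin k → Fin n) (c i : ℕ) : ℕ := by
  classical
  exact ((Finset.range T).filter fun t =>
    ∃ r, ¬ (InI L b c i (π t r) ↔ InI L b c i (π (t + 1) r))).card

/-- a boundary between `u` and `u + 1` -/
private theorem Cuts_edge {L b c i u : ℕ} (h : ¬ (InI L b c i u ↔ InI L b c i (u + 1))) :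
    2 * c < b ∧ (u + 1 = L + i * b + c ∨ u + 1 + c = L + i * b + b) := by
  unfold InI at h
  have e : (i + 1) * b = i * b + b := by ring
  rw [e] at h
  omega

/-- only one boundary lies between `u` and `u + 1` -/
private theorem Cuts_uniq {L b c i c' i' u : ℕ} (hc : 1 ≤ c) (hc' : 1 ≤ c')
    (h : ¬ (InI L b c i u ↔ InI L b c i (u + 1)))
    (h' : ¬ (InI L b c' i' u ↔ InI L b c' i' (u + 1))) : c = c' ∧ i = i' := by
  obtain ⟨h1, h2⟩ := Cuts_edge h
  obtain ⟨h3, h4⟩ := Cuts_edge h'
  rcases lt_trichotomy i i' with hlt | heq | hlt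
  · have e : i * b + b ≤ i' * b := by
      have := Nat.mul_le_mul_right b (Nat.succ_le_of_lt hlt)
      rwa [Nat.succ_mul] at this
    omega
  · subst heq
    omega
  · have e : i' * b + b ≤ i * b := by
      have := Nat.mul_le_mul_right b (Nat.succ_le_of_lt hlt)
      rwa [Nat.succ_mul] at this
    omega

/-- a head stays or moves between `u` and `u + 1` -/
private theorem Cuts_nbr {n : ℕ} (e : Fin n) (d : Bool) :
    ((nbr e d : Fin n) : ℕ) = e ∨ ((nbr e d : Fin n) : ℕ) = (e : ℕ) + 1 ∨
      (e : ℕ) = ((nbr e d : Fin n) : ℕ) + 1 := by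
  unfold nbr
  cases d with
  | true =>
    simp only [if_true]
    split_ifs with h
    · right
      left
      rfl
    · left
      rfl
  | false =>
    simp only [Bool.false_eq_true, if_false]
    omega

/-- each head move crosses a boundary of at most one block with one margin -/
theorem sum_crs_le {n k : ℕ} (T L b m B : ℕ) (π : ℕ → Fin k → Fin n) (hπ : Walk T π) :
    ∑ c ∈ Finset.Icc 1 B, ∑ i : Fin m, crs T L b π c i ≤ T := by
  classical
  have h1 : ∑ c ∈ Finset.Icc 1 B, ∑ i : Fin m, crs T L b π c i =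
      ∑ t ∈ Finset.range T, ((Finset.Icc 1 B ×ˢ (Finset.univ : Finset (Fin m))).filter fun ci =>
        ∃ r, ¬ (InI L b ci.1 ci.2 (π t r) ↔ InI L b ci.1 ci.2 (π (t + 1) r))).card := by
    rw [← Finset.sum_product']
    simp only [crs, Finset.card_filter]
    exact Finset.sum_comm
  rw [h1]
  calc _ ≤ ∑ _t ∈ Finset.range T, 1 := Finset.sum_le_sum fun t ht => ?_
    _ = T := by simp
  rw [Finset.card_le_one]
  rintro ⟨c, i⟩ hci ⟨c', i'⟩ hci'
  rw [Finset.mem_filter, Finset.mem_product, Finset.mem_Icc] at hci hci'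
  obtain ⟨⟨⟨hc, -⟩, -⟩, r, hr⟩ := hci
  obtain ⟨⟨⟨hc', -⟩, -⟩, r', hr'⟩ := hci'
  obtain ⟨s, d, hs⟩ := hπ t (Finset.mem_range.1 ht)
  dsimp only at hc hc' hr hr'
  have key : ∀ r c j, ¬ (InI L b c j (π t r) ↔ InI L b c j (π (t + 1) r)) → r = s := by
    intro r c j h
    by_contra hne
    apply h
    rw [hs, Function.update_of_ne hne]
  have e1 := key r c i hr
  have e2 := key r' c' i' hr'
  subst e1
  subst e2
  have e3 : π (t + 1) r' = nbr (π t r') d := by rw [hs, Function.update_self]
  rw [e3] at hr hr'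
  have fin : c = c' ∧ (i : ℕ) = i' := by
    rcases Cuts_nbr (π t r') d with h | h | h
    · rw [h] at hr
      exact absurd Iff.rfl hr
    · rw [h] at hr hr'
      exact Cuts_uniq hc hc' hr hr'
    · rw [h] at hr hr'
      exact Cuts_uniq hc hc' (fun g => hr g.symm) (fun g => hr' g.symm)
  exact Prod.ext fin.1 (Fin.ext fin.2)

end Pool.Agent.HM
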