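import Mathlib
import Pool.Agent.Lib.MP_b573ec_lc_HM.Core

/-!
# Change of the transition relation and of the stream
-/

namespace Pool.Agent.HM

open Pool.Agent.ST (Rel Pop Nd Cs Sk Dv Lab)

theorem Pop_mono {w T : ℕ} {Δ Δ' : Rel w} {z z' : ℕ → Bool}
    (H : ∀ t < T, ∀ q g mv, Δ t q g (z t) mv → Δ' t q g (z' t) mv) {t e : ℕ} {q r : Fin w}
    {g : Option (Fin w)} {l : List (ℕ × ℕ)} (h : Pop Δ T z t q g e r l) :
    Pop Δ' T z' t q g e r l := by
  induction h with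
  | fin q g => exact .fin q g
  | pop t q a q' ht hm => exact .pop t q a q' ht (H t ht _ _ _ hm)
  | bot t q q1 t' q' l ht hm _ ih => exact .bot t q q1 t' q' l ht (H t ht _ _ _ hm) ih
  | next t q g q1 t' q' l ht hm _ ih => exact .next t q g q1 t' q' l ht (H t ht _ _ _ hm) ih
  | push t q g q1 a t1 q2 t' q' l1 l2 ht hm _ _ ih1 ih2 =>
    exact .push t q g q1 a t1 q2 t' q' l1 l2 ht (H t ht _ _ _ hm) ih1 ih2

theorem Cs_mono {w T : ℕ} {Δ Δ' : Rel w} {z z' : ℕ → Bool} {ph : ℕ → ℕ}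
    (H : ∀ t < T, ∀ q g mv, Δ t q g (z t) mv → Δ' t q g (z' t) mv) {ν ν' : Nd w}
    (h : Cs Δ T ph z ν ν') : Cs Δ' T ph z' ν ν' := by
  cases h with
  | bot t q q1 e r ht hm => exact .bot t q q1 e r ht (H t ht _ _ _ hm)
  | next t q g q1 e r ht hm hp => exact .next t q g q1 e r ht (H t ht _ _ _ hm) hp
  | left t q g q1 a t1 q2 e r l ht hm hpop hp =>
    exact .left t q g q1 a t1 q2 e r l ht (H t ht _ _ _ hm) (Pop_mono H hpop) hp
  | right t q g q1 a t1 q2 e r l ht hm hpop hp =>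
    exact .right t q g q1 a t1 q2 e r l ht (H t ht _ _ _ hm) (Pop_mono H hpop) hp

theorem Dv_mono {w T : ℕ} {Δ Δ' : Rel w} {z z' : ℕ → Bool} {ph : ℕ → ℕ}
    (H : ∀ t < T, ∀ q g mv, Δ t q g (z t) mv → Δ' t q g (z' t) mv) {ν : Nd w} {s : Sk w}
    (h : Dv Δ T ph z ν s) : Dv Δ' T ph z' ν s := by
  induction h with
  | int t q g e r l hp hpop => exact .int t q g e r l hp (Pop_mono H hpop)
  | nxt ν t q g q1 e r s hlt hch ht hm hp1 hp2 _ ih =>
    exact .nxt ν t q g q1 e r s hlt (hch.lift id fun _ _ => Cs_mono H) ht (H t ht _ _ _ hm) hp1 hp2 ih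
  | br ν t q g q1 a t1 q2 e r s s' hlt hch ht hm hp1 hp2 _ _ ih1 ih2 =>
    exact .br ν t q g q1 a t1 q2 e r s s' hlt (hch.lift id fun _ _ => Cs_mono H) ht
      (H t ht _ _ _ hm) hp1 hp2 ih1 ih2

end Pool.Agent.HM
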