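import Mathlib
import Pool.Agent.Lib.MP_b573ec_lc_ST.Runs
import Pool.Agent.Lib.MP_b573ec_lc_HM.Core
import Pool.Agent.Lib.MP_b573ec_lc_HM.Mono

/-!
# Computations and derivations
-/

namespace Pool.Agent.HM

open Pool.Agent.LT (Inp)
open Pool.Agent.ST (Rel Pop Nd Cs Sk Dv Lab)

theorem cst_inj {n k w : ℕ} {h h' : Fin k → Fin n} {q q' : Fin w} (e : cst h q = cst h' q') :
    h = h' ∧ q = q' := by
  have h1 := (cod n k w).injective e
  simpa using h1

theorem csy_inj {n k w : ℕ} : Function.Injective (csy : Fin w → Fin (W n k w)) := by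
  intro a b e
  exact Sum.inr_injective ((cod n k w).injective e)

/-- the moves of the transition relation from a coded configuration -/
private theorem Runs_rel {n k w : ℕ} {P : NHeadProg n k w} {T : ℕ}
    {R : ℕ → (Fin k → Fin n) → Prop} {X : Bool → Inp n} {t : ℕ} {h : Fin k → Fin n} {q : Fin w}
    {g : Option (Fin w)} {b : Bool} {mv : ST.Move (W n k w)}
    (H : P.rel T R X t (cst h q) (g.map csy) b mv) :
    ∃ mv', t < T ∧ R t h ∧ P.move t h q g (fun r => X b (h r)) mv' ∧ mv = cmv h mv' := by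
  obtain ⟨ht, h0, q0, g0, mv', hR, e1, e2, hm, e3⟩ := H
  obtain ⟨rfl, rfl⟩ := cst_inj e1
  have h2 : g = g0 := Option.map_injective csy_inj e2
  subst h2
  exact ⟨mv', ht, hR, hm, e3⟩

private theorem Runs_run {n k w : ℕ} (P : NHeadProg n k w) (T : ℕ)
    (R : ℕ → (Fin k → Fin n) → Prop) (x : Inp n) (z : ℕ → Bool) {t : ℕ} {s : Fin (W n k w)}
    {g : Option (Fin (W n k w))} {e : ℕ} {s' : Fin (W n k w)} {l : List (ℕ × ℕ)}
    (H : Pop (P.rel T R fun _ => x) T z t s g e s' l) :
    ∀ (h : Fin k → Fin n) (q : Fin w) (st : List (Fin w)), s = cst h q →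
      st.head?.map csy = g → ∃ (h' : Fin k → Fin n) (q' : Fin w) (R' : List (Fin w)),
        s' = cst h' q' ∧
          Relation.ReflTransGen (fun c c' => P.Step T x c c' ∧ R c.time c.heads) ⟨t, h, q, st⟩
            ⟨e, h', q', R'⟩ ∧ (e < T → R' = st.tail) := by
  induction H with
  | fin s g =>
    intro h q st hs _
    exact ⟨h, q, st, hs, .refl, fun h => absurd h (lt_irrefl _)⟩
  | pop t s a s' ht hm =>
    intro h q st hs hg
    subst hs
    rw [← hg] at hm
    obtain ⟨mv', _, hR, hm', e⟩ := Runs_rel hm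
    cases mv' with
    | pop q' =>
      have e' : s' = cst h q' := by simpa [cmv] using e
      exact ⟨h, q', st.tail, e', .single ⟨⟨ht, _, hm', rfl⟩, hR⟩, fun _ => rfl⟩
    | push q a => simp [cmv] at e
    | head q r d => simp [cmv] at e
  | bot t s s1 t' s' l ht hm hp ih =>
    intro h q st hs hg
    subst hs
    rw [← hg] at hm
    obtain ⟨mv', _, hR, hm', e⟩ := Runs_rel hm
    have hst : st = [] := by
      cases st with
      | nil => rfl
      | cons a st => simp at hg
    subst hst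
    cases mv' with
    | pop q' =>
      have e' : s1 = cst h q' := by simpa [cmv] using e
      obtain ⟨h2, q2, R2, h3, h4, h5⟩ := ih h q' [] e' hg
      exact ⟨h2, q2, R2, h3, .head ⟨⟨ht, _, hm', rfl⟩, hR⟩ h4, h5⟩
    | push q a => simp [cmv] at e
    | head q r d => simp [cmv] at e
  | next t s g s1 t' s' l ht hm hp ih =>
    intro h q st hs hg
    subst hs
    rw [← hg] at hm
    obtain ⟨mv', _, hR, hm', e⟩ := Runs_rel hm
    cases mv' with
    | pop q' => simp [cmv] at e
    | push q a => simp [cmv] at e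
    | head q' r d =>
      have e' : s1 = cst (Function.update h r (nbr (h r) d)) q' := by simpa [cmv] using e
      obtain ⟨h2, q2, R2, h3, h4, h5⟩ := ih _ q' st e' hg
      exact ⟨h2, q2, R2, h3, .head ⟨⟨ht, _, hm', rfl⟩, hR⟩ h4, h5⟩
  | push t s g s1 a t1 s2 t' s' l1 l2 ht hm hp1 hp2 ih1 ih2 =>
    intro h q st hs hg
    subst hs
    rw [← hg] at hm
    obtain ⟨mv', _, hR, hm', e⟩ := Runs_rel hm
    cases mv' with
    | pop q' => simp [cmv] at e
    | head q' r d => simp [cmv] at e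
    | push q' b =>
      have e' : s1 = cst h q' ∧ a = csy b := by simpa [cmv] using e
      obtain ⟨h2, q2, R2, h3, h4, h5⟩ := ih1 h q' (b :: st) e'.1 (by simp [e'.2])
      by_cases h6 : t1 < T
      · have h7 := h5 h6
        simp only [List.tail_cons] at h7
        subst h7
        obtain ⟨h8, q8, R8, h9, h10, h11⟩ := ih2 h2 q2 R2 h3 hg
        exact ⟨h8, q8, R8, h9, .head ⟨⟨ht, _, hm', rfl⟩, hR⟩ (h4.trans h10), h11⟩
      · have h7 : t1 = T := le_antisymm hp1.bounds.2 (not_lt.mp h6)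
        subst h7
        obtain ⟨h8, h9⟩ := ST.T2_pop_end hp2
        subst h8 h9
        exact ⟨h2, q2, R2, h3, .head ⟨⟨ht, _, hm', rfl⟩, hR⟩ h4,
          fun h => absurd h (lt_irrefl _)⟩

private theorem Runs_full_step {n k w : ℕ} (P : NHeadProg n k w) (T : ℕ)
    (R : ℕ → (Fin k → Fin n) → Prop) (x : Inp n) (z : ℕ → Bool) (r : Fin (W n k w))
    {c c' : Conf n k w} (h : P.Step T x c c' ∧ R c.time c.heads)
    (hf : ST.T2_Full (P.rel T R fun _ => x) T z r (c'.stack.map csy) c'.time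
      (cst c'.heads c'.state)) :
    ST.T2_Full (P.rel T R fun _ => x) T z r (c.stack.map csy) c.time (cst c.heads c.state) := by
  obtain ⟨t, hh, q, s⟩ := c
  obtain ⟨⟨ht, mv, hm, rfl⟩, hR⟩ := h
  simp only at ht hm hR ⊢
  have hrel : (P.rel T R fun _ => x) t (cst hh q) (s.head?.map csy) (z t) (cmv hh mv) :=
    ⟨ht, hh, q, s.head?, mv, hR, rfl, rfl, hm, rfl⟩
  cases mv with
  | push q1 a =>
    obtain ⟨t1, q2, l1, hp1, hf'⟩ := hf
    cases s with
    | nil =>
      obtain ⟨l2, hp2⟩ := hf'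
      exact ⟨_, .push t _ none _ _ t1 q2 _ r l1 l2 ht hrel hp1 hp2⟩
    | cons b R0 =>
      obtain ⟨e, q', l2, hp2, hf''⟩ := hf'
      exact ⟨e, q', _, .push t _ (some (csy b)) _ _ t1 q2 e q' l1 l2 ht hrel hp1 hp2, hf''⟩
  | pop q' =>
    cases s with
    | nil =>
      obtain ⟨l, hp⟩ := hf
      exact ⟨l, .bot t _ _ _ r l ht hrel hp⟩
    | cons b R0 =>
      exact ⟨t, _, [], .pop t _ (csy b) _ ht hrel, hf⟩
  | head q1 r1 d =>
    cases s with
    | nil =>
      obtain ⟨l, hp⟩ := hf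
      exact ⟨_, .next t _ none _ _ r l ht hrel hp⟩
    | cons b R0 =>
      obtain ⟨e, q', l, hp, hf'⟩ := hf
      exact ⟨e, q', _, .next t _ (some (csy b)) _ e q' l ht hrel hp, hf'⟩

/-- acceptance with a condition on the heads as a derivation (the stream `z` plays no role) -/
theorem acceptsR_iff {n k w : ℕ} (P : NHeadProg n k w) (T : ℕ) (R : ℕ → (Fin k → Fin n) → Prop)
    (x : Inp n) (z : ℕ → Bool) : P.AcceptsR T R x ↔ ∃ h q h' q' l, P.start h q ∧ P.acc q' ∧
      Pop (P.rel T R fun _ => x) T z 0 (cst h q) none T (cst h' q') l := by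
  constructor
  · rintro ⟨h, q, c, hq, hc, hT, hacc⟩
    have key : ST.T2_Full (P.rel T R fun _ => x) T z (cst c.heads c.state)
        ((⟨0, h, q, []⟩ : Conf n k w).stack.map csy) (⟨0, h, q, []⟩ : Conf n k w).time
        (cst (⟨0, h, q, []⟩ : Conf n k w).heads (⟨0, h, q, []⟩ : Conf n k w).state) := by
      refine Relation.ReflTransGen.head_induction_on (motive := fun c' _ =>
        ST.T2_Full (P.rel T R fun _ => x) T z (cst c.heads c.state) (c'.stack.map csy) c'.time
          (cst c'.heads c'.state)) hc ?_ ?_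
      · rw [hT]
        exact ST.T2_full_end _ _ _ _ _
      · intro a b hab _ ih
        exact Runs_full_step P T R x z _ hab ih
    obtain ⟨l, hl⟩ := key
    exact ⟨h, q, c.heads, c.state, l, hq, hacc, hl⟩
  · rintro ⟨h, q, h', q', l, hq, hacc, hp⟩
    obtain ⟨h2, q2, R2, e, h3, _⟩ := Runs_run P T R x z hp h q [] rfl rfl
    obtain ⟨rfl, rfl⟩ := cst_inj e
    exact ⟨h, q, _, hq, h3, rfl, hacc⟩

theorem accepts_iff_true {n k w : ℕ} (P : NHeadProg n k w) (T : ℕ) (x : Inp n) :
    P.Accepts T x ↔ P.AcceptsR T (fun _ _ => True) x := by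
  simp only [NHeadProg.Accepts, NHeadProg.AcceptsR, and_true]

theorem acceptsR_accepts {n k w : ℕ} {P : NHeadProg n k w} {T : ℕ}
    {R : ℕ → (Fin k → Fin n) → Prop} {x : Inp n} (h : P.AcceptsR T R x) : P.Accepts T x := by
  obtain ⟨h, q, c, hq, hc, hT, hacc⟩ := h
  exact ⟨h, q, c, hq, hc.lift id fun _ _ h => h.1, hT, hacc⟩

theorem rel_det {n k w : ℕ} {P : NHeadProg n k w} (hP : P.Det) (T : ℕ)
    (R : ℕ → (Fin k → Fin n) → Prop) (X : Bool → Inp n) : (P.rel T R X).Det := by
  rintro t s g b mv mv' ⟨_, h, q, g', m, _, rfl, rfl, hm, rfl⟩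
    ⟨_, h2, q2, g2, m2, _, e1, e2, hm2, rfl⟩
  obtain ⟨rfl, rfl⟩ := cst_inj e1
  have e3 : g' = g2 := Option.map_injective csy_inj e2
  subst e3
  rw [hP.1 _ _ _ _ _ _ _ hm hm2]

private theorem Runs_conf_succ {n k w : ℕ} (P : HeadProg n k w) (T : ℕ) (x : Inp n) (j : ℕ) :
    P.conf T x (j + 1) = P.step T x (P.conf T x j) := by
  simp only [HeadProg.conf, Function.iterate_succ_apply']

private theorem Runs_step_toN {n k w : ℕ} (P : HeadProg n k w) (T : ℕ) (b : Bool) (x : Inp n)
    {c c' : Conf n k w} : (P.toN b).Step T x c c' ↔ c.time < T ∧ c' = P.step T x c := by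
  constructor
  · rintro ⟨h, mv, hm, rfl⟩
    refine ⟨h, ?_⟩
    have hm' : mv = P.move c.time c.heads c.state c.stack.head? (fun r => x (c.heads r)) := hm
    rw [hm', HeadProg.step, if_pos h]
  · rintro ⟨h, rfl⟩
    refine ⟨h, _, rfl, ?_⟩
    rw [HeadProg.step, if_pos h]

theorem toN_accepts {n k w : ℕ} (P : HeadProg n k w) (T : ℕ) (x : Inp n) (b : Bool) :
    (P.toN b).Accepts T x ↔ P.Outputs T x b := by
  constructor
  · rintro ⟨h, q, c, hq, hc, hpos, hacc⟩
    obtain ⟨rfl, rfl⟩ : h = P.heads ∧ q = P.start := hq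
    have key : ∃ j, P.conf T x j = c := by
      clear hpos hacc
      induction hc with
      | refl => exact ⟨0, rfl⟩
      | tail _ h ih =>
        obtain ⟨j, hj⟩ := ih
        rw [Runs_step_toN] at h
        exact ⟨j + 1, by rw [Runs_conf_succ, hj, h.2]⟩
    obtain ⟨j, rfl⟩ := key
    exact ⟨j, hpos, hacc⟩
  · rintro ⟨j, hpos, hacc⟩
    refine ⟨P.heads, P.start, P.conf T x j, ⟨rfl, rfl⟩, ?_, hpos, hacc⟩
    clear hpos hacc
    induction j with
    | zero => exact .refl
    | succ j ih =>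
      rw [Runs_conf_succ]
      by_cases h : (P.conf T x j).time < T
      · exact ih.tail ((Runs_step_toN P T b x).2 ⟨h, rfl⟩)
      · have h1 : P.step T x (P.conf T x j) = P.conf T x j := by rw [HeadProg.step, if_neg h]
        rw [h1]
        exact ih

private theorem Runs_conf_add {n k w : ℕ} (P : HeadProg n k w) (T : ℕ) (x : Inp n) {j : ℕ}
    (h : (P.conf T x j).time = T) (m : ℕ) : P.conf T x (j + m) = P.conf T x j := by
  induction m with
  | zero => rfl
  | succ m ih =>
    rw [← Nat.add_assoc, Runs_conf_succ, ih, HeadProg.step, if_neg (by rw [h]; exact lt_irrefl _)]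

theorem outputs_unique {n k w : ℕ} (P : HeadProg n k w) (T : ℕ) (x : Inp n) {b b' : Bool}
    (h : P.Outputs T x b) (h' : P.Outputs T x b') : b = b' := by
  obtain ⟨j, hj, rfl⟩ := h
  obtain ⟨j', hj', rfl⟩ := h'
  rcases le_total j j' with hle | hle
  · obtain ⟨m, rfl⟩ := Nat.exists_eq_add_of_le hle
    rw [Runs_conf_add P T x hj]
  · obtain ⟨m, rfl⟩ := Nat.exists_eq_add_of_le hle
    rw [Runs_conf_add P T x hj']

theorem toN_det {n k w : ℕ} (P : HeadProg n k w) (b : Bool) : (P.toN b).Det :=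
  ⟨fun _ _ _ _ _ _ _ h h' => Eq.trans h (Eq.symm h'),
    fun _ _ _ _ h h' => ⟨h.1.trans h'.1.symm, h.2.trans h'.2.symm⟩⟩

end Pool.Agent.HM
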