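import Mathlib
import Pool.Agent.Lib.MP_b573ec_lc_ST.Runs
import Pool.Agent.Lib.MP_b573ec_lc_HM.Runs

/-!
# Stack programs with `p` passes are one-head stack programs with `2 * p * n` head moves

(This module is not used for the result; it shows that the model contains the older one.)
-/

namespace Pool.Agent.HM

open Pool.Agent.LT (Inp)

/-! ## The schedule of the head -/

private theorem cmp_nbr {n : ℕ} (c : Fin n) (d : Bool) :
    ((nbr c d : Fin n) : ℕ) = if d then min ((c : ℕ) + 1) (n - 1) else (c : ℕ) - 1 := by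
  have hc := c.2
  unfold nbr
  cases d
  · simp
  · simp only [if_true]
    split_ifs with h
    · show (c : ℕ) + 1 = _
      omega
    · omega

private def cmpHp {n : ℕ} (c0 : Fin n) (dir : ℕ → Bool) : ℕ → Fin n
  | 0 => c0
  | t + 1 => nbr (cmpHp c0 dir t) (dir t)

private theorem cmpHp_run {n : ℕ} (c0 : Fin n) (dir : ℕ → Bool) (a : ℕ) (d : Bool) (j : ℕ)
    (h : ∀ i < j, dir (a + i) = d) :
    (cmpHp c0 dir (a + j) : ℕ) =
      if d then min ((cmpHp c0 dir a : ℕ) + j) (n - 1) else (cmpHp c0 dir a : ℕ) - j := by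
  induction j with
  | zero =>
    have h0 := (cmpHp c0 dir a).2
    simp only [Nat.add_zero, Nat.sub_zero]
    split_ifs
    · omega
    · rfl
  | succ j ih =>
    have ih' := ih (fun i hi => h i (by omega))
    have e : cmpHp c0 dir (a + (j + 1)) = nbr (cmpHp c0 dir (a + j)) (dir (a + j)) := rfl
    rw [e, h j (by omega), cmp_nbr, ih']
    cases d
    · simp only [Bool.false_eq_true, if_false]
      omega
    · simp only [if_true]
      omega

private def cmpFw {p : ℕ} (f : Fin p → Bool) (u : ℕ) : Bool :=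
  if h : u < p then f ⟨u, h⟩ else true

private def cmpDir {p : ℕ} (n : ℕ) (f : Fin p → Bool) (t : ℕ) : Bool :=
  if t % (2 * n) < n then cmpFw f (t / (2 * n)) else !(cmpFw f (t / (2 * n) + 1))

private def cmpSt {n p : ℕ} (hn : 1 ≤ n) (f : Fin p → Bool) : Fin n :=
  if cmpFw f 0 then ⟨0, hn⟩ else ⟨n - 1, by omega⟩

private def cmpPos {n p : ℕ} (hn : 1 ≤ n) (f : Fin p → Bool) : ℕ → Fin n :=
  cmpHp (cmpSt hn f) (cmpDir n f)

private theorem cmpPos_succ {n p : ℕ} (hn : 1 ≤ n) (f : Fin p → Bool) (t : ℕ) :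
    cmpPos hn f (t + 1) = nbr (cmpPos hn f t) (cmpDir n f t) := rfl

private theorem cmp_mod {n : ℕ} (u o : ℕ) (ho : o < 2 * n) : (2 * n * u + o) % (2 * n) = o := by
  rw [Nat.mul_add_mod, Nat.mod_eq_of_lt ho]

private theorem cmp_div {n : ℕ} (u o : ℕ) (ho : o < 2 * n) : (2 * n * u + o) / (2 * n) = u := by
  rw [Nat.mul_add_div (by omega), Nat.div_eq_of_lt ho, Nat.add_zero]

private theorem cmpDir_read {n p : ℕ} (f : Fin p → Bool) (u o : ℕ) (ho : o < n) :
    cmpDir n f (2 * n * u + o) = cmpFw f u := by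
  unfold cmpDir
  rw [cmp_mod u o (by omega), cmp_div u o (by omega), if_pos ho]

private theorem cmpDir_wind {n p : ℕ} (f : Fin p → Bool) (u o : ℕ) (ho : n ≤ o)
    (ho2 : o < 2 * n) : cmpDir n f (2 * n * u + o) = !(cmpFw f (u + 1)) := by
  unfold cmpDir
  rw [cmp_mod u o ho2, cmp_div u o ho2, if_neg (by omega)]

private theorem cmpPos_read' {n p : ℕ} (hn : 1 ≤ n) (f : Fin p → Bool) (u : ℕ)
    (hu : (cmpPos hn f (2 * n * u) : ℕ) = if cmpFw f u then 0 else n - 1) (o : ℕ) (ho : o ≤ n) :
    (cmpPos hn f (2 * n * u + o) : ℕ) =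
      if cmpFw f u then min o (n - 1) else n - 1 - o := by
  have h := cmpHp_run (cmpSt hn f) (cmpDir n f) (2 * n * u) (cmpFw f u) o
    (fun i hi => cmpDir_read f u i (by omega))
  unfold cmpPos at hu ⊢
  rw [h, hu]
  cases cmpFw f u
  · simp
  · simp

private theorem cmpPos_start {n p : ℕ} (hn : 1 ≤ n) (f : Fin p → Bool) (u : ℕ) :
    (cmpPos hn f (2 * n * u) : ℕ) = if cmpFw f u then 0 else n - 1 := by
  induction u with
  | zero =>
    show ((cmpSt hn f : Fin n) : ℕ) = _
    unfold cmpSt
    split_ifs <;> rfl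
  | succ u ih =>
    have h1 := (cmpPos hn f (2 * n * u + n)).2
    have h2 := cmpHp_run (cmpSt hn f) (cmpDir n f) (2 * n * u + n) (!(cmpFw f (u + 1))) n
      (fun i hi => by
        rw [add_assoc]
        exact cmpDir_wind f u (n + i) (by omega) (by omega))
    have e : 2 * n * (u + 1) = 2 * n * u + n + n := by ring
    rw [e]
    unfold cmpPos at h1 ⊢
    rw [h2]
    cases cmpFw f (u + 1)
    · simp only [Bool.not_false, if_true, Bool.false_eq_true, if_false]
      omega
    · simp only [Bool.not_true, if_true, Bool.false_eq_true, if_false]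
      omega

private theorem cmpPos_read {n p : ℕ} (hn : 1 ≤ n) (f : Fin p → Bool) (u o : ℕ) (ho : o < n) :
    (cmpPos hn f (2 * n * u + o) : ℕ) = if cmpFw f u then o else n - 1 - o := by
  rw [cmpPos_read' hn f u (cmpPos_start hn f u) o ho.le]
  split_ifs
  · omega
  · rfl

private theorem cmp_lt {n p u o : ℕ} (hu : u < p) (ho : o < n) : u * n + o < p * n := by
  have h1 : (u + 1) * n ≤ p * n := Nat.mul_le_mul_right _ hu
  rw [Nat.add_mul] at h1
  omega

private theorem cmp_divNat {n p u o : ℕ} (hu : u < p) (ho : o < n) :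
    (⟨u * n + o, cmp_lt hu ho⟩ : Fin (p * n)).divNat = ⟨u, hu⟩ := by
  apply Fin.ext
  show (u * n + o) / n = u
  rw [Nat.mul_comm, Nat.mul_add_div (by omega), Nat.div_eq_of_lt ho, Nat.add_zero]

private theorem cmp_cell {n p : ℕ} (hn : 1 ≤ n) (f : Fin p → Bool) {u o : ℕ} (hu : u < p)
    (ho : o < n) :
    ST.cell f (⟨u * n + o, cmp_lt hu ho⟩ : Fin (p * n)) = cmpPos hn f (2 * n * u + o) := by
  apply Fin.ext
  rw [cmpPos_read hn f u o ho]
  unfold ST.cell
  rw [cmp_divNat hu ho]
  have e : ((⟨u * n + o, cmp_lt hu ho⟩ : Fin (p * n)).modNat : ℕ) = o := by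
    show (u * n + o) % n = o
    rw [Nat.mul_comm, Nat.mul_add_mod, Nat.mod_eq_of_lt ho]
  have e2 : cmpFw f u = f ⟨u, hu⟩ := by
    unfold cmpFw
    rw [dif_pos hu]
  rw [e2]
  split_ifs
  · exact e
  · rw [Fin.val_rev, e]
    omega

/-! ## The programs -/

private def cmpTr {w : ℕ} (d : Bool) : ST.Move w → Move 1 w
  | .push q a => .push q a
  | .pop q => .pop q
  | .next q => .head q 0 d

private def cmpN {n p w : ℕ} (hn : 1 ≤ n) (P : ST.NStackProg n p w) : NHeadProg n 1 w where
  start h q := h = (fun _ => cmpSt hn P.forward) ∧ P.start q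
  move t h q g y mv :=
    if hu : t % (2 * n) < n ∧ t / (2 * n) < p then
      ∃ mv', P.move ⟨t / (2 * n), hu.2⟩ (h 0) q g (y 0) mv' ∧ mv = cmpTr (cmpDir n P.forward t) mv'
    else mv = .head q 0 (cmpDir n P.forward t)
  acc := P.acc

private def cmpD {n p w : ℕ} (hn : 1 ≤ n) (P : ST.StackProg n p w) : HeadProg n 1 w where
  heads := fun _ => cmpSt hn P.forward
  start := P.start
  move t h q g y :=
    if hu : t % (2 * n) < n ∧ t / (2 * n) < p then
      cmpTr (cmpDir n P.forward t) (P.move ⟨t / (2 * n), hu.2⟩ (h 0) q g (y 0))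
    else .head q 0 (cmpDir n P.forward t)
  acc := P.acc

private theorem cmpD_toN {n p w : ℕ} (hn : 1 ≤ n) (P : ST.StackProg n p w) (b : Bool) :
    (cmpD hn P).toN b = cmpN hn (P.toN b) := by
  unfold cmpD cmpN HeadProg.toN ST.StackProg.toN
  simp only [NHeadProg.mk.injEq, true_and, and_true]
  funext t h q g y mv
  apply propext
  split_ifs with hu
  · constructor
    · intro e
      exact ⟨_, rfl, e⟩
    · rintro ⟨mv', rfl, e⟩
      exact e
  · rfl

private theorem cmpN_read {n p w : ℕ} (hn : 1 ≤ n) (P : ST.NStackProg n p w) {u o : ℕ}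
    (hu : u < p) (ho : o < n) (h : Fin 1 → Fin n) (q : Fin w) (g : Option (Fin w))
    (y : Fin 1 → Bool) (mv : Move 1 w) :
    (cmpN hn P).move (2 * n * u + o) h q g y mv ↔ ∃ mv', P.move ⟨u, hu⟩ (h 0) q g (y 0) mv' ∧
      mv = cmpTr (cmpDir n P.forward (2 * n * u + o)) mv' := by
  have e1 := cmp_mod (n := n) u o (by omega)
  have e2 := cmp_div (n := n) u o (by omega)
  unfold cmpN
  simp only
  rw [dif_pos ⟨by omega, by omega⟩]
  simp only [e2]

private theorem cmpN_wind {n p w : ℕ} (hn : 1 ≤ n) (P : ST.NStackProg n p w) {u o : ℕ}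
    (ho : n ≤ o) (ho2 : o < 2 * n) (h : Fin 1 → Fin n) (q : Fin w) (g : Option (Fin w))
    (y : Fin 1 → Bool) (mv : Move 1 w) :
    (cmpN hn P).move (2 * n * u + o) h q g y mv ↔
      mv = .head q 0 (cmpDir n P.forward (2 * n * u + o)) := by
  have e1 := cmp_mod (n := n) u o ho2
  unfold cmpN
  simp only
  rw [dif_neg (fun h => by omega)]

private theorem cmp_step {n p w : ℕ} (hn : 1 ≤ n) (P : ST.NStackProg n p w) {u o : ℕ}
    (hu : u < p) (ho : o < n) (x : Inp n) (q : Fin w) (s : List (Fin w)) (c' : ST.Conf w) :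
    P.Step x ⟨u * n + o, q, s⟩ c' ↔ ∃ mv', P.move ⟨u, hu⟩ (cmpPos hn P.forward (2 * n * u + o)) q
      s.head? (x (cmpPos hn P.forward (2 * n * u + o))) mv' ∧
        c' = (⟨u * n + o, q, s⟩ : ST.Conf w).after mv' := by
  unfold ST.NStackProg.Step
  constructor
  · rintro ⟨h, mv, h1, h2⟩
    refine ⟨mv, ?_, h2⟩
    have e1 := cmp_divNat hu ho
    have e2 := cmp_cell hn P.forward hu ho
    simp only at h1
    rw [e1, e2] at h1
    exact h1
  · rintro ⟨mv, h1, h2⟩
    refine ⟨cmp_lt hu ho, mv, ?_, h2⟩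
    have e1 := cmp_divNat hu ho
    have e2 := cmp_cell hn P.forward hu ho
    simp only
    rw [e1, e2]
    exact h1

private def cmpC {n p w : ℕ} (hn : 1 ≤ n) (f : Fin p → Bool) (t : ℕ) (q : Fin w)
    (s : List (Fin w)) : Conf n 1 w := ⟨t, fun _ => cmpPos hn f t, q, s⟩

private theorem cmp_after {n p w : ℕ} (hn : 1 ≤ n) (f : Fin p → Bool) (t : ℕ) (q q' : Fin w)
    (s : List (Fin w)) : (cmpC hn f t q s).after (.head q' 0 (cmpDir n f t)) =
      cmpC hn f (t + 1) q' s := by
  unfold cmpC Conf.after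
  simp only [Conf.mk.injEq, and_true, true_and]
  funext i
  rw [Subsingleton.elim i 0, Function.update_self, cmpPos_succ]

private theorem cmp_time {n p u o : ℕ} (hu : u < p) (ho : o < 2 * n) :
    2 * n * u + o < 2 * p * n := by
  have h1 : 2 * n * (u + 1) ≤ 2 * n * p := Nat.mul_le_mul_left _ hu
  have h2 : 2 * n * (u + 1) = 2 * n * u + 2 * n := by ring
  have h3 : 2 * n * p = 2 * p * n := by ring
  omega

private theorem cmp_rewind {n p w : ℕ} (hn : 1 ≤ n) (P : ST.NStackProg n p w) (x : Inp n)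
    {u : ℕ} (hu : u < p) (q : Fin w) (s : List (Fin w)) (j : ℕ) (hj : j ≤ n) :
    Relation.ReflTransGen ((cmpN hn P).Step (2 * p * n) x)
      (cmpC hn P.forward (2 * n * u + n) q s) (cmpC hn P.forward (2 * n * u + n + j) q s) := by
  induction j with
  | zero => exact Relation.ReflTransGen.refl
  | succ j ih =>
    refine (ih (by omega)).tail ⟨?_, .head q 0 (cmpDir n P.forward (2 * n * u + n + j)), ?_, ?_⟩
    · show 2 * n * u + n + j < 2 * p * n
      rw [add_assoc]
      exact cmp_time hu (by omega)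
    · show (cmpN hn P).move (2 * n * u + n + j) _ _ _ _ _
      rw [add_assoc, cmpN_wind hn P (by omega) (by omega)]
      rfl
    · rw [cmp_after]
      rfl

private theorem cmp_fwd {n p w : ℕ} (hn : 1 ≤ n) (P : ST.NStackProg n p w) (x : Inp n)
    {c c' : ST.Conf w} (h : P.Step x c c') :
    Relation.ReflTransGen ((cmpN hn P).Step (2 * p * n) x)
      (cmpC hn P.forward (2 * n * (c.pos / n) + c.pos % n) c.state c.stack)
      (cmpC hn P.forward (2 * n * (c'.pos / n) + c'.pos % n) c'.state c'.stack) := by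
  have hpos : c.pos < p * n := by
    obtain ⟨h1, -⟩ := h
    exact h1
  obtain ⟨pos, q, s⟩ := c
  simp only at hpos ⊢
  have ho : pos % n < n := Nat.mod_lt _ hn
  have hu : pos / n < p := by
    rw [Nat.div_lt_iff_lt_mul hn]
    exact hpos
  have e : pos = pos / n * n + pos % n := by
    rw [Nat.mul_comm]
    exact (Nat.div_add_mod pos n).symm
  generalize pos / n = u at *
  generalize pos % n = o at *
  subst e
  rw [cmp_step hn P hu ho] at h
  obtain ⟨mv, h1, rfl⟩ := h
  have hstep : (cmpN hn P).Step (2 * p * n) x (cmpC hn P.forward (2 * n * u + o) q s)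
      ((cmpC hn P.forward (2 * n * u + o) q s).after
        (cmpTr (cmpDir n P.forward (2 * n * u + o)) mv)) := by
    refine ⟨cmp_time hu (by omega), _, ?_, rfl⟩
    show (cmpN hn P).move (2 * n * u + o) _ _ _ _ _
    rw [cmpN_read hn P hu ho]
    exact ⟨mv, h1, rfl⟩
  have d1 : (u * n + o) / n = u := by
    rw [Nat.mul_comm, Nat.mul_add_div (by omega), Nat.div_eq_of_lt ho, Nat.add_zero]
  have d2 : (u * n + o) % n = o := by
    rw [Nat.mul_comm, Nat.mul_add_mod, Nat.mod_eq_of_lt ho]
  cases mv with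
  | push q' a =>
    show Relation.ReflTransGen _ _
      (cmpC hn P.forward (2 * n * ((u * n + o) / n) + (u * n + o) % n) q' (a :: s))
    rw [d1, d2]
    exact Relation.ReflTransGen.single hstep
  | pop q' =>
    show Relation.ReflTransGen _ _
      (cmpC hn P.forward (2 * n * ((u * n + o) / n) + (u * n + o) % n) q' s.tail)
    rw [d1, d2]
    exact Relation.ReflTransGen.single hstep
  | next q' =>
    show Relation.ReflTransGen _ _
      (cmpC hn P.forward (2 * n * ((u * n + o + 1) / n) + (u * n + o + 1) % n) q' s)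
    have hs : (cmpC hn P.forward (2 * n * u + o) q s).after
        (cmpTr (cmpDir n P.forward (2 * n * u + o)) (.next q')) =
          cmpC hn P.forward (2 * n * u + o + 1) q' s := cmp_after hn P.forward _ q q' s
    rw [hs] at hstep
    rcases Nat.lt_or_ge (o + 1) n with h2 | h2
    · have d3 : (u * n + o + 1) / n = u := by
        rw [add_assoc, Nat.mul_comm, Nat.mul_add_div (by omega), Nat.div_eq_of_lt h2,
          Nat.add_zero]
      have d4 : (u * n + o + 1) % n = o + 1 := by
        rw [add_assoc, Nat.mul_comm, Nat.mul_add_mod, Nat.mod_eq_of_lt h2]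
      rw [d3, d4]
      exact Relation.ReflTransGen.single hstep
    · have h3 : o + 1 = n := by omega
      have d5 : u * n + o + 1 = (u + 1) * n := by
        rw [add_assoc, h3]
        ring
      rw [d5, Nat.mul_div_cancel _ (by omega), Nat.mul_mod_left, Nat.add_zero]
      rw [add_assoc, h3] at hstep
      refine (Relation.ReflTransGen.single hstep).trans ?_
      have h4 := cmp_rewind hn P x hu q' s n le_rfl
      have e5 : 2 * n * (u + 1) = 2 * n * u + n + n := by ring
      rw [e5]
      exact h4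

private theorem cmp_bwd {n p w : ℕ} (hn : 1 ≤ n) (P : ST.NStackProg n p w) (x : Inp n)
    (q0 : Fin w) {d : Conf n 1 w}
    (h : Relation.ReflTransGen ((cmpN hn P).Step (2 * p * n) x) (cmpC hn P.forward 0 q0 []) d) :
    d = cmpC hn P.forward d.time d.state d.stack ∧ d.time ≤ 2 * p * n ∧
      Relation.ReflTransGen (P.Step x) ⟨0, q0, []⟩
        ⟨d.time / (2 * n) * n + min (d.time % (2 * n)) n, d.state, d.stack⟩ := by
  induction h with
  | refl =>
    refine ⟨rfl, Nat.zero_le _, ?_⟩
    show Relation.ReflTransGen (P.Step x) ⟨0, q0, []⟩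
      ⟨0 / (2 * n) * n + min (0 % (2 * n)) n, q0, []⟩
    simp only [Nat.zero_div, Nat.zero_mul, Nat.zero_mod, Nat.zero_min, Nat.add_zero]
    exact Relation.ReflTransGen.refl
  | @tail c c' _ hst ih =>
    obtain ⟨hc, -, hr⟩ := ih
    obtain ⟨ht, mv, hmv, rfl⟩ := hst
    obtain ⟨t, hd, q, s⟩ := c
    simp only at hc hr ht hmv
    have ho : t % (2 * n) < 2 * n := Nat.mod_lt _ (by omega)
    have hu : t / (2 * n) < p := by
      rw [Nat.div_lt_iff_lt_mul (by omega)]
      have h3 : p * (2 * n) = 2 * p * n := by ring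
      omega
    have e : t = 2 * n * (t / (2 * n)) + t % (2 * n) := (Nat.div_add_mod t (2 * n)).symm
    have hhd : hd = fun _ => cmpPos hn P.forward t := congrArg Conf.heads hc
    subst hhd
    clear hc
    have hC : (⟨t, fun _ => cmpPos hn P.forward t, q, s⟩ : Conf n 1 w) =
      cmpC hn P.forward t q s := rfl
    rw [hC]
    clear hC
    generalize t / (2 * n) = u at *
    generalize t % (2 * n) = o at *
    subst e
    rcases Nat.lt_or_ge o n with h4 | h4
    · have hmv' : ∃ mv', P.move ⟨u, hu⟩ (cmpPos hn P.forward (2 * n * u + o)) q s.head?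
          (x (cmpPos hn P.forward (2 * n * u + o))) mv' ∧
            mv = cmpTr (cmpDir n P.forward (2 * n * u + o)) mv' :=
        (cmpN_read hn P hu h4 _ q s.head? _ mv).1 hmv
      obtain ⟨mv', h5, rfl⟩ := hmv'
      have h6 : P.Step x ⟨u * n + o, q, s⟩ ((⟨u * n + o, q, s⟩ : ST.Conf w).after mv') :=
        (cmp_step hn P hu h4 x q s _).2 ⟨mv', h5, rfl⟩
      have e6 : min o n = o := by omega
      rw [e6] at hr
      have h7 := hr.tail h6
      have d1 := cmp_div (n := n) u o (by omega)
      have d2 := cmp_mod (n := n) u o (by omega)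
      cases mv' with
      | push q' a =>
        refine ⟨rfl, ht.le, ?_⟩
        show Relation.ReflTransGen (P.Step x) ⟨0, q0, []⟩
          ⟨(2 * n * u + o) / (2 * n) * n + min ((2 * n * u + o) % (2 * n)) n, q', a :: s⟩
        rw [d1, d2, e6]
        exact h7
      | pop q' =>
        refine ⟨rfl, ht.le, ?_⟩
        show Relation.ReflTransGen (P.Step x) ⟨0, q0, []⟩
          ⟨(2 * n * u + o) / (2 * n) * n + min ((2 * n * u + o) % (2 * n)) n, q', s.tail⟩
        rw [d1, d2, e6]
        exact h7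
      | next q' =>
        have hs : (cmpC hn P.forward (2 * n * u + o) q s).after
            (cmpTr (cmpDir n P.forward (2 * n * u + o)) (.next q')) =
              cmpC hn P.forward (2 * n * u + o + 1) q' s := cmp_after hn P.forward _ q q' s
        rw [hs]
        refine ⟨rfl, ht, ?_⟩
        show Relation.ReflTransGen (P.Step x) ⟨0, q0, []⟩
          ⟨(2 * n * u + o + 1) / (2 * n) * n + min ((2 * n * u + o + 1) % (2 * n)) n, q', s⟩
        have d3 := cmp_div (n := n) u (o + 1) (by omega)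
        have d4 := cmp_mod (n := n) u (o + 1) (by omega)
        have e7 : min (o + 1) n = o + 1 := by omega
        rw [add_assoc, d3, d4, e7]
        exact h7
    · have hmv' : mv = .head q 0 (cmpDir n P.forward (2 * n * u + o)) :=
        (cmpN_wind hn P h4 ho _ q s.head? _ mv).1 hmv
      subst hmv'
      rw [cmp_after]
      refine ⟨rfl, ht, ?_⟩
      show Relation.ReflTransGen (P.Step x) ⟨0, q0, []⟩
        ⟨(2 * n * u + o + 1) / (2 * n) * n + min ((2 * n * u + o + 1) % (2 * n)) n, q, s⟩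
      have e6 : min o n = n := by omega
      rw [e6] at hr
      rcases Nat.lt_or_ge (o + 1) (2 * n) with h5 | h5
      · have d3 := cmp_div (n := n) u (o + 1) (by omega)
        have d4 := cmp_mod (n := n) u (o + 1) (by omega)
        have e7 : min (o + 1) n = n := by omega
        rw [add_assoc, d3, d4, e7]
        exact hr
      · have e8 : 2 * n * u + o + 1 = 2 * n * (u + 1) + 0 := by
          have : o + 1 = 2 * n := by omega
          rw [add_assoc, this]
          ring
        have d3 := cmp_div (n := n) (u + 1) 0 (by omega)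
        have d4 := cmp_mod (n := n) (u + 1) 0 (by omega)
        rw [e8, d3, d4, Nat.zero_min, Nat.add_zero, Nat.add_mul, Nat.one_mul]
        exact hr

private theorem cmp_accepts {n p w : ℕ} (hn : 1 ≤ n) (P : ST.NStackProg n p w) (x : Inp n) :
    (cmpN hn P).Accepts (2 * p * n) x ↔ P.Accepts x := by
  constructor
  · rintro ⟨h, q, d, ⟨rfl, hq⟩, hr, ht, hacc⟩
    obtain ⟨-, -, h2⟩ := cmp_bwd hn P x q hr
    refine ⟨q, _, hq, h2, ?_, hacc⟩
    show d.time / (2 * n) * n + min (d.time % (2 * n)) n = p * n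
    have e : d.time = 2 * n * p + 0 := by
      rw [ht]
      ring
    have d3 := cmp_div (n := n) p 0 (by omega)
    have d4 := cmp_mod (n := n) p 0 (by omega)
    rw [e, d3, d4, Nat.zero_min, Nat.add_zero]
  · rintro ⟨q, c, hq, hr, hp, hacc⟩
    have key : ∀ c, Relation.ReflTransGen (P.Step x) ⟨0, q, []⟩ c →
        Relation.ReflTransGen ((cmpN hn P).Step (2 * p * n) x) (cmpC hn P.forward 0 q [])
          (cmpC hn P.forward (2 * n * (c.pos / n) + c.pos % n) c.state c.stack) := by
      intro c hc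
      induction hc with
      | refl =>
        show Relation.ReflTransGen _ _ (cmpC hn P.forward (2 * n * (0 / n) + 0 % n) q [])
        rw [Nat.zero_div, Nat.zero_mod, Nat.mul_zero]
      | tail _ h1 ih => exact ih.trans (cmp_fwd hn P x h1)
    refine ⟨fun _ => cmpSt hn P.forward, q, _, ⟨rfl, hq⟩, key c hr, ?_, hacc⟩
    show 2 * n * (c.pos / n) + c.pos % n = 2 * p * n
    rw [hp, Nat.mul_div_cancel _ (by omega), Nat.mul_mod_left]
    ring

/-- simulation of the nondeterministic programs -/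
theorem exists_nhead {n p w : ℕ} (hn : 1 ≤ n) (P : ST.NStackProg n p w) :
    ∃ Q : NHeadProg n 1 w, ∀ x, Q.Accepts (2 * p * n) x ↔ P.Accepts x := by
  exact ⟨cmpN hn P, cmp_accepts hn P⟩

/-- simulation of the deterministic programs -/
theorem exists_head {n p w : ℕ} (hn : 1 ≤ n) (P : ST.StackProg n p w) :
    ∃ Q : HeadProg n 1 w, ∀ x b, Q.Outputs (2 * p * n) x b ↔ P.Outputs x b := by
  refine ⟨cmpD hn P, fun x b => ?_⟩
  rw [← toN_accepts, cmpD_toN, cmp_accepts, ST.toN_accepts]

theorem nondet_of_stack {n p w : ℕ} (hn : 1 ≤ n) {f : Inp n → Bool} (h : ST.StackNondet f p w) :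
    HeadNondet f 1 (2 * p * n) w := by
  obtain ⟨P, hP⟩ := h
  obtain ⟨Q, hQ⟩ := exists_nhead hn P
  exact ⟨Q, fun x => (hP x).trans (hQ x).symm⟩

theorem oneSided_of_stack {n p w : ℕ} (hn : 1 ≤ n) {f : Inp n → Bool}
    (h : ST.StackOneSided f p w) : HeadOneSided f 1 (2 * p * n) w := by
  obtain ⟨ρ, P, h1, h2⟩ := h
  choose Q hQ using fun c => exists_head hn (P c)
  refine ⟨ρ, Q, fun x hx => ?_, fun x hx c => (hQ c x false).2 (h2 x hx c)⟩
  have h3 := h1 x hx
  have h4 : Nat.card {c : Fin ρ → Bool // (Q c).Outputs (2 * p * n) x true} =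
      Nat.card {c : Fin ρ → Bool // (P c).Outputs x true} :=
    Nat.card_congr (Equiv.subtypeEquivRight fun c => hQ c x true)
  rw [h4]
  exact h3

theorem twoSided_of_stack {n p w : ℕ} (hn : 1 ≤ n) {f : Inp n → Bool}
    (h : ST.StackTwoSided f p w) : HeadTwoSided f 1 (2 * p * n) w := by
  obtain ⟨ρ, P, h1⟩ := h
  choose Q hQ using fun c => exists_head hn (P c)
  refine ⟨ρ, Q, fun x => ?_⟩
  have h4 : Nat.card {c : Fin ρ → Bool // (Q c).Outputs (2 * p * n) x (f x)} =
      Nat.card {c : Fin ρ → Bool // (P c).Outputs x (f x)} :=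
    Nat.card_congr (Equiv.subtypeEquivRight fun c => hQ c x (f x))
  rw [h4]
  exact h1 x

end Pool.Agent.HM
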