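import Mathlib
import Pool.Agent.Lib.MP_b573ec_lc_ST.Enc
import Pool.Agent.Lib.MP_b573ec_lc_HM.Core

/-!
# Inputs with empty margins

Block `i` of the encoding of a matrix `Y` holds the row `Y i`; the first `s` and the last `s` bits
of the block (margins) are zero.
-/

namespace Pool.Agent.HM

open Pool.Agent.LT (Inp)
open Pool.Agent.ST (langA langB encM mixIn)

/-- the bits of a matrix modulo `2`, after a margin of `s` bits -/
def bitsA {m N : ℕ} (s : ℕ) (Y : Fin m → Fin N → ZMod 2) : ℕ → ℕ → Bool := fun i t =>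
  if h : i < m ∧ s ≤ t ∧ t - s < N then decide (Y ⟨i, h.1⟩ ⟨t - s, h.2.2⟩ = 1) else false

/-- the input belonging to a matrix modulo `2` -/
def encA {m N : ℕ} (n g s : ℕ) (Y : Fin m → Fin N → ZMod 2) : Inp n := encM n g (bitsA s Y)

private theorem bitsA_apply {m N : ℕ} (s : ℕ) (Y : Fin m → Fin N → ZMod 2) (i : Fin m)
    (t : Fin N) : bitsA s Y i (t + s) = decide (Y i t = 1) := by
  simp [bitsA]

private theorem bitsA_out {m N : ℕ} (s : ℕ) (Y : Fin m → Fin N → ZMod 2) (i t : ℕ)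
    (h : t < s ∨ N + s ≤ t) : bitsA s Y i t = false := by
  unfold bitsA
  rw [dif_neg]
  rintro ⟨-, h1, h2⟩
  omega

private theorem zmod2_toNat (a : ZMod 2) : (((decide (a = 1)).toNat : ℕ) : ZMod 2) = a := by
  revert a; decide

private theorem sum_bitsA {m N : ℕ} (s : ℕ) (Y : Fin m → Fin N → ZMod 2) (t : Fin N) :
    (((∑ i ∈ Finset.range m, (bitsA s Y i (t + s)).toNat : ℕ)) : ZMod 2) = (∑ k, Y k) t := by
  rw [Finset.sum_range, Nat.cast_sum, Finset.sum_apply]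
  exact Finset.sum_congr rfl fun i _ => by rw [bitsA_apply, zmod2_toNat]

private theorem bitsA_update {m N : ℕ} (s : ℕ) (Y Y' : Fin m → Fin N → ZMod 2) (j : Fin m) :
    (fun i t => if i = (j : ℕ) then bitsA s Y' i t else bitsA s Y i t) =
      bitsA s (Function.update Y j (Y' j)) := by
  funext i t
  by_cases h : i < m ∧ s ≤ t ∧ t - s < N
  · by_cases hij : i = (j : ℕ)
    · subst hij
      simp [bitsA]
    · have : (⟨i, h.1⟩ : Fin m) ≠ j := fun e => hij (by rw [← e])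
      simp [bitsA, h, hij, Function.update_of_ne this]
  · simp [bitsA, h]

private theorem agreeI_encM {n g s : ℕ} (B B' : ℕ → ℕ → Bool) (i j : ℕ)
    (h : ∀ k t, t < (n - Nat.log 2 n) / 2 ^ g →
      ((k ≠ i ∧ k ≠ j) ∨ t < s ∨ (n - Nat.log 2 n) / 2 ^ g ≤ t + s) → B k t = B' k t) :
    AgreeI (Nat.log 2 n) ((n - Nat.log 2 n) / 2 ^ g) s i j (encM n g B) (encM n g B') := by
  intro c hi hj
  by_cases h1 : (c : ℕ) < Nat.log 2 n
  · unfold encM
    rw [if_pos h1, if_pos h1]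
  by_cases h2 : (c : ℕ) - Nat.log 2 n < 2 ^ g * ((n - Nat.log 2 n) / 2 ^ g)
  · have hb := ST.E1_pos h2
    have h0 : Nat.log 2 n ≤ (c : ℕ) := by omega
    rw [ST.E1_encM_blk n g _ c h0 h2, ST.E1_encM_blk n g _ c h0 h2]
    refine h _ _ (Nat.mod_lt _ hb) ?_
    by_contra hcon
    simp only [not_or, not_and_or, not_not, not_lt, not_le] at hcon
    obtain ⟨h3, h4, h5⟩ := hcon
    have h6 := Nat.div_add_mod ((c : ℕ) - Nat.log 2 n) ((n - Nat.log 2 n) / 2 ^ g)
    have key : ∀ q : ℕ, ((c : ℕ) - Nat.log 2 n) / ((n - Nat.log 2 n) / 2 ^ g) = q →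
        InI (Nat.log 2 n) ((n - Nat.log 2 n) / 2 ^ g) s q c := by
      intro q hq
      rw [hq, mul_comm] at h6
      unfold InI
      rw [add_mul, one_mul]
      omega
    rcases h3 with h3 | h3
    · exact hi (key i h3)
    · exact hj (key j h3)
  · unfold encM
    rw [if_neg h1, if_neg h2, if_neg h1, if_neg h2]

theorem langA_encA {n g s N : ℕ} (hg : g ≤ Nat.log 2 n)
    (hN : N + 2 * s ≤ (n - Nat.log 2 n) / 2 ^ g) (Y : Fin (2 ^ g) → Fin N → ZMod 2) :
    langA n (encA n g s Y) = true ↔ ∑ k, Y k ≠ 0 := by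
  rw [encA, ST.langA_encM hg]
  constructor
  · rintro ⟨t, ht, h1⟩ h0
    by_cases hst : s ≤ t ∧ t - s < N
    · have h2 := sum_bitsA s Y ⟨t - s, hst.2⟩
      simp only [Nat.sub_add_cancel hst.1] at h2
      rw [h0, Pi.zero_apply, ZMod.natCast_eq_zero_iff] at h2
      omega
    · rw [Finset.sum_eq_zero fun i _ => by rw [bitsA_out s Y i t (by omega)]; rfl] at h1
      omega
  · intro h0
    obtain ⟨t, ht⟩ := Function.ne_iff.mp h0
    refine ⟨t + s, by have := t.2; omega, ?_⟩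
    have h2 := sum_bitsA s Y t
    by_contra h3
    apply ht
    rw [← h2, Pi.zero_apply, ZMod.natCast_eq_zero_iff]
    omega

theorem encA_injective {n g s N : ℕ} (hg : g ≤ Nat.log 2 n)
    (hN : N + 2 * s ≤ (n - Nat.log 2 n) / 2 ^ g) :
    Function.Injective (encA n g s : (Fin (2 ^ g) → Fin N → ZMod 2) → Inp n) := by
  intro Y Y' h
  have h1 := ST.encM_inj hg _ _ h
  funext i t
  have h2 := h1 i i.2 (t + s) (by have := t.2; omega)
  rw [bitsA_apply, bitsA_apply] at h2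
  have h3 := congrArg (fun c : Bool => ((c.toNat : ℕ) : ZMod 2)) h2
  simpa only [zmod2_toNat] using h3

theorem encA_mix {n g s N : ℕ} (hg : g ≤ Nat.log 2 n)
    (hN : N + 2 * s ≤ (n - Nat.log 2 n) / 2 ^ g) (Y Y' : Fin (2 ^ g) → Fin N → ZMod 2)
    (j : Fin (2 ^ g)) : mixIn (Nat.log 2 n) ((n - Nat.log 2 n) / 2 ^ g) j (encA n g s Y)
      (encA n g s Y') = encA n g s (Function.update Y j (Y' j)) := by
  have _ := hN
  rw [encA, encA, ST.mixIn_encM hg _ _ _ j.2, bitsA_update]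
  rfl

theorem encA_agree {n g s N : ℕ} (hg : g ≤ Nat.log 2 n)
    (hN : N + 2 * s ≤ (n - Nat.log 2 n) / 2 ^ g) (Y Y' : Fin (2 ^ g) → Fin N → ZMod 2)
    (i j : Fin (2 ^ g)) (h : ∀ k, k ≠ i → k ≠ j → Y k = Y' k) :
    AgreeI (Nat.log 2 n) ((n - Nat.log 2 n) / 2 ^ g) s i j (encA n g s Y) (encA n g s Y') := by
  have _ := hg
  refine agreeI_encM _ _ _ _ ?_
  intro k t ht hk
  rcases hk with hk | hk
  · by_cases h1 : k < 2 ^ g ∧ s ≤ t ∧ t - s < N
    · have := h ⟨k, h1.1⟩ (fun e => hk.1 (by rw [← e])) (fun e => hk.2 (by rw [← e]))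
      simp only [bitsA, h1, and_self, dif_pos, this]
    · simp only [bitsA, h1, dif_neg, not_false_eq_true]
  · rw [bitsA_out s Y k t (by omega), bitsA_out s Y' k t (by omega)]

/-- the bits of a matrix modulo `3`, two bits for each entry, after a margin of `2 * s` bits -/
def bitsB {m N : ℕ} (s : ℕ) (Y : Fin m → Fin N → ZMod 3) : ℕ → ℕ → Bool := fun i t =>
  if h : i < m ∧ 2 * s ≤ t ∧ (t - 2 * s) / 2 < N then
    (if t % 2 = 0 then decide (Y ⟨i, h.1⟩ ⟨(t - 2 * s) / 2, h.2.2⟩ ≠ 0)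
      else decide (Y ⟨i, h.1⟩ ⟨(t - 2 * s) / 2, h.2.2⟩ = 2))
  else false

/-- the input belonging to a matrix modulo `3` -/
def encB {m N : ℕ} (n g s : ℕ) (Y : Fin m → Fin N → ZMod 3) : Inp n := encM n g (bitsB s Y)

private theorem bitsB_even {m N : ℕ} (s : ℕ) (Y : Fin m → Fin N → ZMod 3) (i : Fin m)
    (t : Fin N) : bitsB s Y i (2 * ((t : ℕ) + s)) = decide (Y i t ≠ 0) := by
  have h : (i : ℕ) < m ∧ 2 * s ≤ 2 * ((t : ℕ) + s) ∧ (2 * ((t : ℕ) + s) - 2 * s) / 2 < N :=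
    ⟨i.2, by omega, by have := t.2; omega⟩
  unfold bitsB
  rw [dif_pos h, if_pos (by omega)]
  have e : (⟨(2 * ((t : ℕ) + s) - 2 * s) / 2, h.2.2⟩ : Fin N) = t :=
    Fin.ext (by simp only; omega)
  rw [e]

private theorem bitsB_odd {m N : ℕ} (s : ℕ) (Y : Fin m → Fin N → ZMod 3) (i : Fin m)
    (t : Fin N) : bitsB s Y i (2 * ((t : ℕ) + s) + 1) = decide (Y i t = 2) := by
  have h : (i : ℕ) < m ∧ 2 * s ≤ 2 * ((t : ℕ) + s) + 1 ∧
      (2 * ((t : ℕ) + s) + 1 - 2 * s) / 2 < N := ⟨i.2, by omega, by have := t.2; omega⟩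
  unfold bitsB
  rw [dif_pos h, if_neg (by omega)]
  have e : (⟨(2 * ((t : ℕ) + s) + 1 - 2 * s) / 2, h.2.2⟩ : Fin N) = t :=
    Fin.ext (by simp only; omega)
  rw [e]

private theorem bitsB_out {m N : ℕ} (s : ℕ) (Y : Fin m → Fin N → ZMod 3) (i t : ℕ)
    (h : t < 2 * s ∨ 2 * N + 2 * s ≤ t) : bitsB s Y i t = false := by
  unfold bitsB
  rw [dif_neg]
  rintro ⟨-, h1, h2⟩
  omega

private theorem bitsB_val (a : ZMod 3) :
    (decide (a ≠ 0)).toNat + (decide (a = 2)).toNat = a.val := by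
  revert a
  decide

private theorem bitsB_sep (a a' : ZMod 3) (h0 : decide (a ≠ 0) = decide (a' ≠ 0))
    (h2 : decide (a = 2) = decide (a' = 2)) : a = a' := by
  revert a a'
  decide

private theorem bitsB_update {m N : ℕ} (s : ℕ) (Y Y' : Fin m → Fin N → ZMod 3) (j : Fin m) :
    (fun i t => if i = (j : ℕ) then bitsB s Y' i t else bitsB s Y i t) =
      bitsB s (Function.update Y j (Y' j)) := by
  funext i t
  by_cases h : i < m ∧ 2 * s ≤ t ∧ (t - 2 * s) / 2 < N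
  · by_cases hij : i = (j : ℕ)
    · subst hij
      simp [bitsB]
    · have : (⟨i, h.1⟩ : Fin m) ≠ j := fun e => hij (by rw [← e])
      simp [bitsB, h, hij, Function.update_of_ne this]
  · simp [bitsB, h]

theorem langB_encB {n g s N : ℕ} (hg : g ≤ Nat.log 2 n)
    (hN : 2 * N + 4 * s ≤ (n - Nat.log 2 n) / 2 ^ g) (Y : Fin (2 ^ g) → Fin N → ZMod 3) :
    langB n (encB n g s Y) = true ↔ ∃ t, ∑ k, Y k t = 2 := by
  have key : ∀ t : Fin N,
      ((∑ i ∈ Finset.range (2 ^ g), ((bitsB s Y i (2 * ((t : ℕ) + s))).toNat +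
        (bitsB s Y i (2 * ((t : ℕ) + s) + 1)).toNat)) % 3 = 2 ↔ ∑ k, Y k t = 2) := by
    intro t
    rw [Finset.sum_range]
    have e : ∀ i : Fin (2 ^ g), ((bitsB s Y i (2 * ((t : ℕ) + s))).toNat +
        (bitsB s Y i (2 * ((t : ℕ) + s) + 1)).toNat) = (Y i t).val := by
      intro i
      rw [bitsB_even, bitsB_odd, bitsB_val]
    rw [Finset.sum_congr rfl (fun i _ => e i)]
    have h1 : ((∑ i, (Y i t).val : ℕ) : ZMod 3) = ∑ k, Y k t := by
      rw [Nat.cast_sum]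
      exact Finset.sum_congr rfl (fun i _ => ZMod.natCast_zmod_val _)
    rw [← h1, ← ZMod.val_natCast]
    constructor
    · intro h
      apply ZMod.val_injective 3
      rw [h]
      rfl
    · intro h
      rw [h]
      rfl
  rw [encB, ST.langB_encM hg]
  constructor
  · rintro ⟨t, ht, h⟩
    by_cases hst : s ≤ t ∧ t - s < N
    · refine ⟨⟨t - s, hst.2⟩, (key ⟨t - s, hst.2⟩).1 ?_⟩
      simpa only [Nat.sub_add_cancel hst.1] using h
    · rw [Finset.sum_eq_zero fun i _ => by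
        rw [bitsB_out s Y i (2 * t) (by omega), bitsB_out s Y i (2 * t + 1) (by omega)]
        rfl] at h
      omega
  · rintro ⟨t, h⟩
    exact ⟨t + s, by have := t.2; omega, (key t).2 h⟩

theorem encB_injective {n g s N : ℕ} (hg : g ≤ Nat.log 2 n)
    (hN : 2 * N + 4 * s ≤ (n - Nat.log 2 n) / 2 ^ g) :
    Function.Injective (encB n g s : (Fin (2 ^ g) → Fin N → ZMod 3) → Inp n) := by
  intro Y Y' h
  have h1 := ST.encM_inj hg _ _ h
  funext i t
  have ht := t.2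
  apply bitsB_sep
  · have := h1 i i.2 (2 * ((t : ℕ) + s)) (by omega)
    rwa [bitsB_even, bitsB_even] at this
  · have := h1 i i.2 (2 * ((t : ℕ) + s) + 1) (by omega)
    rwa [bitsB_odd, bitsB_odd] at this

theorem encB_mix {n g s N : ℕ} (hg : g ≤ Nat.log 2 n)
    (hN : 2 * N + 4 * s ≤ (n - Nat.log 2 n) / 2 ^ g) (Y Y' : Fin (2 ^ g) → Fin N → ZMod 3)
    (j : Fin (2 ^ g)) : mixIn (Nat.log 2 n) ((n - Nat.log 2 n) / 2 ^ g) j (encB n g s Y)
      (encB n g s Y') = encB n g s (Function.update Y j (Y' j)) := by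
  have _ := hN
  rw [encB, encB, ST.mixIn_encM hg _ _ _ j.2, bitsB_update]
  rfl

theorem encB_agree {n g s N : ℕ} (hg : g ≤ Nat.log 2 n)
    (hN : 2 * N + 4 * s ≤ (n - Nat.log 2 n) / 2 ^ g) (Y Y' : Fin (2 ^ g) → Fin N → ZMod 3)
    (i j : Fin (2 ^ g)) (h : ∀ k, k ≠ i → k ≠ j → Y k = Y' k) :
    AgreeI (Nat.log 2 n) ((n - Nat.log 2 n) / 2 ^ g) (2 * s) i j (encB n g s Y)
      (encB n g s Y') := by
  have _ := hg
  refine agreeI_encM _ _ _ _ ?_
  intro k t ht hk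
  rcases hk with hk | hk
  · by_cases h1 : k < 2 ^ g ∧ 2 * s ≤ t ∧ (t - 2 * s) / 2 < N
    · have := h ⟨k, h1.1⟩ (fun e => hk.1 (by rw [← e])) (fun e => hk.2 (by rw [← e]))
      simp only [bitsB, h1, and_self, dif_pos, this]
    · simp only [bitsB, h1, dif_neg, not_false_eq_true]
  · rw [bitsB_out s Y k t (by omega), bitsB_out s Y' k t (by omega)]

end Pool.Agent.HM
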