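import Mathlib

/-!
# The parameters
-/

namespace Pool.Agent.HM

/-- a power of `2` between `q` and `2 * q` -/
private theorem numbers_pow (q : ℕ) (hq : 1 ≤ q) : ∃ r, q ≤ 2 ^ r ∧ 2 ^ r ≤ 2 * q := by
  refine ⟨Nat.log 2 q + 1, ?_, ?_⟩
  · exact (Nat.lt_pow_succ_log_self one_lt_two q).le
  · rw [pow_succ, mul_comm]
    exact Nat.mul_le_mul_left _ (Nat.pow_log_le_self 2 (by omega))

/-- the main inequality -/
private theorem numbers_main {k p n s T m' : ℕ} (hp : 1 ≤ p)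
    (hns : n < 64 * ((m' + 1) * s)) (hT : T ≤ p * n) (hT4 : T + 2 * (2 * s) ≤ 2 * (p * n))
    (hm1 : 2 ^ 17 * (k ^ 2 * p) ≤ m' + 1) (hm' : m' + 1 ≤ 2 * m') :
    88 * (3 * k ^ 2 * (2 ^ 14 * p) * (T + 2 * (2 * s)) + (m' + 1) * T) <
      2 ^ 14 * p * (2 * s) * ((m' + 1) * m') := by
  obtain ⟨κ, hκ⟩ : ∃ κ, κ = 2 ^ 14 * p := ⟨_, rfl⟩
  have hκ1 : 1 ≤ κ := by omega
  -- the left side
  have h1 : 2 ^ 17 * (3 * k ^ 2 * (2 ^ 14 * p) * (T + 2 * (2 * s))) ≤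
      6 * (κ * ((m' + 1) * n)) := by
    calc 2 ^ 17 * (3 * k ^ 2 * (2 ^ 14 * p) * (T + 2 * (2 * s)))
        ≤ 2 ^ 17 * (3 * k ^ 2 * (2 ^ 14 * p) * (2 * (p * n))) :=
          Nat.mul_le_mul_left _ (Nat.mul_le_mul_left _ hT4)
      _ = 6 * ((2 ^ 14 * p) * ((2 ^ 17 * (k ^ 2 * p)) * n)) := by ring
      _ ≤ 6 * ((2 ^ 14 * p) * ((m' + 1) * n)) :=
          Nat.mul_le_mul_left _ (Nat.mul_le_mul_left _ (Nat.mul_le_mul_right _ hm1))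
      _ = 6 * (κ * ((m' + 1) * n)) := by rw [hκ]
  have h2 : 2 ^ 17 * ((m' + 1) * T) ≤ 8 * (κ * ((m' + 1) * n)) := by
    calc 2 ^ 17 * ((m' + 1) * T) ≤ 2 ^ 17 * ((m' + 1) * (p * n)) :=
          Nat.mul_le_mul_left _ (Nat.mul_le_mul_left _ hT)
      _ = 8 * ((2 ^ 14 * p) * ((m' + 1) * n)) := by ring
      _ = 8 * (κ * ((m' + 1) * n)) := by rw [hκ]
  -- the right side
  have h3 : κ * ((m' + 1) * n) < 64 * (κ * (2 * s) * ((m' + 1) * m')) := by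
    have h4 : κ * ((m' + 1) * n) < κ * ((m' + 1) * (64 * ((m' + 1) * s))) :=
      Nat.mul_lt_mul_of_pos_left (Nat.mul_lt_mul_of_pos_left hns (Nat.succ_pos _)) hκ1
    refine h4.trans_le ?_
    calc κ * ((m' + 1) * (64 * ((m' + 1) * s)))
        = 64 * (κ * s * (m' + 1)) * (m' + 1) := by ring
      _ ≤ 64 * (κ * s * (m' + 1)) * (2 * m') := Nat.mul_le_mul_left _ hm'
      _ = 64 * (κ * (2 * s) * ((m' + 1) * m')) := by ring
  rw [← hκ] at h1 ⊢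
  omega

/-- `m = 2 ^ g` blocks of length `b = (n - log2 n) / m`, at most `κ` changes of the labels for a
pair, margins of length `2 * s`, and `N` columns -/
theorem numbers (D E : ℕ) : ∃ C : ℕ, ∀ n k p T S : ℕ, 1 ≤ k → 1 ≤ p → 1 ≤ S → n ≤ 2 ^ S →
    T ≤ p * n → 1 ≤ n → C * k ^ 3 * p ^ 2 * S ≤ n → ∃ g κ s N : ℕ, 1 ≤ κ ∧ 1 ≤ s ∧
      g ≤ Nat.log 2 n ∧ 2 ≤ 2 ^ g ∧ 2 * N + 4 * s ≤ (n - Nat.log 2 n) / 2 ^ g ∧ T ≤ 2 ^ (2 * S) ∧
      88 * (3 * k ^ 2 * κ * (T + 2 * (2 * s)) + 2 ^ g * T) <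
        κ * (2 * s) * (2 ^ g * (2 ^ g - 1)) ∧
      E * (D * k * κ * S + S + g + 1) ≤ N := by
  obtain ⟨E', hE'⟩ : ∃ x, x = E * (D * 2 ^ 14 + 3) := ⟨_, rfl⟩
  obtain ⟨C3, hC3⟩ : ∃ x, x = 16 + 4 * E' := ⟨_, rfl⟩
  refine ⟨2 ^ 19 * C3, ?_⟩
  intro n k p T S hk hp hS hn hT hn1 hC
  obtain ⟨r, hr1, hr2⟩ := numbers_pow (k ^ 2 * p) (Nat.mul_pos (pow_pos hk 2) hp)
  obtain ⟨m, hm⟩ : ∃ m, m = 2 ^ (17 + r) := ⟨_, rfl⟩
  have hm' : m = 2 ^ 17 * 2 ^ r := by rw [hm, pow_add]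
  have hm1 : 2 ^ 17 * (k ^ 2 * p) ≤ m := by rw [hm']; exact Nat.mul_le_mul_left _ hr1
  have hm2 : m ≤ 2 ^ 18 * (k ^ 2 * p) := by
    rw [hm']
    calc 2 ^ 17 * 2 ^ r ≤ 2 ^ 17 * (2 * (k ^ 2 * p)) := Nat.mul_le_mul_left _ hr2
      _ = 2 ^ 18 * (k ^ 2 * p) := by ring
  have hq : 1 ≤ k ^ 2 * p := Nat.mul_pos (pow_pos hk 2) hp
  have hmpos : 2 ^ 17 ≤ m := le_trans (by omega) hm1
  have hC3' : 16 ≤ C3 := by omega
  -- the product `k * p * S`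
  have hkpS : 1 ≤ k * p * S := Nat.mul_pos (Nat.mul_pos hk hp) hS
  have hC' : 2 ^ 19 * C3 * (k ^ 2 * p) * (k * p * S) ≤ n := by
    calc 2 ^ 19 * C3 * (k ^ 2 * p) * (k * p * S) = 2 ^ 19 * C3 * k ^ 3 * p ^ 2 * S := by ring
      _ ≤ n := hC
  -- consequences
  have hmn : m ≤ n := by
    calc m ≤ 2 ^ 18 * (k ^ 2 * p) := hm2
      _ ≤ 2 ^ 19 * C3 * (k ^ 2 * p) := Nat.mul_le_mul_right _ (by omega)
      _ = 2 ^ 19 * C3 * (k ^ 2 * p) * 1 := by rw [mul_one]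
      _ ≤ 2 ^ 19 * C3 * (k ^ 2 * p) * (k * p * S) := Nat.mul_le_mul_left _ hkpS
      _ ≤ n := hC'
  have hSn : 2 * S ≤ n := by
    have h1 : S ≤ k * p * S := Nat.le_mul_of_pos_left _ (Nat.mul_pos hk hp)
    have h2 : 2 ≤ 2 ^ 19 * C3 * (k ^ 2 * p) := by
      calc 2 ≤ 2 ^ 19 * C3 := by omega
        _ ≤ 2 ^ 19 * C3 * (k ^ 2 * p) := Nat.le_mul_of_pos_right _ hq
    exact (Nat.mul_le_mul h2 h1).trans hC'
  have hpn : p ≤ n := by
    have h1 : p ≤ k ^ 2 * p := Nat.le_mul_of_pos_left _ (pow_pos hk 2)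
    have h2 : k ^ 2 * p ≤ m := le_trans (Nat.le_mul_of_pos_left _ (by norm_num)) hm1
    omega
  obtain ⟨ν, hν⟩ : ∃ ν, ν = Nat.log 2 n := ⟨_, rfl⟩
  have hνS : ν ≤ S := by
    rw [hν]
    calc Nat.log 2 n ≤ Nat.log 2 (2 ^ S) := Nat.log_mono_right hn
      _ = S := Nat.log_pow one_lt_two S
  have hg : 17 + r ≤ ν := by
    rw [hν]
    exact Nat.le_log_of_pow_le one_lt_two (by rw [← hm]; exact hmn)
  obtain ⟨b, hb⟩ : ∃ b, b = (n - ν) / m := ⟨_, rfl⟩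
  have hb1 : m * b ≤ n - ν := by rw [hb]; exact Nat.mul_div_le _ _
  have hb2 : n - ν < m * (b + 1) := by
    rw [hb]
    have h1 := Nat.lt_mul_div_succ (n - ν) (show 0 < m by omega)
    exact h1
  have hb3 : n < 2 * (m * (b + 1)) := by omega
  -- lower bound for `b`
  have hb4 : C3 * (k * p * S) ≤ b := by
    have h1 : 2 ^ 19 * (k ^ 2 * p) * (C3 * (k * p * S)) < 2 ^ 19 * (k ^ 2 * p) * (b + 1) := by
      calc 2 ^ 19 * (k ^ 2 * p) * (C3 * (k * p * S))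
          = 2 ^ 19 * C3 * (k ^ 2 * p) * (k * p * S) := by ring
        _ ≤ n := hC'
        _ < 2 * (m * (b + 1)) := hb3
        _ ≤ 2 * (2 ^ 18 * (k ^ 2 * p) * (b + 1)) :=
            Nat.mul_le_mul_left _ (Nat.mul_le_mul_right _ hm2)
        _ = 2 ^ 19 * (k ^ 2 * p) * (b + 1) := by ring
    have h2 := lt_of_mul_lt_mul_left h1 (Nat.zero_le _)
    omega
  have hb5 : 16 ≤ b := by
    calc 16 ≤ C3 := hC3'
      _ = C3 * 1 := by rw [mul_one]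
      _ ≤ C3 * (k * p * S) := Nat.mul_le_mul_left _ hkpS
      _ ≤ b := hb4
  obtain ⟨s, hs⟩ : ∃ s, s = b / 16 := ⟨_, rfl⟩
  have hs1 : 1 ≤ s := by omega
  have hs2 : 16 * s ≤ b := by omega
  have hs3 : b + 1 ≤ 32 * s := by omega
  have hns : n < 64 * (m * s) := by
    calc n < 2 * (m * (b + 1)) := hb3
      _ ≤ 2 * (m * (32 * s)) := Nat.mul_le_mul_left _ (Nat.mul_le_mul_left _ hs3)
      _ = 64 * (m * s) := by ring
  have hbn : b ≤ n := by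
    calc b = 1 * b := by rw [one_mul]
      _ ≤ m * b := Nat.mul_le_mul_right _ (by omega)
      _ ≤ n - ν := hb1
      _ ≤ n := Nat.sub_le _ _
  have hpn' : n ≤ p * n := Nat.le_mul_of_pos_left _ hp
  refine ⟨17 + r, 2 ^ 14 * p, s, (b - 4 * s) / 2, ?_, hs1, by rw [← hν]; exact hg, ?_, ?_, ?_, ?_,
    ?_⟩
  · exact Nat.mul_pos (by norm_num) hp
  · rw [← hm]
    omega
  · rw [← hm, ← hν, ← hb]
    omega
  · calc T ≤ p * n := hT
      _ ≤ n * n := Nat.mul_le_mul_right _ hpn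
      _ ≤ 2 ^ S * 2 ^ S := Nat.mul_le_mul hn hn
      _ = 2 ^ (2 * S) := by rw [two_mul, pow_add]
  · rw [← hm]
    have hT4 : T + 2 * (2 * s) ≤ 2 * (p * n) := by omega
    obtain ⟨m', rfl⟩ : ∃ m', m = m' + 1 := ⟨m - 1, by omega⟩
    rw [Nat.add_sub_cancel]
    have hm'' : m' + 1 ≤ 2 * m' := by omega
    exact numbers_main hp hns hT hT4 hm1 hm''
  · have h1 : E * (D * k * (2 ^ 14 * p) * S + S + (17 + r) + 1) ≤ E' * (k * p * S) := by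
      have h2 : D * k * (2 ^ 14 * p) * S + S + (17 + r) + 1 ≤ (D * 2 ^ 14 + 3) * (k * p * S) := by
        have h3 : S ≤ k * p * S := Nat.le_mul_of_pos_left _ (Nat.mul_pos hk hp)
        calc D * k * (2 ^ 14 * p) * S + S + (17 + r) + 1
            ≤ D * k * (2 ^ 14 * p) * S + k * p * S + k * p * S + k * p * S := by omega
          _ = (D * 2 ^ 14 + 3) * (k * p * S) := by ring
      calc E * (D * k * (2 ^ 14 * p) * S + S + (17 + r) + 1)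
          ≤ E * ((D * 2 ^ 14 + 3) * (k * p * S)) := Nat.mul_le_mul_left _ h2
        _ = E' * (k * p * S) := by rw [hE']; ring
    refine h1.trans ?_
    have h4 : 16 * (k * p * S) + 4 * (E' * (k * p * S)) ≤ b := by
      have h5 : C3 * (k * p * S) = 16 * (k * p * S) + 4 * (E' * (k * p * S)) := by
        rw [hC3]
        ring
      rw [← h5]
      exact hb4
    omega

end Pool.Agent.HM
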