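import Mathlib
import Pool.Agent.Lib.MP_b573ec_lc_ST.Edges
import Pool.Agent.Lib.MP_b573ec_lc_HM.Cuts
import Pool.Agent.Lib.MP_b573ec_lc_HM.Hist

/-!
# Bad pairs of blocks
-/

namespace Pool.Agent.HM

open Pool.Agent.ST (Lab)

/-- heads in the blocks `i` and `j` at the times `t` and `t'` -/
def Both {n k : ℕ} (T L b : ℕ) (π : ℕ → Fin k → Fin n) (c i j t t' : ℕ) : Prop :=
  t < T ∧ t' < T ∧ (∃ r, InI L b c i (π t r)) ∧ ∃ r, InI L b c j (π t' r)

/-- the changes of a history are in a finite set -/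
private theorem Bad_chg_le {α : Type*} (ℓ : ℕ → α) (T : ℕ) (F : Finset ℕ)
    (h : ∀ t < T, ℓ (t + 1) ≠ ℓ t → t ∈ F) : chg ℓ T ≤ F.card := by
  classical
  unfold chg
  apply Finset.card_le_card
  intro t ht
  rw [Finset.mem_filter, Finset.mem_range] at ht
  exact h t ht.1 ht.2

/-- the set of the crossings of a block -/
private theorem Bad_crs {n k : ℕ} (T L b : ℕ) (π : ℕ → Fin k → Fin n) (c i : ℕ) :
    ∃ F : Finset ℕ, F.card = crs T L b π c i ∧ ∀ t, t ∈ F ↔
      (t < T ∧ ∃ r, ¬ (InI L b c i (π t r) ↔ InI L b c i (π (t + 1) r))) := by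
  classical
  refine ⟨_, rfl, fun t => ?_⟩
  rw [Finset.mem_filter, Finset.mem_range]

/-- without a crossing a block stays visited or not visited -/
private theorem Bad_stay {n k : ℕ} {L b c i t : ℕ} {π : ℕ → Fin k → Fin n}
    (h : ¬ ((∃ r, InI L b c i (π (t + 1) r)) ↔ ∃ r, InI L b c i (π t r))) :
    ∃ r, ¬ (InI L b c i (π t r) ↔ InI L b c i (π (t + 1) r)) := by
  by_contra hcon
  push Not at hcon
  exact h ⟨fun ⟨r, hr⟩ => ⟨r, (hcon r).2 hr⟩, fun ⟨r, hr⟩ => ⟨r, (hcon r).1 hr⟩⟩

/-- the block of a cell is unique -/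
private theorem Bad_uniq {L b c i i' e : ℕ} (h : InI L b c i e) (h' : InI L b c i' e) :
    i = i' := by
  obtain ⟨h1, h2⟩ := h
  obtain ⟨h3, h4⟩ := h'
  rcases lt_trichotomy i i' with hlt | heq | hlt
  · have e : (i + 1) * b ≤ i' * b := Nat.mul_le_mul_right b hlt
    omega
  · exact heq
  · have e : (i' + 1) * b ≤ i * b := Nat.mul_le_mul_right b hlt
    omega

/-- the pairs of blocks which are visited together or connected by an element of `l` are few -/
theorem bad_pairs {n k : ℕ} (T L b m : ℕ) (π : ℕ → Fin k → Fin n) (hπ : Walk T π) (c : ℕ)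
    (hc : 1 ≤ c) (l : List (ℕ × ℕ)) (h1 : ∀ x ∈ l, x.1 ≤ x.2)
    (h2 : ∀ x ∈ l, ∀ y ∈ l, ¬ (x.1 < y.1 ∧ y.1 < x.2 ∧ x.2 < y.2)) :
    {ij : Fin m × Fin m | ij.1 < ij.2 ∧ ∃ t t', (t = t' ∨ (t, t') ∈ l) ∧
      (Both T L b π c ij.1 ij.2 t t' ∨ Both T L b π c ij.2 ij.1 t t')}.ncard ≤
      3 * k ^ 2 * (∑ i : Fin m, crs T L b π c i + 2) := by
  classical
  have _ := hπ
  have _ := hc
  let S : ℕ → Finset (Fin m) := fun t => Finset.univ.filter fun i =>
    t < T ∧ ∃ r, InI L b c i (π t r)
  have hS : ∀ t i, i ∈ S t ↔ t < T ∧ ∃ r, InI L b c i (π t r) := by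
    intro t i
    simp only [S, Finset.mem_filter, Finset.mem_univ, true_and]
  have hScard : ∀ t, (S t).card ≤ k := by
    intro t
    have := Finset.card_le_card_of_forall_subsingleton (s := S t)
      (t := (Finset.univ : Finset (Fin k)))
      (fun (i : Fin m) (r : Fin k) => InI L b c i (π t r)) ?_ ?_
    · simpa using this
    · intro i hi
      obtain ⟨-, r, hr⟩ := (hS t i).1 hi
      exact ⟨r, Finset.mem_univ _, hr⟩
    · intro r _ i hi i' hi'
      exact Fin.ext (Bad_uniq hi.2 hi'.2)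
  set o : ℕ → ℕ := chg S with ho
  have hmono : Monotone o := chg_mono S
  have hlt : ∀ t t', o t < o t' → t < t' := by
    intro t t' h
    by_contra hcon
    exact absurd (hmono (not_lt.1 hcon)) (not_le.2 h)
  have hoT : o T ≤ ∑ i : Fin m, crs T L b π c i + 1 := by
    choose F hF1 hF2 using fun i : Fin m => Bad_crs T L b π c i
    have h3 : o T ≤ ((Finset.univ.biUnion F) ∪ {T - 1}).card := by
      apply Bad_chg_le
      intro t ht hne
      rw [Finset.mem_union]
      by_cases ht1 : t + 1 < T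
      · left
        rw [Finset.mem_biUnion]
        by_contra hcon
        apply hne
        ext i
        rw [hS, hS]
        have key : (∃ r, InI L b c i (π (t + 1) r)) ↔ ∃ r, InI L b c i (π t r) := by
          by_contra hk
          exact hcon ⟨i, Finset.mem_univ _, (hF2 i t).2 ⟨ht, Bad_stay hk⟩⟩
        rw [key]
        exact ⟨fun g => ⟨ht, g.2⟩, fun g => ⟨ht1, g.2⟩⟩
      · right
        rw [Finset.mem_singleton]
        omega
    refine h3.trans ((Finset.card_union_le _ _).trans ?_)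
    rw [Finset.card_singleton]
    refine Nat.add_le_add_right ?_ 1
    refine Finset.card_biUnion_le.trans ?_
    exact le_of_eq (Finset.sum_congr rfl fun i _ => hF1 i)
  set M : ℕ := o T + 1 with hMdef
  -- the blocks of a phase
  let B : ℕ → Finset (Fin m) := fun a => if h : ∃ t, o t = a then S (Classical.choose h) else ∅
  have hB : ∀ t, B (o t) = S t := by
    intro t
    have hex : ∃ t', o t' = o t := ⟨t, rfl⟩
    simp only [B, dif_pos hex]
    exact chg_eq (Classical.choose_spec hex)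
  have hBcard : ∀ a, (B a).card ≤ k := by
    intro a
    simp only [B]
    split_ifs with h
    · exact hScard _
    · simp
  set E : Finset (ℕ × ℕ) := (l.toFinset.filter fun x => o x.1 < o x.2 ∧ x.2 < T).image
    fun x => (o x.1, o x.2) with hE
  have hEcard : E.card ≤ 2 * M := by
    apply Pool.Agent.ST.noncross_card
    · intro y hy
      obtain ⟨x, hx, rfl⟩ := Finset.mem_image.mp hy
      obtain ⟨hxl, hlt1, hx2⟩ := Finset.mem_filter.mp hx
      exact ⟨hlt1, Nat.lt_succ_of_le (hmono hx2.le)⟩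
    · intro y hy y' hy'
      obtain ⟨x, hx, rfl⟩ := Finset.mem_image.mp hy
      obtain ⟨x', hx', rfl⟩ := Finset.mem_image.mp hy'
      obtain ⟨hxl, -, -⟩ := Finset.mem_filter.mp hx
      obtain ⟨hxl', -, -⟩ := Finset.mem_filter.mp hx'
      rintro ⟨c1, c2, c3⟩
      exact h2 x (List.mem_toFinset.mp hxl) x' (List.mem_toFinset.mp hxl')
        ⟨hlt _ _ c1, hlt _ _ c2, hlt _ _ c3⟩
  set D : Finset (ℕ × ℕ) := (Finset.range M).image fun a => (a, a) with hD
  have hDcard : D.card ≤ M := by
    refine Finset.card_image_le.trans ?_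
    rw [Finset.card_range]
  set G : Finset (Fin m × Fin m) := (E ∪ D).biUnion fun p =>
    (B p.1 ×ˢ B p.2).image fun q => (min q.1 q.2, max q.1 q.2) with hG
  have hGcard : G.card ≤ 3 * k ^ 2 * M := by
    refine (Finset.card_biUnion_le_card_mul _ _ (k * k) ?_).trans ?_
    · intro p _
      refine Finset.card_image_le.trans ?_
      rw [Finset.card_product]
      exact Nat.mul_le_mul (hBcard _) (hBcard _)
    · calc (E ∪ D).card * (k * k) ≤ (2 * M + M) * (k * k) :=
            Nat.mul_le_mul_right _ ((Finset.card_union_le _ _).trans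
              (Nat.add_le_add hEcard hDcard))
        _ = 3 * k ^ 2 * M := by ring
  have hpair : ∀ (t t' : ℕ) (i j : Fin m), (t = t' ∨ (t, t') ∈ l) →
      Both T L b π c i j t t' → (min i j, max i j) ∈ G := by
    intro t t' i j htt hb
    obtain ⟨ht, ht', hi, hj⟩ := hb
    rw [hG, Finset.mem_biUnion]
    refine ⟨(o t, o t'), ?_, ?_⟩
    · rw [Finset.mem_union]
      have hle : t ≤ t' := by
        rcases htt with h | h
        · exact h.le
        · exact h1 _ h
      rcases (hmono hle).lt_or_eq with h | h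
      · left
        rcases htt with he | he
        · rw [he] at h
          exact absurd h (lt_irrefl _)
        · rw [hE, Finset.mem_image]
          exact ⟨(t, t'), Finset.mem_filter.mpr ⟨List.mem_toFinset.mpr he, h, ht'⟩, rfl⟩
      · right
        rw [hD, Finset.mem_image]
        exact ⟨o t, Finset.mem_range.2 (Nat.lt_succ_of_le (hmono ht.le)), by rw [h]⟩
    · rw [Finset.mem_image]
      refine ⟨(i, j), ?_, rfl⟩
      rw [Finset.mem_product]
      dsimp only
      rw [hB, hB]
      exact ⟨(hS _ _).2 ⟨ht, hi⟩, (hS _ _).2 ⟨ht', hj⟩⟩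
  have hsub : {ij : Fin m × Fin m | ij.1 < ij.2 ∧ ∃ t t', (t = t' ∨ (t, t') ∈ l) ∧
      (Both T L b π c ij.1 ij.2 t t' ∨ Both T L b π c ij.2 ij.1 t t')} ⊆ (G : Set _) := by
    rintro ⟨i, j⟩ ⟨hij, t, t', htt, hb⟩
    dsimp only at hij hb
    rw [Finset.mem_coe]
    rcases hb with hb | hb
    · have := hpair t t' i j htt hb
      rwa [min_eq_left hij.le, max_eq_right hij.le] at this
    · have := hpair t t' j i htt hb
      rwa [min_eq_right hij.le, max_eq_left hij.le] at this
  calc _ ≤ ((G : Finset (Fin m × Fin m)) : Set (Fin m × Fin m)).ncard :=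
        Set.ncard_le_ncard hsub (Finset.finite_toSet _)
    _ = G.card := Set.ncard_coe_finset _
    _ ≤ 3 * k ^ 2 * M := hGcard
    _ ≤ 3 * k ^ 2 * (∑ i : Fin m, crs T L b π c i + 2) := by
        apply Nat.mul_le_mul_left
        omega

/-- the history of the labels of the heads for a pair of blocks which is not visited together -/
theorem exists_hist {n k : ℕ} (T L b : ℕ) (π : ℕ → Fin k → Fin n) (c i j : ℕ)
    (h : ∀ t, ¬ Both T L b π c i j t t) : ∃ ℓ : ℕ → Lab,
      (∀ t < T, RL k (InI L b c i) (InI L b c j) ℓ t (π t)) ∧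
      Hist T (crs T L b π c i + crs T L b π c j + 1) ℓ := by
  classical
  let ℓ : ℕ → Lab := fun t => if t < T then
    (if ∃ r, InI L b c i (π t r) then .a else if ∃ r, InI L b c j (π t r) then .b else .c)
    else .c
  refine ⟨ℓ, ?_, ?_, ?_⟩
  · intro t ht
    have hb : ¬ ((∃ r, InI L b c i (π t r)) ∧ ∃ r, InI L b c j (π t r)) :=
      fun hh => h t ⟨ht, ht, hh.1, hh.2⟩
    unfold RL
    simp only [ℓ, if_pos ht]
    by_cases hA : ∃ r, InI L b c i (π t r)
    · rw [if_pos hA]
      exact ⟨hA, fun r hr => hb ⟨hA, r, hr⟩⟩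
    · rw [if_neg hA]
      by_cases hB : ∃ r, InI L b c j (π t r)
      · rw [if_pos hB]
        exact ⟨hB, fun r hr => hA ⟨r, hr⟩⟩
      · rw [if_neg hB]
        exact ⟨fun r hr => hA ⟨r, hr⟩, fun r hr => hB ⟨r, hr⟩⟩
  · intro t ht
    simp only [ℓ, if_neg (not_lt.2 ht)]
  · obtain ⟨F, hF1, hF2⟩ := Bad_crs T L b π c i
    obtain ⟨F', hF1', hF2'⟩ := Bad_crs T L b π c j
    have h3 : chg ℓ T ≤ (F ∪ F' ∪ {T - 1}).card := by
      apply Bad_chg_le
      intro t ht hne
      rw [Finset.mem_union, Finset.mem_union]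
      by_cases ht1 : t + 1 < T
      · left
        by_contra hcon
        rw [not_or] at hcon
        apply hne
        have k1 : (∃ r, InI L b c i (π (t + 1) r)) ↔ ∃ r, InI L b c i (π t r) := by
          by_contra hk
          exact hcon.1 ((hF2 t).2 ⟨ht, Bad_stay hk⟩)
        have k2 : (∃ r, InI L b c j (π (t + 1) r)) ↔ ∃ r, InI L b c j (π t r) := by
          by_contra hk
          exact hcon.2 ((hF2' t).2 ⟨ht, Bad_stay hk⟩)
        simp only [ℓ, if_pos ht, if_pos ht1, k1, k2]
      · right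
        rw [Finset.mem_singleton]
        omega
    refine h3.trans ((Finset.card_union_le _ _).trans ?_)
    rw [Finset.card_singleton]
    refine Nat.add_le_add_right ((Finset.card_union_le _ _).trans ?_) 1
    rw [hF1, hF1']

end Pool.Agent.HM
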