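import Mathlib
import Pool.Agent.Lib.MP_b573ec_lc_ST.Mixing
import Pool.Agent.Lib.MP_b573ec_lc_ST.Skel
import Pool.Agent.Lib.MP_b573ec_lc_HM.Runs
import Pool.Agent.Lib.MP_b573ec_lc_HM.Hist

/-!
# Mixtures of inputs with the same transcript
-/

namespace Pool.Agent.HM

open Pool.Agent.LT (Inp)
open Pool.Agent.ST (Rel Pop Nd Cs Sk Dv Lab)

theorem Trc.accepts {n k w : ℕ} {P : NHeadProg n k w} {T : ℕ} {A B : ℕ → Prop} {x : Inp n}
    {ℓ : ℕ → Lab} {s0 s1 : (Fin k → Fin n) × Fin w} {s : Sk (W n k w)}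
    (h : Trc P T A B x ℓ s0 s1 s) : P.Accepts T x := by
  obtain ⟨h1, h2, h3, -⟩ := h
  obtain ⟨l, hl⟩ := h3.sound
  exact acceptsR_accepts ((acceptsR_iff P T (RL k A B ℓ) x fun _ => false).mpr
    ⟨s0.1, s0.2, s1.1, s1.2, l, h1, h2, hl⟩)

/-- `v` is the mixture of `x` and `y` with the values of `y` on `B` -/
theorem Trc.mix {n k w : ℕ} {P : NHeadProg n k w} {T : ℕ} {A B : ℕ → Prop} {x y v : Inp n}
    {ℓ : ℕ → Lab} {s0 s1 : (Fin k → Fin n) × Fin w} {s : Sk (W n k w)}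
    (h : Trc P T A B x ℓ s0 s1 s) (h' : Trc P T A B y ℓ s0 s1 s)
    (hxy : ∀ e : Fin n, ¬ A e → ¬ B e → x e = y e) (hA : ∀ e : Fin n, ¬ B e → v e = x e)
    (hB : ∀ e : Fin n, B e → v e = y e) : Trc P T A B v ℓ s0 s1 s := by
  obtain ⟨h1, h2, h3, h4⟩ := h
  obtain ⟨-, -, h3', -⟩ := h'
  refine ⟨h1, h2, ?_, h4⟩
  set X : Bool → Inp n := fun b => if b then y else x with hX
  -- the first derivation, the letter `false` reads `x`
  have d1 : Dv (P.rel T (RL k A B ℓ) X) T (chg ℓ) (fun _ => false)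
      ⟨0, cst s0.1 s0.2, none, T, cst s1.1 s1.2⟩ s := by
    refine Dv_mono ?_ h3
    rintro t ht q g mv ⟨ht', hh, q', g', mv', hR, e1, e2, e3, e4⟩
    exact ⟨ht', hh, q', g', mv', hR, e1, e2, e3, e4⟩
  -- the second derivation, the letter is `true` unless the label is `c`
  have d2 : Dv (P.rel T (RL k A B ℓ) X) T (chg ℓ) (fun t => decide (ℓ t ≠ .c))
      ⟨0, cst s0.1 s0.2, none, T, cst s1.1 s1.2⟩ s := by
    refine Dv_mono ?_ h3'
    rintro t ht q g mv ⟨ht', hh, q', g', mv', hR, e1, e2, e3, e4⟩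
    refine ⟨ht', hh, q', g', mv', hR, e1, e2, ?_, e4⟩
    have e5 : (fun r => X (decide (ℓ t ≠ .c)) (hh r)) = fun r => y (hh r) := by
      funext r
      by_cases hc : ℓ t = .c
      · have hR' : LabOf A B hh (ℓ t) := hR
        rw [hc] at hR'
        simp only [hX, hc]
        simpa using hxy (hh r) (hR'.1 r) (hR'.2 r)
      · simp [hX, hc]
    rw [e5]
    exact e3
  have d3 := Dv.mix (chg_mono ℓ) (lbh ℓ)
    (fun t _ hc => by
      rw [lbh_chg] at hc
      simp [hc]) h4 d1 d2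
  refine Dv_mono ?_ d3
  rintro t ht q g mv ⟨ht', hh, q', g', mv', hR, e1, e2, e3, e4⟩
  refine ⟨ht', hh, q', g', mv', hR, e1, e2, ?_, e4⟩
  have e5 : (fun r => X (ST.mixz (lbh ℓ) (chg ℓ) (fun _ => false)
      (fun t => decide (ℓ t ≠ .c)) t) (hh r)) = fun r => v (hh r) := by
    funext r
    have hR' : LabOf A B hh (ℓ t) := hR
    unfold ST.mixz
    rw [lbh_chg]
    by_cases hb : ℓ t = .b
    · rw [hb] at hR'
      rw [if_pos hb]
      have e6 : X (decide (ℓ t ≠ .c)) = y := by simp [hX, hb]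
      rw [e6]
      by_cases hBr : B (hh r)
      · exact (hB _ hBr).symm
      · rw [hA _ hBr, hxy _ (hR'.2 r) hBr]
    · rw [if_neg hb]
      have hBr : ¬ B (hh r) := by
        cases hl : ℓ t with
        | a =>
          rw [hl] at hR'
          exact hR'.2 r
        | b => exact absurd hl hb
        | c =>
          rw [hl] at hR'
          exact hR'.2 r
      have e6 : X false = x := by simp [hX]
      rw [e6, hA _ hBr]
  rw [← e5]
  exact e3

end Pool.Agent.HM
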