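import Mathlib
import Pool.Agent.Lib.MP_b573ec_lc_HM.Core
import Pool.Agent.Lib.MP_b573ec_lc_HM.Runs

/-!
# Uniqueness of the history of a deterministic program
-/

namespace Pool.Agent.HM

open Pool.Agent.LT (Inp)
open Pool.Agent.ST (Rel Pop Nd Cs Sk Dv Lab)

theorem LabOf_unique {n k : ℕ} {A B : ℕ → Prop} {h : Fin k → Fin n} {l l' : Lab}
    (h1 : LabOf A B h l) (h2 : LabOf A B h l') : l = l' := by
  cases l <;> cases l'
  · rfl
  · obtain ⟨⟨r, hr⟩, -⟩ := h1
    exact absurd hr (h2.2 r)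
  · obtain ⟨⟨r, hr⟩, -⟩ := h1
    exact absurd hr (h2.1 r)
  · obtain ⟨⟨r, hr⟩, -⟩ := h1
    exact absurd hr (h2.2 r)
  · rfl
  · obtain ⟨⟨r, hr⟩, -⟩ := h1
    exact absurd hr (h2.2 r)
  · obtain ⟨⟨r, hr⟩, -⟩ := h2
    exact absurd hr (h1.1 r)
  · obtain ⟨⟨r, hr⟩, -⟩ := h2
    exact absurd hr (h1.2 r)
  · rfl

private theorem Uniq_step {n k w : ℕ} {P : NHeadProg n k w} (hP : P.Det) {T : ℕ}
    {A B : ℕ → Prop} {x : Inp n} {ℓ ℓ' : ℕ → Lab} {t : ℕ} {s : Fin (W n k w)}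
    {g : Option (Fin (W n k w))} {b : Bool} {mv mv' : ST.Move (W n k w)}
    (h1 : P.rel T (RL k A B ℓ) (fun _ => x) t s g b mv)
    (h2 : P.rel T (RL k A B ℓ') (fun _ => x) t s g b mv') : mv = mv' ∧ ℓ t = ℓ' t := by
  obtain ⟨-, h, q, g1, m, hR, e1, e2, hm, rfl⟩ := h1
  obtain ⟨-, h', q', g1', m', hR', e1', e2', hm', rfl⟩ := h2
  obtain ⟨rfl, rfl⟩ := cst_inj (e1.symm.trans e1')
  have e3 : g1 = g1' := Option.map_injective csy_inj (e2.symm.trans e2')
  subst e3
  have e4 := hP.1 _ _ _ _ _ _ _ hm hm'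
  subst e4
  exact ⟨rfl, LabOf_unique hR hR'⟩

private theorem Uniq_core {n k w : ℕ} {P : NHeadProg n k w} (hP : P.Det) {T : ℕ}
    {A B : ℕ → Prop} {x : Inp n} {ℓ ℓ' : ℕ → Lab} {z : ℕ → Bool} {t e e' : ℕ}
    {s r r' : Fin (W n k w)} {g : Option (Fin (W n k w))} {l l' : List (ℕ × ℕ)}
    (h : Pop (P.rel T (RL k A B ℓ) fun _ => x) T z t s g e r l)
    (h' : Pop (P.rel T (RL k A B ℓ') fun _ => x) T z t s g e' r' l') :
    e = e' ∧ r = r' ∧ ∀ u, t ≤ u → u < e → ℓ u = ℓ' u := by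
  induction h generalizing e' r' l' with
  | fin q g =>
    cases h' with
    | fin => exact ⟨rfl, rfl, fun u h1 h2 => absurd h2 (not_lt.2 h1)⟩
    | pop _ _ _ _ ht => exact absurd ht (lt_irrefl _)
    | bot _ _ _ _ _ _ ht => exact absurd ht (lt_irrefl _)
    | next _ _ _ _ _ _ _ ht => exact absurd ht (lt_irrefl _)
    | push _ _ _ _ _ _ _ _ _ _ _ ht => exact absurd ht (lt_irrefl _)
  | pop t q a q' ht hm =>
    cases h' with
    | fin => exact absurd ht (lt_irrefl _)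
    | pop _ _ _ _ _ hm' =>
      have h1 := (Uniq_step hP hm hm').1
      injection h1 with h2
      exact ⟨rfl, h2, fun u h1 h2 => absurd h2 (not_lt.2 h1)⟩
    | next _ _ _ _ _ _ _ _ hm' =>
      have h1 := (Uniq_step hP hm hm').1
      exact absurd h1 (by simp)
    | push _ _ _ _ _ _ _ _ _ _ _ _ hm' =>
      have h1 := (Uniq_step hP hm hm').1
      exact absurd h1 (by simp)
  | bot t q q1 t' q' l ht hm h1 ih =>
    cases h' with
    | fin => exact absurd ht (lt_irrefl _)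
    | bot _ _ q1' _ _ _ _ hm' h1' =>
      have h2 := (Uniq_step hP hm hm').1
      injection h2 with h3
      subst h3
      exact ih h1'
    | next _ _ _ _ _ _ _ _ hm' =>
      have h1 := (Uniq_step hP hm hm').1
      exact absurd h1 (by simp)
    | push _ _ _ _ _ _ _ _ _ _ _ _ hm' =>
      have h1 := (Uniq_step hP hm hm').1
      exact absurd h1 (by simp)
  | next t q g q1 t' q' l ht hm h1 ih =>
    cases h' with
    | fin => exact absurd ht (lt_irrefl _)
    | pop _ _ _ _ _ hm' =>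
      have h1 := (Uniq_step hP hm hm').1
      exact absurd h1 (by simp)
    | bot _ _ _ _ _ _ _ hm' =>
      have h1 := (Uniq_step hP hm hm').1
      exact absurd h1 (by simp)
    | next _ _ _ q1' _ _ _ _ hm' h1' =>
      obtain ⟨h2, h7⟩ := Uniq_step hP hm hm'
      injection h2 with h3
      subst h3
      obtain ⟨h4, h5, h6⟩ := ih h1'
      refine ⟨h4, h5, fun u hu hu' => ?_⟩
      rcases Nat.eq_or_lt_of_le hu with rfl | hu2
      · exact h7
      · exact h6 u hu2 hu'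
    | push _ _ _ _ _ _ _ _ _ _ _ _ hm' =>
      have h1 := (Uniq_step hP hm hm').1
      exact absurd h1 (by simp)
  | push t q g q1 a t1 q2 t' q' l1 l2 ht hm h1 h2 ih1 ih2 =>
    cases h' with
    | fin => exact absurd ht (lt_irrefl _)
    | pop _ _ _ _ _ hm' =>
      have h1 := (Uniq_step hP hm hm').1
      exact absurd h1 (by simp)
    | bot _ _ _ _ _ _ _ hm' =>
      have h1 := (Uniq_step hP hm hm').1
      exact absurd h1 (by simp)
    | next _ _ _ _ _ _ _ _ hm' =>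
      have h1 := (Uniq_step hP hm hm').1
      exact absurd h1 (by simp)
    | push _ _ _ q1' a' t1' q2' _ _ l1' l2' _ hm' h1' h2' =>
      have h3 := (Uniq_step hP hm hm').1
      injection h3 with h4 h5
      subst h4
      subst h5
      obtain ⟨h6, h7, h8⟩ := ih1 h1'
      subst h6
      subst h7
      obtain ⟨h9, h10, h11⟩ := ih2 h2'
      refine ⟨h9, h10, fun u hu hu' => ?_⟩
      rcases lt_or_ge u t1 with hu2 | hu2
      · exact h8 u hu hu2
      · exact h11 u hu2 hu'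

theorem hist_unique {n k w : ℕ} {P : NHeadProg n k w} (hP : P.Det) {T κ : ℕ} {A B : ℕ → Prop}
    {x : Inp n} {ℓ ℓ' : ℕ → Lab} (hℓ : Hist T κ ℓ) (hℓ' : Hist T κ ℓ') {z : ℕ → Bool}
    {s r r' : Fin (W n k w)} {l l' : List (ℕ × ℕ)}
    (h : Pop (P.rel T (RL k A B ℓ) fun _ => x) T z 0 s none T r l)
    (h' : Pop (P.rel T (RL k A B ℓ') fun _ => x) T z 0 s none T r' l') : ℓ = ℓ' := by
  obtain ⟨-, -, h1⟩ := Uniq_core hP h h'
  funext u
  rcases lt_or_ge u T with hu | hu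
  · exact h1 u (Nat.zero_le u) hu
  · rw [hℓ.1 u hu, hℓ'.1 u hu]

end Pool.Agent.HM
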