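import Mathlib
import Pool.Agent.Lib.MP_b573ec_lc_ST.Codes
import Pool.Agent.Lib.MP_b573ec_lc_ST.SkelDet
import Pool.Agent.Lib.MP_b573ec_lc_HM.Mix
import Pool.Agent.Lib.MP_b573ec_lc_HM.Uniq
import Pool.Agent.Lib.MP_b573ec_lc_HM.Bad

/-!
# Transcripts
-/

namespace Pool.Agent.HM

open Pool.Agent.LT (Inp)
open Pool.Agent.ST (Rel Pop Nd Cs Sk Dv Lab mixIn)

/-- two digits -/
private theorem Trans_code2 {N a a' c c' : ℕ} (hc : c < N) (hc' : c' < N)
    (h : a * N + c = a' * N + c') : a = a' ∧ c = c' := by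
  have h1 : c = c' := by
    have e1 : (a * N + c) % N = c := by
      rw [mul_comm, Nat.mul_add_mod, Nat.mod_eq_of_lt hc]
    have e2 : (a' * N + c') % N = c' := by
      rw [mul_comm, Nat.mul_add_mod, Nat.mod_eq_of_lt hc']
    rw [← e1, ← e2, h]
  subst h1
  exact ⟨Nat.eq_of_mul_eq_mul_right (by omega) (Nat.add_right_cancel h), rfl⟩

private theorem Trans_lt2 {M N a c : ℕ} (ha : a < M) (hc : c < N) : a * N + c < M * N := by
  have h1 : (a + 1) * N ≤ M * N := Nat.mul_le_mul_right N ha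
  have h2 : (a + 1) * N = a * N + N := by ring
  omega

/-- the count of transcripts -/
private theorem Trans_count {n k T w S κ : ℕ} (hk : 1 ≤ k) (hS : 1 ≤ S) (hκ : 1 ≤ κ)
    (hn : n ≤ 2 ^ S) (hw : w ≤ 2 ^ S) (hT : T ≤ 2 ^ (2 * S)) :
    (3 * (T + 1)) ^ (κ + 1) * W n k w * W n k w *
      ((T + 1) * (W n k w + 1)) ^ (8 * (3 * κ + 1)) ≤ 2 ^ (240 * k * κ * S) := by
  have hkS : S ≤ k * S := Nat.le_mul_of_pos_left S hk
  have h1 : T + 1 ≤ 2 ^ (3 * S) := by
    have h2 : 1 ≤ 2 ^ (2 * S) := Nat.one_le_two_pow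
    calc T + 1 ≤ 2 ^ (2 * S) + 2 ^ (2 * S) := Nat.add_le_add hT h2
      _ = 2 ^ (2 * S + 1) := by ring
      _ ≤ 2 ^ (3 * S) := Nat.pow_le_pow_right (by norm_num) (by omega)
  have h2 : 3 * (T + 1) ≤ 2 ^ (5 * S) := by
    calc 3 * (T + 1) ≤ 2 ^ 2 * 2 ^ (3 * S) := Nat.mul_le_mul (by norm_num) h1
      _ = 2 ^ (2 + 3 * S) := by rw [pow_add]
      _ ≤ 2 ^ (5 * S) := Nat.pow_le_pow_right (by norm_num) (by omega)
  have h3 : W n k w ≤ 2 ^ (3 * (k * S)) := by
    calc n ^ k * w + w ≤ (2 ^ S) ^ k * 2 ^ S + 2 ^ S :=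
          Nat.add_le_add (Nat.mul_le_mul (Nat.pow_le_pow_left hn k) hw) hw
      _ ≤ (2 ^ S) ^ k * 2 ^ S + (2 ^ S) ^ k * 2 ^ S := by
          apply Nat.add_le_add_left
          exact Nat.le_mul_of_pos_left _ (by positivity)
      _ = 2 ^ (k * S + S + 1) := by
          rw [← pow_mul]
          ring
      _ ≤ 2 ^ (3 * (k * S)) := Nat.pow_le_pow_right (by norm_num) (by omega)
  have h4 : W n k w + 1 ≤ 2 ^ (4 * (k * S)) := by
    have h5 : 1 ≤ 2 ^ (3 * (k * S)) := Nat.one_le_two_pow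
    calc W n k w + 1 ≤ 2 ^ (3 * (k * S)) + 2 ^ (3 * (k * S)) := Nat.add_le_add h3 h5
      _ = 2 ^ (3 * (k * S) + 1) := by ring
      _ ≤ 2 ^ (4 * (k * S)) := Nat.pow_le_pow_right (by norm_num) (by omega)
  have h5 : (T + 1) * (W n k w + 1) ≤ 2 ^ (7 * (k * S)) := by
    calc (T + 1) * (W n k w + 1) ≤ 2 ^ (3 * S) * 2 ^ (4 * (k * S)) := Nat.mul_le_mul h1 h4
      _ = 2 ^ (3 * S + 4 * (k * S)) := by rw [pow_add]
      _ ≤ 2 ^ (7 * (k * S)) := Nat.pow_le_pow_right (by norm_num) (by omega)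
  calc (3 * (T + 1)) ^ (κ + 1) * W n k w * W n k w *
      ((T + 1) * (W n k w + 1)) ^ (8 * (3 * κ + 1))
      ≤ (2 ^ (5 * S)) ^ (κ + 1) * 2 ^ (3 * (k * S)) * 2 ^ (3 * (k * S)) *
        (2 ^ (7 * (k * S))) ^ (8 * (3 * κ + 1)) := by
        exact Nat.mul_le_mul (Nat.mul_le_mul (Nat.mul_le_mul (Nat.pow_le_pow_left h2 _) h3) h3)
          (Nat.pow_le_pow_left h5 _)
    _ = 2 ^ (5 * S * (κ + 1) + 3 * (k * S) + 3 * (k * S) +
          7 * (k * S) * (8 * (3 * κ + 1))) := by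
        rw [← pow_mul, ← pow_mul, ← pow_add, ← pow_add, ← pow_add]
    _ ≤ 2 ^ (240 * k * κ * S) := by
        refine Nat.pow_le_pow_right (by norm_num) ?_
        have e1 : S ≤ k * κ * S := by
          calc S = 1 * 1 * S := by ring
            _ ≤ k * κ * S := Nat.mul_le_mul_right S (Nat.mul_le_mul hk hκ)
        have e2 : k * S ≤ k * κ * S := by
          calc k * S = k * 1 * S := by ring
            _ ≤ k * κ * S := Nat.mul_le_mul_right S (Nat.mul_le_mul_left k hκ)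
        have e3 : κ * S ≤ k * κ * S := by
          calc κ * S = 1 * κ * S := by ring
            _ ≤ k * κ * S := Nat.mul_le_mul_right S (Nat.mul_le_mul_right κ hk)
        have e4 : 5 * S * (κ + 1) + 3 * (k * S) + 3 * (k * S) +
          7 * (k * S) * (8 * (3 * κ + 1)) =
          5 * (κ * S) + 5 * S + 62 * (k * S) + 168 * (k * κ * S) := by ring
        have e5 : 240 * k * κ * S = 240 * (k * κ * S) := by ring
        rw [e4, e5]
        omega

/-- margins are monotone -/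
private theorem Trans_InI {L b c B i e : ℕ} (hc : c ≤ B) (h : InI L b B i e) : InI L b c i e := by
  unfold InI at h ⊢
  omega

private theorem Trans_InBlk {L b c i e : ℕ} (h : InI L b c i e) : ST.InBlk L b i e := by
  unfold InI at h
  unfold ST.InBlk
  omega

private theorem Trans_blk_uniq {L b i j e : ℕ} (h : ST.InBlk L b i e) (h' : ST.InBlk L b j e) :
    i = j := by
  obtain ⟨h1, h2⟩ := h
  obtain ⟨h3, h4⟩ := h'
  rcases lt_trichotomy i j with hlt | heq | hlt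
  · have e : (i + 1) * b ≤ j * b := Nat.mul_le_mul_right b hlt
    omega
  · exact heq
  · have e : (j + 1) * b ≤ i * b := Nat.mul_le_mul_right b hlt
    omega

/-- the pairs with many crossings are few -/
private theorem Trans_heavy {m : ℕ} (κ : ℕ) (f : Fin m → ℕ) :
    κ * {ij : Fin m × Fin m | ij.1 < ij.2 ∧ κ ≤ f ij.1 + f ij.2}.ncard ≤ m * ∑ i, f i := by
  classical
  have h1 : {ij : Fin m × Fin m | ij.1 < ij.2 ∧ κ ≤ f ij.1 + f ij.2} =
      ((Finset.univ.filter fun ij : Fin m × Fin m => ij.1 < ij.2 ∧ κ ≤ f ij.1 + f ij.2) :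
        Set (Fin m × Fin m)) := by
    ext x
    simp
  rw [h1, Set.ncard_coe_finset]
  set A := Finset.univ.filter fun ij : Fin m × Fin m => ij.1 < ij.2 ∧ κ ≤ f ij.1 + f ij.2
    with hA
  have h2 : κ * A.card ≤ ∑ ij ∈ A, (f ij.1 + f ij.2) := by
    rw [mul_comm, ← smul_eq_mul, ← Finset.sum_const]
    apply Finset.sum_le_sum
    intro ij hij
    rw [hA, Finset.mem_filter] at hij
    exact hij.2.2
  have h3 : ∑ ij ∈ A, f ij.2 = ∑ ij ∈ A.image Prod.swap, f ij.1 := by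
    rw [Finset.sum_image]
    · rfl
    · intro x _ y _ hxy
      exact Prod.swap_injective hxy
  have h4 : Disjoint A (A.image Prod.swap) := by
    rw [Finset.disjoint_left]
    intro x hx hx'
    rw [Finset.mem_image] at hx'
    obtain ⟨y, hy, rfl⟩ := hx'
    rw [hA, Finset.mem_filter] at hx hy
    exact lt_asymm hx.2.1 hy.2.1
  calc κ * A.card ≤ ∑ ij ∈ A, (f ij.1 + f ij.2) := h2
    _ = ∑ ij ∈ A, f ij.1 + ∑ ij ∈ A.image Prod.swap, f ij.1 := by
        rw [Finset.sum_add_distrib, h3]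
    _ = ∑ ij ∈ A ∪ A.image Prod.swap, f ij.1 := (Finset.sum_union h4).symm
    _ ≤ ∑ ij : Fin m × Fin m, f ij.1 :=
        Finset.sum_le_sum_of_subset (Finset.subset_univ _)
    _ = m * ∑ i, f i := by
        rw [Fintype.sum_prod_type]
        simp [Finset.mul_sum]

theorem transcripts : ∃ C : ℕ, ∀ (n k T w S L b m B κ : ℕ) (P : NHeadProg n k w), 1 ≤ k →
    1 ≤ S → 1 ≤ κ → n ≤ 2 ^ S → w ≤ 2 ^ S → T ≤ 2 ^ (2 * S) → L + m * b ≤ n →
    ∃ Tr : ℕ → Fin m → Fin m → Inp n → Fin (2 ^ (C * k * κ * S)) → Prop,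
      (∀ c ≤ B, ∀ (i j : Fin m) (x y : Inp n) θ, i < j → AgreeI L b B i j x y →
        Tr c i j x θ → Tr c i j y θ → Tr c i j (mixIn L b j x y) θ) ∧
      (∀ c (i j : Fin m) x θ, Tr c i j x θ → P.Accepts T x) ∧
      (∀ x, P.Accepts T x → κ * ∑ c ∈ Finset.Icc 1 B,
        {ij : Fin m × Fin m | ij.1 < ij.2 ∧ ¬ ∃ θ, Tr c ij.1 ij.2 x θ}.ncard ≤
          3 * k ^ 2 * κ * (T + 2 * B) + m * T) ∧
      (P.Det → ∀ c (i j : Fin m) x θ θ', Tr c i j x θ → Tr c i j x θ' → θ = θ') := by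
  refine ⟨240, fun n k T w S L b m B κ P hk hS hκ hn hw hT hL => ?_⟩
  obtain ⟨codeH, hHlt, hHinj⟩ := hist_codes T κ
  obtain ⟨code, hinj, hlt⟩ := ST.sk_codes (W n k w) T (3 * κ + 1)
  set N : ℕ := ((T + 1) * (W n k w + 1)) ^ (8 * (3 * κ + 1)) with hN
  have hsz : ∀ {A C : ℕ → Prop} {x : Inp n} {ℓ : ℕ → Lab} {s0 s1 : (Fin k → Fin n) × Fin w}
      {s : Sk (W n k w)}, Hist T κ ℓ → Trc P T A C x ℓ s0 s1 s →
      s.size ≤ 3 * κ + 1 ∧ s.Bdd T := by
    intro A C x ℓ s0 s1 s hh h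
    refine ⟨?_, h.2.2.1.bdd⟩
    have h1 := h.2.2.1.size (chg_mono ℓ)
    have h2 := hh.2
    dsimp only at h1
    omega
  refine ⟨fun c i j x θ => ∃ ℓ s0 s1 s, Hist T κ ℓ ∧
    Trc P T (InI L b c i) (InI L b c j) x ℓ s0 s1 s ∧
    ((codeH ℓ * W n k w + (cst s0.1 s0.2 : Fin (W n k w)).val) * W n k w +
      (cst s1.1 s1.2 : Fin (W n k w)).val) * N + code s = (θ : ℕ), ?_, ?_, ?_, ?_⟩
  · rintro c hc i j x y θ hij hxy ⟨ℓ, s0, s1, s, hh, ht, hcd⟩ ⟨ℓ', s0', s1', s', hh', ht', hcd'⟩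
    obtain ⟨h1, h2⟩ := hsz hh ht
    obtain ⟨h3, h4⟩ := hsz hh' ht'
    obtain ⟨e1, e2⟩ := Trans_code2 (hlt s h1 h2) (hlt s' h3 h4) (hcd.trans hcd'.symm)
    obtain ⟨e3, e4⟩ := Trans_code2 (cst s1.1 s1.2).2 (cst s1'.1 s1'.2).2 e1
    obtain ⟨e5, e6⟩ := Trans_code2 (cst s0.1 s0.2).2 (cst s0'.1 s0'.2).2 e3
    have e7 := hinj s s' h1 h2 h3 h4 e2
    have e8 := hHinj ℓ ℓ' hh hh' e5
    obtain ⟨e9, e10⟩ := cst_inj (Fin.ext e4)
    obtain ⟨e11, e12⟩ := cst_inj (Fin.ext e6)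
    have e13 : s1 = s1' := Prod.ext e9 e10
    have e14 : s0 = s0' := Prod.ext e11 e12
    subst e7 e8 e13 e14
    refine ⟨ℓ, s0, s1, s, hh, Trc.mix ht ht' ?_ ?_ ?_, hcd⟩
    · intro e he1 he2
      exact hxy e (fun h => he1 (Trans_InI hc h)) (fun h => he2 (Trans_InI hc h))
    · intro e he
      unfold mixIn
      by_cases hblk : ST.InBlk L b j e
      · rw [if_pos hblk]
        refine (hxy e ?_ fun h => he (Trans_InI hc h)).symm
        intro h
        have h5 := Trans_blk_uniq (Trans_InBlk h) hblk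
        exact absurd h5 (Fin.val_ne_of_ne hij.ne)
      · rw [if_neg hblk]
    · intro e he
      unfold mixIn
      rw [if_pos (Trans_InBlk he)]
  · rintro c i j x θ ⟨ℓ, s0, s1, s, hh, ht, hcd⟩
    exact ht.accepts
  · intro x hx
    obtain ⟨π, hπ, hacc⟩ := exists_traj P T x hx
    obtain ⟨h, q, h', q', l, hst, hac, hpop⟩ :=
      (acceptsR_iff P T (fun t h => h = π t) x fun _ => false).1 hacc
    have key : ∀ c ∈ Finset.Icc 1 B,
        κ * {ij : Fin m × Fin m | ij.1 < ij.2 ∧ ¬ ∃ θ : Fin (2 ^ (240 * k * κ * S)),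
          ∃ ℓ s0 s1 s, Hist T κ ℓ ∧
          Trc P T (InI L b c ij.1) (InI L b c ij.2) x ℓ s0 s1 s ∧
          ((codeH ℓ * W n k w + (cst s0.1 s0.2 : Fin (W n k w)).val) * W n k w +
            (cst s1.1 s1.2 : Fin (W n k w)).val) * N + code s = (θ : ℕ)}.ncard ≤
        κ * (3 * k ^ 2 * (∑ i : Fin m, crs T L b π c i + 2)) +
          m * ∑ i : Fin m, crs T L b π c i := by
      intro c hcB
      have hc : 1 ≤ c := (Finset.mem_Icc.1 hcB).1
      set U : Set (Fin m × Fin m) := {ij : Fin m × Fin m | ij.1 < ij.2 ∧ ∃ t t',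
        (t = t' ∨ (t, t') ∈ l) ∧
        (Both T L b π c ij.1 ij.2 t t' ∨ Both T L b π c ij.2 ij.1 t t')} with hU
      set V : Set (Fin m × Fin m) := {ij : Fin m × Fin m | ij.1 < ij.2 ∧
        κ ≤ crs T L b π c ij.1 + crs T L b π c ij.2} with hV
      have hUc : U.ncard ≤ 3 * k ^ 2 * (∑ i : Fin m, crs T L b π c i + 2) :=
        bad_pairs T L b m π hπ c hc l (fun y hy => (hpop.within y hy).2.1) hpop.noncross
      have hVc : κ * V.ncard ≤ m * ∑ i : Fin m, crs T L b π c i :=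
        Trans_heavy κ fun i : Fin m => crs T L b π c i
      have hsub : {ij : Fin m × Fin m | ij.1 < ij.2 ∧ ¬ ∃ θ : Fin (2 ^ (240 * k * κ * S)),
          ∃ ℓ s0 s1 s, Hist T κ ℓ ∧
          Trc P T (InI L b c ij.1) (InI L b c ij.2) x ℓ s0 s1 s ∧
          ((codeH ℓ * W n k w + (cst s0.1 s0.2 : Fin (W n k w)).val) * W n k w +
            (cst s1.1 s1.2 : Fin (W n k w)).val) * N + code s = (θ : ℕ)} ⊆ U ∪ V := by
        rintro ⟨i, j⟩ ⟨hij, hno⟩
        dsimp only at hij hno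
        by_contra hbad
        rw [Set.mem_union, not_or] at hbad
        obtain ⟨hb1, hb2⟩ := hbad
        have hcr : crs T L b π c i + crs T L b π c j + 1 ≤ κ := by
          by_contra hcr
          exact hb2 ⟨hij, by dsimp only; omega⟩
        have hnb : ∀ t t', (t = t' ∨ (t, t') ∈ l) →
            ¬ Both T L b π c i j t t' ∧ ¬ Both T L b π c j i t t' := by
          intro t t' htt
          exact ⟨fun hh => hb1 ⟨hij, t, t', htt, Or.inl hh⟩,
            fun hh => hb1 ⟨hij, t, t', htt, Or.inr hh⟩⟩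
        obtain ⟨ℓ, hℓ1, hℓ2⟩ := exists_hist T L b π c i j fun t => (hnb t t (Or.inl rfl)).1
        have hh : Hist T κ ℓ := ⟨hℓ2.1, hℓ2.2.trans hcr⟩
        have hpop' : Pop (P.rel T (RL k (InI L b c i) (InI L b c j) ℓ) fun _ => x) T
            (fun _ => false) 0 (cst h q) none T (cst h' q') l := by
          refine Pop_mono ?_ hpop
          rintro t ht s g mv ⟨h1, hd, q1, g1, mv1, hR, e1, e2, e3, e4⟩
          refine ⟨h1, hd, q1, g1, mv1, ?_, e1, e2, e3, e4⟩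
          rw [hR]
          exact hℓ1 t ht
        have hl : ∀ y ∈ l, (lbh ℓ (chg ℓ y.1)).Ok (lbh ℓ (chg ℓ y.2)) := by
          intro y hy
          rw [lbh_chg, lbh_chg]
          have hlt' : ∀ t, ℓ t ≠ .c → t < T := by
            intro t ht
            by_contra hT'
            exact ht (hh.1 t (not_lt.1 hT'))
          refine ⟨?_, ?_⟩
          · rintro ⟨ha, hb⟩
            have h1 := hlt' y.1 (by rw [ha]; simp)
            have h2 := hlt' y.2 (by rw [hb]; simp)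
            have h3 : LabOf (InI L b c i) (InI L b c j) (π y.1) (ℓ y.1) := hℓ1 y.1 h1
            have h4 : LabOf (InI L b c i) (InI L b c j) (π y.2) (ℓ y.2) := hℓ1 y.2 h2
            rw [ha] at h3
            rw [hb] at h4
            exact (hnb y.1 y.2 (Or.inr hy)).1 ⟨h1, h2, h3.1, h4.1⟩
          · rintro ⟨hb, ha⟩
            have h1 := hlt' y.1 (by rw [hb]; simp)
            have h2 := hlt' y.2 (by rw [ha]; simp)
            have h3 : LabOf (InI L b c i) (InI L b c j) (π y.1) (ℓ y.1) := hℓ1 y.1 h1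
            have h4 : LabOf (InI L b c i) (InI L b c j) (π y.2) (ℓ y.2) := hℓ1 y.2 h2
            rw [hb] at h3
            rw [ha] at h4
            exact (hnb y.1 y.2 (Or.inr hy)).2 ⟨h1, h2, h3.1, h4.1⟩
        obtain ⟨s, hs, hok⟩ := hpop'.exists_dv (chg_mono ℓ) (lbh ℓ) hl
        have ht : Trc P T (InI L b c i) (InI L b c j) x ℓ (h, q) (h', q') s :=
          ⟨hst, hac, hs, hok⟩
        obtain ⟨h1, h2⟩ := hsz hh ht
        refine hno ⟨⟨_, ?_⟩, ℓ, (h, q), (h', q'), s, hh, ht, rfl⟩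
        refine lt_of_lt_of_le ?_ (Trans_count (n := n) (w := w) hk hS hκ hn hw hT)
        exact Trans_lt2 (Trans_lt2 (Trans_lt2 (hHlt ℓ hh) (cst h q).2) (cst h' q').2)
          (hlt s h1 h2)
      calc _ ≤ κ * (U ∪ V).ncard :=
            Nat.mul_le_mul_left κ (Set.ncard_le_ncard hsub (Set.toFinite _))
        _ ≤ κ * (U.ncard + V.ncard) := Nat.mul_le_mul_left κ (Set.ncard_union_le _ _)
        _ = κ * U.ncard + κ * V.ncard := by ring
        _ ≤ _ := Nat.add_le_add (Nat.mul_le_mul_left κ hUc) hVc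
    have hsum := sum_crs_le T L b m B π hπ
    rw [Finset.mul_sum]
    refine (Finset.sum_le_sum key).trans ?_
    rw [Finset.sum_add_distrib, ← Finset.mul_sum, ← Finset.mul_sum, ← Finset.mul_sum,
      Finset.sum_add_distrib, Finset.sum_const, Nat.card_Icc, smul_eq_mul]
    have e1 : B + 1 - 1 = B := by omega
    rw [e1]
    calc κ * (3 * k ^ 2 * (∑ c ∈ Finset.Icc 1 B, ∑ i : Fin m, crs T L b π c i + B * 2)) +
          m * ∑ c ∈ Finset.Icc 1 B, ∑ i : Fin m, crs T L b π c i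
        ≤ κ * (3 * k ^ 2 * (T + B * 2)) + m * T := by
          refine Nat.add_le_add (Nat.mul_le_mul_left _ (Nat.mul_le_mul_left _ ?_))
            (Nat.mul_le_mul_left _ hsum)
          exact Nat.add_le_add_right hsum _
      _ = 3 * k ^ 2 * κ * (T + 2 * B) + m * T := by ring
  · rintro hdet c i j x θ θ' ⟨ℓ, s0, s1, s, hh, ht, hcd⟩ ⟨ℓ', s0', s1', s', hh', ht', hcd'⟩
    obtain ⟨e1, e2⟩ := hdet.2 _ _ _ _ ht.1 ht'.1
    have e3 : s0 = s0' := Prod.ext e1 e2
    subst e3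
    obtain ⟨l, hl⟩ := ht.2.2.1.sound
    obtain ⟨l', hl'⟩ := ht'.2.2.1.sound
    have e4 : ℓ = ℓ' := hist_unique hdet hh hh' hl hl'
    subst e4
    have hrd := rel_det hdet T (RL k (InI L b c i) (InI L b c j) ℓ) fun _ => x
    have e5 := (hl.det hrd hl').2.1
    obtain ⟨e6, e7⟩ := cst_inj e5
    have e8 : s1 = s1' := Prod.ext e6 e7
    subst e8
    have e9 : s = s' := Dv.det hrd (chg_mono ℓ) ht.2.2.1 ht'.2.2.1
    subst e9
    exact Fin.ext (hcd.symm.trans hcd')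

end Pool.Agent.HM
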