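import Mathlib
import Pool.Agent.Lib.MP_b573ec_lc_HM.Trans

/-!
# Transcripts of nondeterministic programs, with the margin as a part of the transcript
-/

namespace Pool.Agent.HM

open Pool.Agent.LT (Inp)
open Pool.Agent.ST (mixIn)

private theorem card_lt_pairs (m : ℕ) :
    2 * {ij : Fin m × Fin m | ij.1 < ij.2}.ncard = m * (m - 1) := by
  have h1 : {ij : Fin m × Fin m | ij.1 < ij.2} =
      ((Finset.univ.filter fun ij : Fin m × Fin m => ij.1 < ij.2) : Set (Fin m × Fin m)) := by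
    ext x; simp
  rw [h1, Set.ncard_coe_finset, Finset.card_filter, Fintype.sum_prod_type_right]
  have h2 : ∀ j : Fin m, (∑ i : Fin m, if (i, j).1 < (i, j).2 then 1 else 0) = (j : ℕ) := by
    intro j
    rw [← Finset.card_filter]
    have : (Finset.univ.filter fun i : Fin m => (i, j).1 < (i, j).2) = Finset.Iio j := by
      ext i; simp
    rw [this, Fin.card_Iio]
  rw [Finset.sum_congr rfl fun j _ => h2 j, Fin.sum_univ_eq_sum_range (fun j => j) m, mul_comm,
    Finset.sum_range_id_mul_two]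

theorem transcriptsN : ∃ C : ℕ, ∀ (n k T w S L b m B κ : ℕ) (P : NHeadProg n k w), 1 ≤ k →
    1 ≤ S → 1 ≤ κ → n ≤ 2 ^ S → w ≤ 2 ^ S → T ≤ 2 ^ (2 * S) → L + m * b ≤ n → B ≤ n →
    2 * (3 * k ^ 2 * κ * (T + 2 * B) + m * T) < κ * B * (m * (m - 1)) →
    ∃ Tr : Fin m → Fin m → Inp n → Fin (2 ^ (C * k * κ * S)) → Prop,
      (∀ (i j : Fin m) (x y : Inp n) θ, i < j → AgreeI L b B i j x y →
        Tr i j x θ → Tr i j y θ → P.Accepts T (mixIn L b j x y)) ∧
      ∀ x, P.Accepts T x → ∃ i j : Fin m, i < j ∧ ∃ θ, Tr i j x θ := by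
  obtain ⟨C0, hC0⟩ := transcripts
  refine ⟨C0 + 1, ?_⟩
  intro n k T w S L b m B κ P hk hS hκ hn hw hT hL hBn hbig
  obtain ⟨Tr, hmix, hacc, hfew, -⟩ := hC0 n k T w S L b m B κ P hk hS hκ hn hw hT hL
  have hcard : Fintype.card (Fin (2 ^ S) × Fin (2 ^ (C0 * k * κ * S))) ≤
      Fintype.card (Fin (2 ^ ((C0 + 1) * k * κ * S))) := by
    rw [Fintype.card_prod, Fintype.card_fin, Fintype.card_fin, Fintype.card_fin, ← pow_add]
    apply Nat.pow_le_pow_right (by norm_num)
    have h1 : S ≤ k * κ * S := by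
      have : 1 ≤ k * κ := Nat.mul_pos hk hκ
      calc S = 1 * S := (one_mul S).symm
        _ ≤ k * κ * S := Nat.mul_le_mul_right _ this
    calc S + C0 * k * κ * S ≤ k * κ * S + C0 * k * κ * S := Nat.add_le_add_right h1 _
      _ = (C0 + 1) * k * κ * S := by ring
  obtain ⟨e⟩ := Function.Embedding.nonempty_of_card_le hcard
  refine ⟨fun i j x θ' => ∃ (c : Fin (2 ^ S)) (θ : Fin (2 ^ (C0 * k * κ * S))),
    (c : ℕ) + 1 ≤ B ∧ Tr (c + 1) i j x θ ∧ θ' = e (c, θ), ?_, ?_⟩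
  · rintro i j x y θ' hij hag ⟨c, θ, hc, hx, rfl⟩ ⟨c', θ1, hc', hy, he⟩
    have h2 := e.injective he
    rw [Prod.mk.injEq] at h2
    obtain ⟨rfl, rfl⟩ := h2
    exact hacc _ i j _ θ (hmix _ hc i j x y θ hij hag hx hy)
  · intro x hx
    by_contra hno
    have h3 : ∀ c ∈ Finset.Icc 1 B,
        {ij : Fin m × Fin m | ij.1 < ij.2 ∧ ¬ ∃ θ, Tr c ij.1 ij.2 x θ}.ncard =
          {ij : Fin m × Fin m | ij.1 < ij.2}.ncard := by
      intro c hc
      rw [Finset.mem_Icc] at hc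
      congr 1
      ext ij
      simp only [Set.mem_ofPred_eq]
      constructor
      · exact fun h => h.1
      · intro h
        refine ⟨h, ?_⟩
        rintro ⟨θ, hθ⟩
        apply hno
        have hlt : c - 1 < 2 ^ S := by omega
        refine ⟨ij.1, ij.2, h, e (⟨c - 1, hlt⟩, θ), ⟨c - 1, hlt⟩, θ, ?_, ?_, rfl⟩
        · show c - 1 + 1 ≤ B
          omega
        · have h5 : ((⟨c - 1, hlt⟩ : Fin (2 ^ S)) : ℕ) + 1 = c := by
            show c - 1 + 1 = c
            omega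
          rw [h5]
          exact hθ
    have h6 := hfew x hx
    rw [Finset.sum_congr rfl h3, Finset.sum_const, Nat.card_Icc, smul_eq_mul] at h6
    have h7 : κ * B * (m * (m - 1)) ≤ 2 * (3 * k ^ 2 * κ * (T + 2 * B) + m * T) := by
      calc κ * B * (m * (m - 1))
          = 2 * (κ * ((B + 1 - 1) * {ij : Fin m × Fin m | ij.1 < ij.2}.ncard)) := by
            rw [← card_lt_pairs m, Nat.add_sub_cancel]; ring
        _ ≤ _ := Nat.mul_le_mul_left _ h6
    exact absurd hbig (not_lt.2 h7)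

end Pool.Agent.HM
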