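import Mathlib
import Pool.Agent.Lib.MP_b573ec_lc_ST.Fool
import Pool.Agent.Lib.MP_b573ec_lc_HM.TransN
import Pool.Agent.Lib.MP_b573ec_lc_HM.Enc
import Pool.Agent.Lib.MP_b573ec_lc_HM.Numbers

/-!
# Lower bound for the complement of `langA`
-/

namespace Pool.Agent.HM

open Pool.Agent.LT (Inp)
open Pool.Agent.ST (langA)

theorem lowerA : ∃ C : ℕ, ∀ n k p T S w : ℕ, 1 ≤ k → 1 ≤ p → 1 ≤ S → 1 ≤ n → n ≤ 2 ^ S →
    w ≤ 2 ^ S → T ≤ p * n → C * k ^ 3 * p ^ 2 * S ≤ n →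
    ∃ X : Finset (Inp n), X.Nonempty ∧ (∀ x ∈ X, langA n x = false) ∧
      ∀ P : NHeadProg n k w, (∀ x, P.Accepts T x → langA n x = false) →
        2 * Nat.card {x : Inp n // x ∈ X ∧ P.Accepts T x} < X.card := by
  classical
  obtain ⟨C0, hC0⟩ := transcriptsN
  obtain ⟨C1, hC1⟩ := numbers C0 3
  refine ⟨C1, ?_⟩
  intro n k p T S w hk hp hS h1n hn hw hTp hCn
  obtain ⟨g, κ, s, N, hκ, hs, hgL, h2g, hNb, hT2, hbig, hE⟩ :=
    hC1 n k p T S hk hp hS hn hTp h1n hCn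
  have hbn : (n - Nat.log 2 n) / 2 ^ g ≤ n := (Nat.div_le_self _ _).trans (Nat.sub_le _ _)
  have hNs : N + 2 * (2 * s) ≤ (n - Nat.log 2 n) / 2 ^ g := by omega
  have hm1 : 1 ≤ 2 ^ g := Nat.one_le_two_pow
  have hK : (2 ^ g) ^ 2 * 2 ^ (C0 * k * κ * S) < Fintype.card (Fin N → ZMod 2) := by
    rw [Fintype.card_fun, ZMod.card, Fintype.card_fin, ← pow_mul, ← pow_add]
    exact Nat.pow_lt_pow_right (by norm_num) (by omega)
  have hbig' : 2 * (3 * k ^ 2 * κ * (T + 2 * (2 * s)) + 2 ^ g * T) <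
      κ * (2 * s) * (2 ^ g * (2 ^ g - 1)) :=
    lt_of_le_of_lt (Nat.mul_le_mul_right _ (by norm_num)) hbig
  -- the set of inputs
  refine ⟨(Finset.univ.filter fun Y : Fin (2 ^ g) → Fin N → ZMod 2 => ∑ k, Y k = 0).image
    (encA n g (2 * s)), ?_, ?_, ?_⟩
  · exact ⟨_, Finset.mem_image_of_mem _ (Finset.mem_filter.mpr ⟨Finset.mem_univ 0, by simp⟩)⟩
  · intro x hx
    obtain ⟨Y, hY, rfl⟩ := Finset.mem_image.mp hx
    rw [Finset.mem_filter] at hY
    by_contra h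
    exact (langA_encA hgL hNs Y).mp (Bool.eq_true_of_not_eq_false h) hY.2
  intro P hP
  by_contra hcon
  rw [not_lt] at hcon
  obtain ⟨Tr, hTR, hTG⟩ := hC0 n k T w S (Nat.log 2 n) ((n - Nat.log 2 n) / 2 ^ g) (2 ^ g)
    (2 * s) κ P hk hS hκ hn hw hT2 (ST.E1_room n g) (by omega) hbig'
  have hA : Nat.card {Y : Fin (2 ^ g) → Fin N → ZMod 2 // ∑ k, Y k = 0} ≤
      2 * Nat.card {Y : Fin (2 ^ g) → Fin N → ZMod 2 //
        ∑ k, Y k = 0 ∧ P.Accepts T (encA n g (2 * s) Y)} := by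
    rw [Finset.card_image_of_injective _ (encA_injective hgL hNs)] at hcon
    rw [Nat.card_eq_fintype_card, Fintype.card_subtype]
    refine hcon.trans (Nat.mul_le_mul_left 2 ?_)
    refine Nat.card_le_card_of_injective (fun x => ⟨(Finset.mem_image.mp x.2.1).choose,
      (Finset.mem_filter.mp (Finset.mem_image.mp x.2.1).choose_spec.1).2, ?_⟩) ?_
    · rw [(Finset.mem_image.mp x.2.1).choose_spec.2]
      exact x.2.2
    · intro x y hxy
      have h1 := congrArg (fun z => encA n g (2 * s) z.1) hxy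
      simp only at h1
      rw [(Finset.mem_image.mp x.2.1).choose_spec.2, (Finset.mem_image.mp y.2.1).choose_spec.2]
        at h1
      exact Subtype.ext h1
  have hR : ∀ i j : Fin (2 ^ g), i < j → ∀ (Y Y' : Fin (2 ^ g) → Fin N → ZMod 2)
      (θ : Fin (2 ^ (C0 * k * κ * S))), (∀ k, k ≠ i → k ≠ j → Y k = Y' k) →
      Tr i j (encA n g (2 * s) Y) θ → Tr i j (encA n g (2 * s) Y') θ →
      P.Accepts T (encA n g (2 * s) (Function.update Y j (Y' j))) := by
    intro i j hij Y Y' θ hag h1 h2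
    have h4 := hTR i j _ _ θ hij (encA_agree hgL hNs Y Y' i j hag) h1 h2
    rw [encA_mix hgL hNs] at h4
    exact h4
  have hG : ∀ Y : Fin (2 ^ g) → Fin N → ZMod 2, P.Accepts T (encA n g (2 * s) Y) →
      ∃ i j, i < j ∧ ∃ θ, Tr i j (encA n g (2 * s) Y) θ := fun Y hacc => hTG _ hacc
  obtain ⟨i, j, Y, Y', hij, hY, hY', hne, hag, hacc, -⟩ := ST.exists_fooling (2 ^ g)
    (2 ^ (C0 * k * κ * S)) hm1 0 (fun Y => P.Accepts T (encA n g (2 * s) Y))
    (fun i j Y θ => Tr i j (encA n g (2 * s) Y) θ) hR hG hA hK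
  -- contradiction
  have h1 := hP _ hacc
  have h2 : ∑ k, Function.update Y j (Y' j) k = 0 := by
    by_contra h3
    rw [(langA_encA hgL hNs _).mpr h3] at h1
    exact absurd h1 (by simp)
  have h3 : Y' j = Y j := by
    rw [Finset.sum_update_of_mem (Finset.mem_univ j)] at h2
    rw [← Finset.add_sum_erase _ _ (Finset.mem_univ j)] at hY
    rw [Finset.sdiff_singleton_eq_erase] at h2
    exact add_right_cancel (h2.trans hY.symm)
  apply hne
  have h4 : ∑ k, (Y k - Y' k) = 0 := by rw [Finset.sum_sub_distrib, hY, hY', sub_zero]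
  have h5 : ∑ k, (Y k - Y' k) = Y i - Y' i := by
    refine Finset.sum_eq_single i (fun k _ hk => ?_) (fun h => absurd (Finset.mem_univ i) h)
    by_cases hkj : k = j
    · rw [hkj, h3, sub_self]
    · rw [hag k hk hkj, sub_self]
  rw [h5] at h4
  exact sub_eq_zero.mp h4

end Pool.Agent.HM
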