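import Mathlib
import Pool.Agent.Lib.MP_b573ec_lc_ST.Corrupt

/-!
# Eleven independent programs, with transcripts which depend on a margin
-/

namespace Pool.Agent.HM

open Pool.Agent.ST

private theorem Corrupt_sum_coord (M : ℕ) (s : Fin 11) (b : Fin M → ℕ) :
    ∑ cs : Fin 11 → Fin M, b (cs s) = M ^ 10 * ∑ c : Fin M, b c := by
  classical
  have h1 := Finset.prod_univ_sum (fun _ : Fin 11 => (Finset.univ : Finset (Fin M)))
    (fun i j => if i = s then b j else 1)
  rw [Fintype.piFinset_univ] at h1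
  have h2 : ∀ x : Fin 11 → Fin M, ∏ i, (if i = s then b (x i) else 1) = b (x s) := by
    intro x
    rw [Finset.prod_ite_eq' Finset.univ s (fun i => b (x i))]
    simp
  rw [Finset.sum_congr rfl fun x _ => h2 x] at h1
  rw [← h1, ← Finset.mul_prod_erase Finset.univ _ (Finset.mem_univ s), mul_comm]
  congr 1
  · have h3 : ∀ i ∈ Finset.univ.erase s, ∑ j : Fin M, (if i = s then b j else 1) = M := by
      intro i hi
      simp [(Finset.mem_erase.1 hi).1]
    rw [Finset.prod_congr rfl h3, Finset.prod_const]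
    simp
  · simp

/-- one tuple of eleven programs -/
private theorem Corrupt_tuple (m N K M : ℕ) (hm : 2 ≤ m) (hN : 4000 ≤ N) (hM : 1 ≤ M) {Γ : Type}
    (Out : Γ → (Fin m → Fin N → ZMod 3) → Prop)
    (Tr : Γ → Fin M → Fin m → Fin m → (Fin m → Fin N → ZMod 3) → Option (Fin K))
    (hR : ∀ γ c i j Y Y' θ, i < j → (∀ k, k ≠ i → k ≠ j → Y k = Y' k) → Tr γ c i j Y = some θ →
      Tr γ c i j Y' = some θ → Tr γ c i j (Function.update Y j (Y' j)) = some θ)
    (hO : ∀ γ c i j Y, i < j → Tr γ c i j Y ≠ none → Out γ Y)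
    (hG : ∀ γ Y, Out γ Y →
      44 * ∑ c : Fin M, {ij : Fin m × Fin m | ij.1 < ij.2 ∧ Tr γ c ij.1 ij.2 Y = none}.ncard ≤
        M * (m * (m - 1)))
    (g : Fin 11 → Γ) :
    2 ^ (N / 400) * N * Nat.card {Y : Fin m → Fin N → ZMod 3 //
        (∀ t, ∑ k, Y k t ≠ 2) ∧ ∀ s, Out (g s) Y} ≤
      2048 * (2 ^ (N / 400) * Nat.card {Y : Fin m → Fin N → ZMod 3 //
        (∃! t, ∑ k, Y k t = 2) ∧ ∀ s, Out (g s) Y}) +
        192 * N * K ^ 11 * (2 * 3 ^ (m - 1)) ^ N := by
  classical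
  set Z : ℕ := (2 * 3 ^ (m - 1)) ^ N with hZ
  have hZ6 : 6 ^ N * 3 ^ (N * (m - 2)) = Z := by
    rw [hZ, mul_comm N (m - 2), pow_mul, ← mul_pow]
    congr 1
    obtain ⟨r, rfl⟩ : ∃ r, m = r + 2 := ⟨m - 2, by omega⟩
    have : r + 2 - 1 = r + 1 := by omega
    rw [this, Nat.add_sub_cancel, pow_succ]
    ring
  set Pr := (Finset.univ.filter fun ij : Fin m × Fin m => ij.1 < ij.2) with hPr
  have hPc : 2 * Pr.card = m * (m - 1) := B5_pairs m
  -- combined transcripts
  let T : (Fin 11 → Fin M) → Fin m × Fin m → (Fin m → Fin N → ZMod 3) →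
      Option (Fin (K ^ 11)) := fun cs ij Y =>
    B5tr (fun (s : Fin 11) (ij : Fin m × Fin m) Y => Tr (g s) (cs s) ij.1 ij.2 Y)
      (fun s => s) ij Y
  have hTs : ∀ cs ij Y θ, T cs ij Y = some θ ↔
      ∀ s, Tr (g s) (cs s) ij.1 ij.2 Y = some (finFunctionFinEquiv.symm θ s) := by
    intro cs ij Y θ
    exact B5tr_some _ _ _ _ _
  have hTn : ∀ cs ij Y, T cs ij Y ≠ none ↔ ∀ s, Tr (g s) (cs s) ij.1 ij.2 Y ≠ none := by
    intro cs ij Y
    exact B5tr_ne_none _ _ _ _
  set NU := (Finset.univ.filter fun Y : Fin m → Fin N → ZMod 3 => ∀ t, ∑ k, Y k t ≠ 2) with hNU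
  set ON := (Finset.univ.filter fun Y : Fin m → Fin N → ZMod 3 => ∃! t, ∑ k, Y k t = 2) with hON
  have hA0 : Nat.card {Y : Fin m → Fin N → ZMod 3 //
      (∀ t, ∑ k, Y k t ≠ 2) ∧ ∀ s, Out (g s) Y} = (NU.filter fun Y => ∀ s, Out (g s) Y).card := by
    rw [Nat.card_eq_fintype_card, Fintype.card_subtype, hNU, Finset.filter_filter]
  have hA1 : Nat.card {Y : Fin m → Fin N → ZMod 3 //
      (∃! t, ∑ k, Y k t = 2) ∧ ∀ s, Out (g s) Y} = (ON.filter fun Y => ∀ s, Out (g s) Y).card := by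
    rw [Nat.card_eq_fintype_card, Fintype.card_subtype, hON, Finset.filter_filter]
  rw [hA0, hA1]
  -- the inequality for each pair and each tuple of margins
  have hpair : ∀ cs, ∀ ij ∈ Pr,
      2 ^ (N / 400) * (N * (NU.filter fun Y => T cs ij Y ≠ none).card) ≤
      2 ^ (N / 400) * (1024 * (ON.filter fun Y => ∀ s, Out (g s) Y).card) +
        96 * N * K ^ 11 * Z := by
    intro cs ij hij
    have hlt : ij.1 < ij.2 := by simpa [hPr] using hij
    have h := null_one m N (K ^ 11) hN ij.1 ij.2 hlt (T cs ij) (by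
      intro Y Y' θ hag h1 h2
      rw [hTs] at h1 h2 ⊢
      intro s
      exact hR (g s) (cs s) ij.1 ij.2 Y Y' _ hlt hag (h1 s) (h2 s))
    rw [Nat.card_eq_fintype_card, Fintype.card_subtype, Nat.card_eq_fintype_card,
      Fintype.card_subtype] at h
    have e1 : (Finset.univ.filter fun Y : Fin m → Fin N → ZMod 3 =>
        (∀ t, ∑ k, Y k t ≠ 2) ∧ T cs ij Y ≠ none) = NU.filter fun Y => T cs ij Y ≠ none := by
      rw [hNU, Finset.filter_filter]
    have e2 : (Finset.univ.filter fun Y : Fin m → Fin N → ZMod 3 =>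
        (∃! t, ∑ k, Y k t = 2) ∧ T cs ij Y ≠ none).card ≤
          (ON.filter fun Y => ∀ s, Out (g s) Y).card := by
      refine Finset.card_le_card fun Y hY => ?_
      rw [Finset.mem_filter] at hY
      rw [Finset.mem_filter, hON, Finset.mem_filter]
      refine ⟨⟨Finset.mem_univ _, hY.2.1⟩, fun s => ?_⟩
      exact hO (g s) (cs s) ij.1 ij.2 Y hlt ((hTn cs ij Y).1 hY.2.2 s)
    rw [e1] at h
    calc 2 ^ (N / 400) * (N * (NU.filter fun Y => T cs ij Y ≠ none).card) ≤ _ := h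
      _ ≤ 2 ^ (N / 400) * (1024 * (ON.filter fun Y => ∀ s, Out (g s) Y).card) +
          96 * N * K ^ 11 * 6 ^ N * 3 ^ (N * (m - 2)) := by gcongr
      _ = _ := by rw [← hZ6]; ring
  set RH := 2 ^ (N / 400) * (1024 * (ON.filter fun Y => ∀ s, Out (g s) Y).card) +
    96 * N * K ^ 11 * Z with hRH
  set S := ∑ cs : Fin 11 → Fin M, ∑ ij ∈ Pr, (NU.filter fun Y => T cs ij Y ≠ none).card with hS
  have hsum : 2 ^ (N / 400) * (N * S) ≤ M ^ 11 * (Pr.card * RH) := by
    have h1 : ∀ cs ∈ (Finset.univ : Finset (Fin 11 → Fin M)),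
        2 ^ (N / 400) * (N * ∑ ij ∈ Pr, (NU.filter fun Y => T cs ij Y ≠ none).card) ≤
          Pr.card * RH := by
      intro cs _
      have h2 := Finset.sum_le_sum (hpair cs)
      rw [Finset.sum_const, ← Finset.mul_sum, ← Finset.mul_sum, smul_eq_mul] at h2
      exact h2
    have h3 := Finset.sum_le_sum h1
    rw [Finset.sum_const, ← Finset.mul_sum, ← Finset.mul_sum, smul_eq_mul, Finset.card_univ,
      Fintype.card_fun, Fintype.card_fin, Fintype.card_fin] at h3
    exact h3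
  -- double counting
  have hdc : M ^ 11 * (m * (m - 1)) * (NU.filter fun Y => ∀ s, Out (g s) Y).card ≤ 4 * S := by
    have h1 : S = ∑ Y ∈ NU, ∑ cs : Fin 11 → Fin M, (Pr.filter fun ij => T cs ij Y ≠ none).card := by
      rw [hS, Finset.sum_comm' (s := NU) (t := fun _ => Finset.univ) (t' := Finset.univ)
        (s' := fun _ => NU) (by simp)]
      refine Finset.sum_congr rfl fun cs _ => ?_
      simp only [Finset.card_filter]
      exact Finset.sum_comm
    rw [h1]
    have h2 : ∀ Y ∈ NU.filter (fun Y => ∀ s, Out (g s) Y),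
        M ^ 11 * (m * (m - 1)) ≤
          4 * ∑ cs : Fin 11 → Fin M, (Pr.filter fun ij => T cs ij Y ≠ none).card := by
      intro Y hY
      have hout : ∀ s, Out (g s) Y := (Finset.mem_filter.1 hY).2
      set bd : Fin 11 → Fin M → ℕ := fun s c =>
        (Pr.filter fun ij => Tr (g s) c ij.1 ij.2 Y = none).card with hbd
      have h3 : ∀ cs : Fin 11 → Fin M, (Pr.filter fun ij => ¬ T cs ij Y ≠ none).card ≤
          ∑ s : Fin 11, bd s (cs s) := by
        intro cs
        have hsub : (Pr.filter fun ij => ¬ T cs ij Y ≠ none) ⊆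
            (Finset.univ : Finset (Fin 11)).biUnion
              fun s => Pr.filter fun ij => Tr (g s) (cs s) ij.1 ij.2 Y = none := by
          intro ij hij
          rw [Finset.mem_filter] at hij
          rw [Finset.mem_biUnion]
          have h4 := hij.2
          rw [hTn] at h4
          push Not at h4
          obtain ⟨s, hs⟩ := h4
          exact ⟨s, Finset.mem_univ _, Finset.mem_filter.2 ⟨hij.1, hs⟩⟩
        exact (Finset.card_le_card hsub).trans Finset.card_biUnion_le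
      have h5 : ∀ s : Fin 11, 44 * ∑ c : Fin M, bd s c ≤ M * (m * (m - 1)) := by
        intro s
        have h6 := hG (g s) Y (hout s)
        have h7 : ∀ c : Fin M,
            {ij : Fin m × Fin m | ij.1 < ij.2 ∧ Tr (g s) c ij.1 ij.2 Y = none}.ncard =
              bd s c := by
          intro c
          have h8 : {ij : Fin m × Fin m | ij.1 < ij.2 ∧ Tr (g s) c ij.1 ij.2 Y = none} =
              ((Pr.filter fun ij => Tr (g s) c ij.1 ij.2 Y = none : Finset (Fin m × Fin m)) :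
                Set (Fin m × Fin m)) := by
            ext ij
            simp [hPr]
          rw [h8, Set.ncard_coe_finset]
        rw [Finset.sum_congr rfl fun c _ => h7 c] at h6
        exact h6
      have h8 : 44 * ∑ cs : Fin 11 → Fin M, ∑ s : Fin 11, bd s (cs s) ≤
          11 * (M ^ 11 * (m * (m - 1))) := by
        rw [Finset.sum_comm]
        have h9 : ∀ s ∈ (Finset.univ : Finset (Fin 11)), ∑ cs : Fin 11 → Fin M, bd s (cs s) =
            M ^ 10 * ∑ c : Fin M, bd s c := fun s _ => Corrupt_sum_coord M s (bd s)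
        rw [Finset.sum_congr rfl h9, Finset.mul_sum]
        calc ∑ s : Fin 11, 44 * (M ^ 10 * ∑ c : Fin M, bd s c)
            = ∑ s : Fin 11, M ^ 10 * (44 * ∑ c : Fin M, bd s c) :=
              Finset.sum_congr rfl fun s _ => by ring
          _ ≤ ∑ _s : Fin 11, M ^ 10 * (M * (m * (m - 1))) :=
              Finset.sum_le_sum fun s _ => Nat.mul_le_mul_left _ (h5 s)
          _ = 11 * (M ^ 11 * (m * (m - 1))) := by
              rw [Finset.sum_const, Finset.card_univ, Fintype.card_fin, smul_eq_mul]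
              ring
      have h10 : ∑ cs : Fin 11 → Fin M, (Pr.filter fun ij => T cs ij Y ≠ none).card +
          ∑ cs : Fin 11 → Fin M, (Pr.filter fun ij => ¬ T cs ij Y ≠ none).card =
            M ^ 11 * Pr.card := by
        rw [← Finset.sum_add_distrib, Finset.sum_congr rfl fun cs _ =>
          Finset.card_filter_add_card_filter_not (s := Pr) (fun ij => T cs ij Y ≠ none),
          Finset.sum_const, Finset.card_univ, Fintype.card_fun, Fintype.card_fin,
          Fintype.card_fin, smul_eq_mul]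
      have h11 : ∑ cs : Fin 11 → Fin M, (Pr.filter fun ij => ¬ T cs ij Y ≠ none).card ≤
          ∑ cs : Fin 11 → Fin M, ∑ s : Fin 11, bd s (cs s) :=
        Finset.sum_le_sum fun cs _ => h3 cs
      have h12 : 2 * (M ^ 11 * Pr.card) = M ^ 11 * (m * (m - 1)) := by
        rw [← hPc]; ring
      omega
    calc M ^ 11 * (m * (m - 1)) * (NU.filter fun Y => ∀ s, Out (g s) Y).card
        = ∑ _Y ∈ NU.filter (fun Y => ∀ s, Out (g s) Y), M ^ 11 * (m * (m - 1)) := by
          rw [Finset.sum_const, smul_eq_mul, mul_comm]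
      _ ≤ ∑ Y ∈ NU.filter (fun Y => ∀ s, Out (g s) Y),
          4 * ∑ cs : Fin 11 → Fin M, (Pr.filter fun ij => T cs ij Y ≠ none).card :=
          Finset.sum_le_sum h2
      _ ≤ ∑ Y ∈ NU,
          4 * ∑ cs : Fin 11 → Fin M, (Pr.filter fun ij => T cs ij Y ≠ none).card :=
          Finset.sum_le_sum_of_subset (Finset.filter_subset _ _)
      _ = _ := by rw [Finset.mul_sum]
  -- conclusion
  have hmm : 0 < M ^ 11 * (m * (m - 1)) :=
    Nat.mul_pos (pow_pos hM 11) (Nat.mul_pos (by omega) (by omega))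
  refine Nat.le_of_mul_le_mul_left ?_ hmm
  set a0 := (NU.filter fun Y => ∀ s, Out (g s) Y).card with ha0
  set a1 := (ON.filter fun Y => ∀ s, Out (g s) Y).card with ha1
  calc M ^ 11 * (m * (m - 1)) * (2 ^ (N / 400) * N * a0)
      = 2 ^ (N / 400) * N * (M ^ 11 * (m * (m - 1)) * a0) := by ring
    _ ≤ 2 ^ (N / 400) * N * (4 * S) := Nat.mul_le_mul_left _ hdc
    _ = 4 * (2 ^ (N / 400) * (N * S)) := by ring
    _ ≤ 4 * (M ^ 11 * (Pr.card * RH)) := Nat.mul_le_mul_left _ hsum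
    _ = M ^ 11 * (2 * Pr.card) * (2048 * (2 ^ (N / 400) * a1) + 192 * N * K ^ 11 * Z) := by
        rw [hRH]; ring
    _ = M ^ 11 * (m * (m - 1)) * (2048 * (2 ^ (N / 400) * a1) + 192 * N * K ^ 11 * Z) := by
        rw [hPc]

theorem corruptM (m N K M : ℕ) (hm : 2 ≤ m) (hN : 4000 ≤ N) (hM : 1 ≤ M) {Γ : Type} [Fintype Γ]
    [Nonempty Γ] (Out : Γ → (Fin m → Fin N → ZMod 3) → Prop)
    (Tr : Γ → Fin M → Fin m → Fin m → (Fin m → Fin N → ZMod 3) → Option (Fin K))
    (hR : ∀ γ c i j Y Y' θ, i < j → (∀ k, k ≠ i → k ≠ j → Y k = Y' k) → Tr γ c i j Y = some θ →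
      Tr γ c i j Y' = some θ → Tr γ c i j (Function.update Y j (Y' j)) = some θ)
    (hO : ∀ γ c i j Y, i < j → Tr γ c i j Y ≠ none → Out γ Y)
    (hG : ∀ γ Y, Out γ Y →
      44 * ∑ c : Fin M, {ij : Fin m × Fin m | ij.1 < ij.2 ∧ Tr γ c ij.1 ij.2 Y = none}.ncard ≤
        M * (m * (m - 1)))
    (A B : ℕ) (hA : ∀ Y, (∀ t, ∑ k, Y k t ≠ 2) → A ≤ Nat.card {γ // Out γ Y})
    (hB : ∀ Y, (∃! t, ∑ k, Y k t = 2) → Nat.card {γ // Out γ Y} ≤ B)
    (hAB : 2 * B ≤ A) (hA2 : 2 * Fintype.card Γ ≤ 3 * A)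
    (hK : 2 ^ 16 * K ^ 11 < 2 ^ (N / 400)) : False := by
  classical
  set Z : ℕ := (2 * 3 ^ (m - 1)) ^ N with hZ
  have hZpos : 0 < Z := by positivity
  have hsum : ∑ c : Fin 11 → Γ, 2 ^ (N / 400) * N * Nat.card {Y : Fin m → Fin N → ZMod 3 //
        (∀ t, ∑ k, Y k t ≠ 2) ∧ ∀ s, Out (c s) Y} ≤
      ∑ c : Fin 11 → Γ, (2048 * (2 ^ (N / 400) * Nat.card {Y : Fin m → Fin N → ZMod 3 //
        (∃! t, ∑ k, Y k t = 2) ∧ ∀ s, Out (c s) Y}) + 192 * N * K ^ 11 * Z) :=
    Finset.sum_le_sum fun c _ => Corrupt_tuple m N K M hm hN hM Out Tr hR hO hG c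
  rw [← Finset.mul_sum, Finset.sum_add_distrib, ← Finset.mul_sum, ← Finset.mul_sum,
    B5_swap Out (fun Y : Fin m → Fin N → ZMod 3 => ∀ t, ∑ k, Y k t ≠ 2),
    B5_swap Out (fun Y : Fin m → Fin N → ZMod 3 => ∃! t, ∑ k, Y k t = 2),
    Finset.sum_const, Finset.card_univ, Fintype.card_fun, Fintype.card_fin, smul_eq_mul] at hsum
  have hn := card_null m N (by omega)
  have ho := card_one m N (by omega)
  rw [← hZ] at hn ho
  have h1 : A ^ 11 * Z ≤ ∑ y : {Y : Fin m → Fin N → ZMod 3 // ∀ t, ∑ k, Y k t ≠ 2},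
      Nat.card {c // Out c y.1} ^ 11 := by
    calc A ^ 11 * Z = ∑ _y : {Y : Fin m → Fin N → ZMod 3 // ∀ t, ∑ k, Y k t ≠ 2}, A ^ 11 := by
          rw [Finset.sum_const, Finset.card_univ, ← Nat.card_eq_fintype_card, hn, smul_eq_mul,
            mul_comm]
      _ ≤ _ := Finset.sum_le_sum fun y _ => Nat.pow_le_pow_left (hA y.1 y.2) 11
  have h2 : 2 * ∑ y : {Y : Fin m → Fin N → ZMod 3 // ∃! t, ∑ k, Y k t = 2},
      Nat.card {c // Out c y.1} ^ 11 ≤ B ^ 11 * (N * Z) := by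
    calc _ ≤ 2 * ∑ _y : {Y : Fin m → Fin N → ZMod 3 // ∃! t, ∑ k, Y k t = 2}, B ^ 11 :=
          Nat.mul_le_mul_left _ (Finset.sum_le_sum fun y _ => Nat.pow_le_pow_left (hB y.1 y.2) 11)
      _ = B ^ 11 * (2 * Nat.card {Y : Fin m → Fin N → ZMod 3 // ∃! t, ∑ k, Y k t = 2}) := by
          rw [Finset.sum_const, Finset.card_univ, ← Nat.card_eq_fintype_card, smul_eq_mul]
          ring
      _ = _ := by rw [ho]
  refine B5_arith A B (Fintype.card Γ) K (N / 400) N Z (by omega) hZpos Fintype.card_pos ?_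
    hAB hA2 hK
  set s0 := ∑ y : {Y : Fin m → Fin N → ZMod 3 // ∀ t, ∑ k, Y k t ≠ 2},
      Nat.card {c // Out c y.1} ^ 11 with hs0
  set s1 := ∑ y : {Y : Fin m → Fin N → ZMod 3 // ∃! t, ∑ k, Y k t = 2},
      Nat.card {c // Out c y.1} ^ 11 with hs1
  calc 2 ^ (N / 400) * N * (A ^ 11 * Z) ≤ 2 ^ (N / 400) * N * s0 := Nat.mul_le_mul_left _ h1
    _ ≤ 2048 * (2 ^ (N / 400) * s1) + Fintype.card Γ ^ 11 * (192 * N * K ^ 11 * Z) := hsum
    _ = 1024 * (2 ^ (N / 400) * (2 * s1)) + 192 * N * K ^ 11 * Z * Fintype.card Γ ^ 11 := by ring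
    _ ≤ 1024 * (2 ^ (N / 400) * (B ^ 11 * (N * Z))) +
        192 * N * K ^ 11 * Z * Fintype.card Γ ^ 11 := by gcongr

end Pool.Agent.HM
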