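import Mathlib
import Pool.Agent.Lib.MP_b573ec_lc_ST.Fool
import Pool.Agent.Lib.MP_b573ec_lc_ST.LowerCoB
import Pool.Agent.Lib.MP_b573ec_lc_HM.TransN
import Pool.Agent.Lib.MP_b573ec_lc_HM.Enc
import Pool.Agent.Lib.MP_b573ec_lc_HM.Numbers

/-!
# Lower bound for the complement of `langB`
-/

namespace Pool.Agent.HM

open Pool.Agent.LT (Inp)
open Pool.Agent.ST (langB)

theorem lowerCoB : ∃ C : ℕ, ∀ n k p T S w : ℕ, 1 ≤ k → 1 ≤ p → 1 ≤ S → 1 ≤ n → n ≤ 2 ^ S →
    w ≤ 2 ^ S → T ≤ p * n → C * k ^ 3 * p ^ 2 * S ≤ n →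
    ∃ X : Finset (Inp n), X.Nonempty ∧ (∀ x ∈ X, langB n x = false) ∧
      ∀ P : NHeadProg n k w, (∀ x, P.Accepts T x → langB n x = false) →
        2 * Nat.card {x : Inp n // x ∈ X ∧ P.Accepts T x} < X.card := by
  classical
  obtain ⟨D, hD⟩ := transcriptsN
  obtain ⟨C, hCn⟩ := numbers D 3
  refine ⟨C, fun n k p T S w hk hp hS hn1 hn hw hT hC => ?_⟩
  obtain ⟨g, κ, s, N, hκ, hs, hg, hg2, hN, hTS, h88, hE⟩ := hCn n k p T S hk hp hS hn hT hn1 hC
  have h2g : 0 < 2 ^ g := by positivity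
  have hroom := ST.E1_room n g
  have hbn : (n - Nat.log 2 n) / 2 ^ g ≤ n := (Nat.div_le_self _ _).trans (Nat.sub_le _ _)
  have hBn : 2 * s ≤ n := by omega
  have hmain : 2 * (3 * k ^ 2 * κ * (T + 2 * (2 * s)) + 2 ^ g * T) <
      κ * (2 * s) * (2 ^ g * (2 ^ g - 1)) := by
    refine lt_of_le_of_lt (Nat.mul_le_mul_right _ (by norm_num)) h88
  have hK : (2 ^ g) ^ 2 * 2 ^ (D * k * κ * S) < 3 ^ N := by
    calc (2 ^ g) ^ 2 * 2 ^ (D * k * κ * S) = 2 ^ (g * 2 + D * k * κ * S) := by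
          rw [← pow_mul, ← pow_add]
      _ < 2 ^ N := Nat.pow_lt_pow_right (by norm_num) (by omega)
      _ ≤ 3 ^ N := Nat.pow_le_pow_left (by norm_num) N
  set enc : (Fin (2 ^ g) → Fin N → ZMod 3) → Inp n := fun Y => encB n g s Y with henc
  have hinj : Function.Injective enc := encB_injective hg hN
  set σ : Fin N → ZMod 3 := fun _ => 1 with hσ
  refine ⟨(Finset.univ.filter (fun Y => ∑ k, Y k = σ)).image enc, ?_, ?_, ?_⟩
  · refine ⟨enc (Pi.single ⟨0, h2g⟩ σ), Finset.mem_image_of_mem _ ?_⟩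
    simp
  · intro x hx
    obtain ⟨Y, hY, rfl⟩ := Finset.mem_image.1 hx
    have hY' : ∑ k, Y k = σ := by simpa using hY
    rw [Bool.eq_false_iff]
    intro hc
    obtain ⟨t, ht⟩ := (langB_encB hg hN Y).1 hc
    have h3 : ∑ k, Y k t = 1 := by
      have := congrFun hY' t
      simpa using this
    rw [h3] at ht
    exact absurd ht (by decide)
  · intro P hP
    by_contra hcon
    push Not at hcon
    obtain ⟨Tr, hR, hG⟩ := hD n k T w S (Nat.log 2 n) ((n - Nat.log 2 n) / 2 ^ g) (2 ^ g) (2 * s) κ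
      P hk hS hκ hn hw hTS hroom hBn hmain
    have hA : Nat.card {Y : Fin (2 ^ g) → Fin N → ZMod 3 // ∑ k, Y k = σ} ≤
        2 * Nat.card {Y : Fin (2 ^ g) → Fin N → ZMod 3 //
          ∑ k, Y k = σ ∧ P.Accepts T (enc Y)} := by
      have e1 : ((Finset.univ.filter (fun Y : Fin (2 ^ g) → Fin N → ZMod 3 =>
          ∑ k, Y k = σ)).image enc).card =
          Nat.card {Y : Fin (2 ^ g) → Fin N → ZMod 3 // ∑ k, Y k = σ} := by
        rw [Finset.card_image_of_injective _ hinj, Nat.card_eq_fintype_card,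
          Fintype.card_subtype]
      have e2 : Nat.card {x : Inp n // x ∈ (Finset.univ.filter
          (fun Y : Fin (2 ^ g) → Fin N → ZMod 3 => ∑ k, Y k = σ)).image enc ∧
            P.Accepts T x} = Nat.card {Y : Fin (2 ^ g) → Fin N → ZMod 3 //
          ∑ k, Y k = σ ∧ P.Accepts T (enc Y)} := by
        symm
        apply Nat.card_congr
        refine Equiv.ofBijective (fun Y => ⟨enc Y.1, Finset.mem_image_of_mem _ (by
          simpa using Y.2.1), Y.2.2⟩) ⟨?_, ?_⟩
        · rintro ⟨Y, hY⟩ ⟨Y', hY'⟩ h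
          simp only [Subtype.mk.injEq] at h
          exact Subtype.ext (hinj h)
        · rintro ⟨x, hx, hxa⟩
          obtain ⟨Y, hY, rfl⟩ := Finset.mem_image.1 hx
          exact ⟨⟨Y, by simpa using hY, hxa⟩, rfl⟩
      rw [← e1, ← e2]
      exact hcon
    obtain ⟨i, j, Y, Y', hij, h1, h2, hne, hag, ha1, ha2⟩ :=
      ST.exists_fooling (H := Fin N → ZMod 3) (2 ^ g)
        (2 ^ (D * k * κ * S)) h2g σ (fun Y => P.Accepts T (enc Y))
        (fun i j Y θ => Tr i j (enc Y) θ)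
        (by
          intro i j hij Y Y' θ hag ht ht'
          have h4 := hR i j _ _ θ hij (encB_agree hg hN Y Y' i j hag) ht ht'
          rw [encB_mix hg hN] at h4
          exact h4)
        (by
          intro Y hY
          exact hG (enc Y) hY)
        hA (by
          rw [Fintype.card_fun, ZMod.card, Fintype.card_fin]
          exact hK)
    rcases ST.B7_contra Y Y' i j hij h1 h2 hne hag with h | h
    · have h3 := hP _ ha1
      rw [(langB_encB hg hN _).2 h] at h3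
      exact absurd h3 (by decide)
    · have h3 := hP _ ha2
      rw [(langB_encB hg hN _).2 h] at h3
      exact absurd h3 (by decide)

end Pool.Agent.HM
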