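import Mathlib
import Pool.Agent.Lib.MP_b573ec_lc_ST.UpperA
import Pool.Agent.Lib.MP_b573ec_lc_ST.UpperB
import Pool.Agent.Lib.MP_b573ec_lc_HM.LowerA
import Pool.Agent.Lib.MP_b573ec_lc_HM.LowerB
import Pool.Agent.Lib.MP_b573ec_lc_HM.LowerCoB

/-!
# P, RP, coRP, NP, coNP for multihead stack programs with few head moves
-/

namespace Pool.Agent.HM

open Pool.Agent.LT (Inp OneSidedOnePass NondetOnePass)
open Pool.Agent.ST (langA langB)

theorem F_half {n k T w : ℕ} (f : Inp n → Bool) (X : Finset (Inp n))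
    (hf : ∀ x ∈ X, f x = false)
    (h : ∀ P : NHeadProg n k w, (∀ x, P.Accepts T x → f x = false) →
      2 * Nat.card {x : Inp n // x ∈ X ∧ P.Accepts T x} < X.card) :
    ¬ HeadNondet (fun x => !f x) k T w ∧ ¬ HeadOneSided (fun x => !f x) k T w := by
  classical
  constructor
  · rintro ⟨P, hP⟩
    have h1 := h P (fun x hx => by
      have := (hP x).mpr hx
      simpa using this)
    have h2 : Nat.card {x : Inp n // x ∈ X ∧ P.Accepts T x} = X.card := by
      rw [← Fintype.card_coe, ← Nat.card_eq_fintype_card]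
      refine Nat.card_congr (Equiv.subtypeEquivRight fun x => ⟨fun hx => hx.1, fun hx => ⟨hx, ?_⟩⟩)
      refine (hP x).mp ?_
      simp [hf x hx]
    omega
  · rintro ⟨ρ, P, h1, h2⟩
    -- for every `c` less than half of `X`
    have h3 : ∀ c, 2 * (X.filter fun x => (P c).Outputs T x true).card < X.card := by
      intro c
      have h4 := h ((P c).toN true) (fun x hx => by
        rw [toN_accepts] at hx
        by_contra hne
        have h5 : (!f x) = false := by simpa using hne
        exact absurd (outputs_unique (P c) T x hx (h2 x h5 c)) (by decide))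
      have h5 : Nat.card {x : Inp n // x ∈ X ∧ ((P c).toN true).Accepts T x} =
          (X.filter fun x => (P c).Outputs T x true).card := by
        rw [← Fintype.card_coe, ← Nat.card_eq_fintype_card]
        refine Nat.card_congr (Equiv.subtypeEquivRight fun x => ?_)
        rw [toN_accepts, Finset.mem_filter]
      omega
    -- for every `x` at least half of the `c`
    have h6 : ∀ x ∈ X, 2 ^ ρ ≤
        2 * (Finset.univ.filter fun c : Fin ρ → Bool => (P c).Outputs T x true).card := by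
      intro x hx
      have h7 := h1 x (by simp [hf x hx])
      rwa [Nat.card_eq_fintype_card, Fintype.card_subtype] at h7
    have h8 : ∑ x ∈ X, (Finset.univ.filter fun c : Fin ρ → Bool =>
        (P c).Outputs T x true).card =
        ∑ c : Fin ρ → Bool, (X.filter fun x => (P c).Outputs T x true).card := by
      simp only [Finset.card_filter]
      exact Finset.sum_comm
    have h9 : X.card * 2 ^ ρ ≤
        2 * ∑ x ∈ X, (Finset.univ.filter fun c : Fin ρ → Bool =>
          (P c).Outputs T x true).card := by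
      rw [Finset.mul_sum, ← smul_eq_mul]
      exact Finset.card_nsmul_le_sum _ _ _ h6
    have h10 : 2 * ∑ c : Fin ρ → Bool, (X.filter fun x => (P c).Outputs T x true).card <
        X.card * 2 ^ ρ := by
      rw [Finset.mul_sum]
      have h11 : ∑ c : Fin ρ → Bool, X.card = X.card * 2 ^ ρ := by
        simp [mul_comm]
      rw [← h11]
      exact Finset.sum_lt_sum_of_nonempty Finset.univ_nonempty fun c _ => h3 c
    rw [h8] at h9
    omega

/-- the program with the negated output -/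
def HeadProg.neg {n k w : ℕ} (P : HeadProg n k w) : HeadProg n k w where
  heads := P.heads
  start := P.start
  move := P.move
  acc q := !P.acc q

theorem HeadProg.neg_outputs {n k w : ℕ} (P : HeadProg n k w) (T : ℕ) (x : Inp n) {b : Bool}
    (h : P.Outputs T x b) : P.neg.Outputs T x (!b) := by
  obtain ⟨j, h1, h2⟩ := h
  refine ⟨j, h1, ?_⟩
  show (!P.acc (P.conf T x j).state) = !b
  rw [h2]

theorem F_det {n k T w : ℕ} (f : Inp n → Bool) (h : HeadDet f k T w) :
    HeadOneSided (fun x => !f x) k T w := by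
  obtain ⟨P, hP⟩ := h
  refine ⟨0, fun _ => P.neg, fun x hx => ?_, fun x hx c => ?_⟩
  · have h1 : P.neg.Outputs T x true := by
      have := P.neg_outputs T x (hP x)
      rwa [show (!f x) = true from hx] at this
    have h2 : Nat.card {c : Fin 0 → Bool // P.neg.Outputs T x true} = 1 := by
      rw [Nat.card_eq_one_iff_unique]
      exact ⟨⟨fun a b => Subtype.ext (Subsingleton.elim _ _)⟩, ⟨⟨fun i => i.elim0, h1⟩⟩⟩
    rw [h2]
    norm_num
  · have := P.neg_outputs T x (hP x)
    rwa [show (!f x) = false from hx] at this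

/-- the number of sweeps -/
theorem F_sweeps {C n k T S : ℕ} (hn : 1 ≤ n) (hT : n ≤ T)
    (h : 4 * C * k ^ 3 * T ^ 2 * S ≤ n ^ 3) :
    1 ≤ T / n + 1 ∧ T ≤ (T / n + 1) * n ∧ C * k ^ 3 * (T / n + 1) ^ 2 * S ≤ n := by
  refine ⟨Nat.le_add_left _ _, ?_, ?_⟩
  · have h1 := Nat.lt_div_mul_add (a := T) (b := n) hn
    have h2 : (T / n + 1) * n = T / n * n + n := by ring
    omega
  · have h1 : (T / n + 1) * n ≤ 2 * T := by
      have := Nat.div_mul_le_self T n
      have h2 : (T / n + 1) * n = T / n * n + n := by ring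
      omega
    have h2 : C * k ^ 3 * (T / n + 1) ^ 2 * S * n ^ 2 ≤ n * n ^ 2 := by
      calc C * k ^ 3 * (T / n + 1) ^ 2 * S * n ^ 2
          = C * k ^ 3 * S * ((T / n + 1) * n) ^ 2 := by ring
        _ ≤ C * k ^ 3 * S * (2 * T) ^ 2 := Nat.mul_le_mul_left _ (Nat.pow_le_pow_left h1 2)
        _ = 4 * C * k ^ 3 * T ^ 2 * S := by ring
        _ ≤ n ^ 3 := h
        _ = n * n ^ 2 := by ring
    exact Nat.le_of_mul_le_mul_right h2 (by positivity)

theorem resultHM : ∃ C : ℕ,
    (∀ n ≥ 1, (∃ w ≤ C * n, OneSidedOnePass (langA n) w) ∧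
      ∃ w ≤ C * n ^ 2, NondetOnePass (langB n) w) ∧
    ∀ n k T S w : ℕ, 1 ≤ n → 1 ≤ k → 1 ≤ S → n ≤ T → n ≤ 2 ^ S → w ≤ 2 ^ S →
      C * k ^ 3 * T ^ 2 * S ≤ n ^ 3 →
      ¬ HeadDet (langA n) k T w ∧ ¬ HeadOneSided (fun x => !langA n x) k T w ∧
      ¬ HeadNondet (fun x => !langA n x) k T w ∧
      ¬ HeadTwoSided (langB n) k T w ∧ ¬ HeadOneSided (langB n) k T w ∧
      ¬ HeadNondet (fun x => !langB n x) k T w := by
  obtain ⟨C1, h1⟩ := Pool.Agent.ST.upperA
  obtain ⟨C2, h2⟩ := Pool.Agent.ST.upperB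
  obtain ⟨C3, h3⟩ := lowerA
  obtain ⟨C4, h4⟩ := lowerB
  obtain ⟨C5, h5⟩ := lowerCoB
  refine ⟨4 * (C1 + C2 + C3 + C4 + C5), fun n hn => ⟨?_, ?_⟩,
    fun n k T S w hn hk hS hT hnS hw hC => ?_⟩
  · obtain ⟨w, hw, h⟩ := h1 n hn
    exact ⟨w, hw.trans (Nat.mul_le_mul_right _ (by omega)), h⟩
  · obtain ⟨w, hw, h⟩ := h2 n hn
    exact ⟨w, hw.trans (Nat.mul_le_mul_right _ (by omega)), h⟩
  · have key : ∀ D ≤ C1 + C2 + C3 + C4 + C5, 4 * D * k ^ 3 * T ^ 2 * S ≤ n ^ 3 := by
      intro D hD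
      refine le_trans ?_ hC
      gcongr
    have h6 := F_sweeps hn hT (key C3 (by omega))
    have h7 := F_sweeps hn hT (key C4 (by omega))
    have h8 := F_sweeps hn hT (key C5 (by omega))
    obtain ⟨X, -, hX, h9⟩ := h3 n k _ T S w hk h6.1 hS hn hnS hw h6.2.1 h6.2.2
    obtain ⟨Y, -, hY, h10⟩ := h5 n k _ T S w hk h8.1 hS hn hnS hw h8.2.1 h8.2.2
    have h11 := F_half (langA n) X hX h9
    have h12 := F_half (langB n) Y hY h10
    have h13 := h4 n k _ T S w hk h7.1 hS hn hnS hw h7.2.1 h7.2.2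
    exact ⟨fun h => h11.2 (F_det _ h), h11.2, h11.1, h13.1, h13.2, h12.1⟩

end Pool.Agent.HM
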