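import Mathlib
import Pool.Agent.Lib.MP_b573ec_lc_HM.Model

/-!
# One-pass programs without a stack are programs with one head

`n` head moves of one head are enough, the stack is not used, and the width is the same.
-/

namespace Pool.Agent.HM

open Pool.Agent.LT (Inp Prog NProg OneSidedOnePass NondetOnePass)

/-- the cell of the head after `j` moves to the right from the first cell -/
def Cmp_cell {n : ℕ} (hn : 0 < n) (j : ℕ) : Fin 1 → Fin n := fun _ =>
  ⟨min j (n - 1), lt_of_le_of_lt (Nat.min_le_right _ _) (Nat.sub_lt hn Nat.one_pos)⟩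

theorem Cmp_cell_succ {n : ℕ} (hn : 0 < n) (j : ℕ) :
    Function.update (Cmp_cell hn j) 0 (nbr (Cmp_cell hn j 0) true) = Cmp_cell hn (j + 1) := by
  funext r
  have hr : r = 0 := Subsingleton.elim _ _
  subst hr
  rw [Function.update_self]
  apply Fin.ext
  unfold nbr Cmp_cell
  dsimp only
  rw [if_pos rfl]
  split_ifs with h
  · dsimp only
    omega
  · dsimp only
    omega

theorem Cmp_cell_lt {n : ℕ} (hn : 0 < n) {j : ℕ} (h : j < n) (r : Fin 1) :
    Cmp_cell hn j r = ⟨j, h⟩ := by
  apply Fin.ext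
  unfold Cmp_cell
  dsimp only
  omega

/-- a one-pass program as a program with one head -/
def Cmp_prog {n w : ℕ} (hn : 0 < n) (Q : Prog n n w) : HeadProg n 1 w where
  heads := Cmp_cell hn 0
  start := Q.start
  move t _ q _ y := .head (if ht : t < n then Q.next ⟨t, ht⟩ q (y 0) else q) 0 true
  acc := Q.acc

theorem Cmp_conf {n w : ℕ} (hn : 0 < n) (Q : Prog n n w) (hQ : Q.OnePass) (T : ℕ) (x : Inp n)
    (j : ℕ) (hj : j ≤ T) :
    (Cmp_prog hn Q).conf T x j = ⟨j, Cmp_cell hn j, Q.state x j, []⟩ := by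
  induction j with
  | zero => rfl
  | succ j ih =>
    have h1 := ih (by omega)
    have h2 : (Cmp_prog hn Q).conf T x (j + 1) =
        (Cmp_prog hn Q).step T x ((Cmp_prog hn Q).conf T x j) := by
      simp only [HeadProg.conf, Function.iterate_succ_apply']
    rw [h2, h1]
    have h3 : (Cmp_prog hn Q).step T x ⟨j, Cmp_cell hn j, Q.state x j, []⟩ =
        Conf.after ⟨j, Cmp_cell hn j, Q.state x j, []⟩ ((Cmp_prog hn Q).move j (Cmp_cell hn j)
          (Q.state x j) none (fun r => x (Cmp_cell hn j r))) := by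
      unfold HeadProg.step
      exact if_pos (show j < T by omega)
    rw [h3]
    change (⟨j + 1, Function.update (Cmp_cell hn j) 0 (nbr (Cmp_cell hn j 0) true),
      (if ht : j < n then Q.next ⟨j, ht⟩ (Q.state x j) (x (Cmp_cell hn j 0)) else Q.state x j),
      []⟩ : Conf n 1 w) = _
    rw [Cmp_cell_succ]
    congr 1
    change _ = (if h : j < n then
      Q.next ⟨j, h⟩ (Q.state x j) (x (Q.var ⟨j, h⟩ (Q.state x j))) else Q.state x j)
    by_cases h : j < n
    · rw [dif_pos h, dif_pos h, Cmp_cell_lt hn h, hQ]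
    · rw [dif_neg h, dif_neg h]

theorem Cmp_state {n w : ℕ} (Q : Prog n n w) (x : Inp n) (j : ℕ) (hj : n ≤ j) :
    Q.state x j = Q.state x n := by
  induction j, hj using Nat.le_induction with
  | base => rfl
  | succ j hj ih =>
    change (if h : j < n then
      Q.next ⟨j, h⟩ (Q.state x j) (x (Q.var ⟨j, h⟩ (Q.state x j))) else Q.state x j) = _
    rw [dif_neg (by omega), ih]

theorem Cmp_outputs {n w : ℕ} (hn : 0 < n) (Q : Prog n n w) (hQ : Q.OnePass) {T : ℕ} (hT : n ≤ T)
    (x : Inp n) : (Cmp_prog hn Q).Outputs T x (Q.eval x) := by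
  refine ⟨T, ?_, ?_⟩
  · rw [Cmp_conf hn Q hQ T x T le_rfl]
  · rw [Cmp_conf hn Q hQ T x T le_rfl]
    change Q.acc (Q.state x T) = Q.acc (Q.state x n)
    rw [Cmp_state Q x T hT]

/-- one-sided error -/
theorem oneSided_of_onePass {n w T : ℕ} (hn : 1 ≤ n) (hT : n ≤ T) {f : Inp n → Bool}
    (h : OneSidedOnePass f w) : HeadOneSided f 1 T w := by
  obtain ⟨ρ, P, h1, h2, h3⟩ := h
  refine ⟨ρ, fun c => Cmp_prog hn (P c), fun x hx => ?_, fun x hx c => ?_⟩
  · refine (h2 x hx).trans (Nat.mul_le_mul_left 2 ?_)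
    classical
    rw [Nat.card_eq_fintype_card, Fintype.card_subtype]
    refine Finset.card_le_card fun c hc => ?_
    rw [Finset.mem_filter] at hc ⊢
    refine ⟨hc.1, ?_⟩
    rw [← hc.2]
    exact Cmp_outputs hn (P c) (h1 c) hT x
  · rw [← h3 x hx c]
    exact Cmp_outputs hn (P c) (h1 c) hT x

/-! ## Nondeterministic programs -/

/-- a nondeterministic one-pass program as a program with one head -/
def Cmp_nprog {n w : ℕ} (hn : 0 < n) (Q : NProg n n w) : NHeadProg n 1 w where
  start h q := h = Cmp_cell hn 0 ∧ Q.start q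
  move t _ q _ y mv := ∃ q', mv = .head q' 0 true ∧
    ((∃ ht : t < n, Q.next ⟨t, ht⟩ q (y 0) q') ∨ (n ≤ t ∧ q' = q))
  acc := Q.acc

/-- the condition on the states of a computation -/
def Cmp_path {n w : ℕ} (Q : NProg n n w) (x : Inp n) (p : ℕ → Fin w) (i : ℕ) : Prop :=
  (∃ ht : i < n, Q.next ⟨i, ht⟩ (p i) (x ⟨i, ht⟩) (p (i + 1))) ∨ (n ≤ i ∧ p (i + 1) = p i)

theorem Cmp_inv {n w : ℕ} (hn : 0 < n) (Q : NProg n n w) (T : ℕ) (x : Inp n) {q : Fin w}
    {c : Conf n 1 w}
    (h : Relation.ReflTransGen ((Cmp_nprog hn Q).Step T x) ⟨0, Cmp_cell hn 0, q, []⟩ c) :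
    ∃ p : ℕ → Fin w, p 0 = q ∧ c = ⟨c.time, Cmp_cell hn c.time, p c.time, []⟩ ∧
      ∀ i < c.time, Cmp_path Q x p i := by
  induction h with
  | refl => exact ⟨fun _ => q, rfl, rfl, fun i hi => absurd hi (Nat.not_lt_zero i)⟩
  | @tail b c _ h2 ih =>
    obtain ⟨p, hp0, hb, hp⟩ := ih
    obtain ⟨hT, mv, ⟨q', rfl, hq'⟩, rfl⟩ := h2
    obtain ⟨t, hd, s, st⟩ := b
    simp only [Conf.mk.injEq, true_and] at hb
    obtain ⟨rfl, rfl, rfl⟩ := hb
    simp only at hT hq' hp
    refine ⟨Function.update p (t + 1) q', ?_, ?_, ?_⟩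
    · rw [Function.update_of_ne (by omega)]
      exact hp0
    · simp only [Conf.after, Cmp_cell_succ, Function.update_self]
    · intro i hi
      simp only [Conf.after] at hi
      rcases Nat.lt_succ_iff_lt_or_eq.1 hi with hi | rfl
      · have h3 := hp i hi
        unfold Cmp_path at h3 ⊢
        rw [Function.update_of_ne (by omega), Function.update_of_ne (by omega)]
        exact h3
      · unfold Cmp_path
        rw [Function.update_self, Function.update_of_ne (by omega)]
        rcases hq' with ⟨ht, h4⟩ | h4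
        · left
          refine ⟨ht, ?_⟩
          rw [Cmp_cell_lt hn ht] at h4
          exact h4
        · exact Or.inr h4

theorem Cmp_accepts {n w : ℕ} (hn : 0 < n) (Q : NProg n n w) (hQ : ∀ i s, Q.var i s = i) {T : ℕ}
    (hT : n ≤ T) (x : Inp n) : (Cmp_nprog hn Q).Accepts T x ↔ Q.Accepts x := by
  constructor
  · rintro ⟨h, q, c, ⟨rfl, hq⟩, hc, hcT, hacc⟩
    obtain ⟨p, rfl, hc2, hp⟩ := Cmp_inv hn Q T x hc
    rw [hcT] at hc2 hp
    have hpT : ∀ j, n ≤ j → j ≤ T → p j = p n := by
      intro j hj hjT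
      induction j, hj using Nat.le_induction with
      | base => rfl
      | succ j hj ih =>
        rcases hp j (by omega) with ⟨ht, -⟩ | ⟨-, h5⟩
        · omega
        · rw [h5, ih (by omega)]
    refine ⟨p, hq, fun i => ?_, ?_⟩
    · rcases hp i (by have := i.2; omega) with ⟨ht, h5⟩ | ⟨h5, -⟩
      · rw [hQ]
        exact h5
      · exact absurd i.2 (not_lt.2 h5)
    · have h6 : c.state = p T := by rw [hc2]
      rw [← hpT T hT le_rfl, ← h6]
      exact hacc
  · rintro ⟨p, hp0, hp, hacc⟩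
    have key : ∀ j ≤ T, Relation.ReflTransGen ((Cmp_nprog hn Q).Step T x)
        ⟨0, Cmp_cell hn 0, p 0, []⟩ ⟨j, Cmp_cell hn j, p (min j n), []⟩ := by
      intro j
      induction j with
      | zero =>
        intro _
        rw [Nat.zero_min]
      | succ j ih =>
        intro hj
        refine (ih (by omega)).tail ⟨by simp only; omega, .head (p (min (j + 1) n)) 0 true,
          ⟨_, rfl, ?_⟩, ?_⟩
        · by_cases h : j < n
          · left
            refine ⟨h, ?_⟩
            have h7 := hp ⟨j, h⟩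
            rw [hQ] at h7
            simp only
            rw [Cmp_cell_lt hn h, Nat.min_eq_left h.le, Nat.min_eq_left (by omega)]
            exact h7
          · right
            refine ⟨show n ≤ j by omega, ?_⟩
            simp only
            rw [Nat.min_eq_right (by omega), Nat.min_eq_right (by omega)]
        · simp only [Conf.after, Cmp_cell_succ]
    refine ⟨Cmp_cell hn 0, p 0, _, ⟨rfl, hp0⟩, key T le_rfl, rfl, ?_⟩
    change Q.acc (p (min T n))
    rw [Nat.min_eq_right hT]
    exact hacc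

/-- nondeterminism -/
theorem nondet_of_onePass {n w T : ℕ} (hn : 1 ≤ n) (hT : n ≤ T) {f : Inp n → Bool}
    (h : NondetOnePass f w) : HeadNondet f 1 T w := by
  obtain ⟨P, h1, h2⟩ := h
  exact ⟨Cmp_nprog hn P, fun x => (h2 x).trans (Cmp_accepts hn P h1 hT x).symm⟩

end Pool.Agent.HM
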